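import Pool.Agent.N174.Cyc.Few
import Pool.Agent.TH125.Gal.Pub

/-!
# Cyclic coverings: definitions
-/

open CategoryTheory AlgebraicGeometry

universe u v w

namespace Pool.Agent.N174.Cyc

open Pool.Agent.TH125.Gal

section Alg

variable {K : Type v} [Field K] {A : Type v} [Ring A] [Algebra K A] {B : Type v} [Ring B]
  [Algebra K B] {Γ : Type w} [Group Γ]

/-- The part of the subspace `T` on which `σ` is the multiplication by `c`. -/
def eigenPart (σ : A →ₐ[K] A) (T : Submodule K A) (c : K) : Submodule K A :=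
  T ⊓ Module.End.eigenspace σ.toLinearMap c

/-- For all `c ≠ 1` with `c ^ d = 1`, the part of `T` on which `σ = c` is irreducible under all
subgroups of finite index of `Γ`, and its dimension is greater than `2` and than `N`. -/
def EigenIrred (d N : ℕ) (T : Submodule K A) (ρ : Γ →* (A ≃ₐ[K] A)) (σ : A →ₐ[K] A) : Prop :=
  ∀ c : K, c ^ d = 1 → c ≠ 1 → IrredAct ρ (eigenPart σ T c) ∧
    2 < Module.finrank K (eigenPart σ T c) ∧ N < Module.finrank K (eigenPart σ T c)

/-- The span of `δ`, `σ δ`, `σ (σ δ)`, ... -/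
def orbitSpan (σ : A →ₐ[K] A) (δ : A) : Submodule K A :=
  Submodule.span K (Set.range fun i : ℕ => σ^[i] δ)

/-- The Picard-Lefschetz formula of a cyclic covering: for some `δ ∈ T` the elements `δ`, `σ δ`,
..., `σ ^ (d - 2) δ` are linearly independent, `g δ = σ δ` or `g δ = -σ δ`, and `g a - a` is a
combination of `δ`, `σ δ`, ... for all `a ∈ T`. -/
def CyclicPL (d : ℕ) (T : Submodule K A) (ρ : Γ →* (A ≃ₐ[K] A)) (σ : A →ₐ[K] A) (g : Γ) :
    Prop :=
  ∃ δ ∈ T, LinearIndependent K (fun i : Fin (d - 1) => σ^[i] δ) ∧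
    (ρ g δ = σ δ ∨ ρ g δ = -σ δ) ∧ ∀ a ∈ T, ρ g a - a ∈ orbitSpan σ δ

/-- Formal properties of a cyclic covering of degree `d` with the automorphism `σ`, where `f` is the
pull-back and `p` the push-forward: `p 1 = d`, `f (p a)` is the sum of the `σ ^ i a`, `i < d`, and
`σ f = f`. -/
structure CoverAct (d : ℕ) (f : B →ₐ[K] A) (p : A →ₗ[K] B) (σ : A →ₐ[K] A) : Prop where
  push_one : p 1 = (d : K) • 1
  pull_push : ∀ a, f (p a) = ∑ i ∈ Finset.range d, σ^[i] a
  comp : ∀ b, σ (f b) = f b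

/-- The homomorphism `σ` satisfies `σ ^ d = 1`, is compatible with the trace and commutes with the
action of `Γ`. -/
structure DeckAct (d : ℕ) (tr : A →ₗ[K] K) (ρ : Γ →* (A ≃ₐ[K] A)) (σ : A →ₐ[K] A) : Prop where
  order : ∀ a, σ^[d] a = a
  trace : ∀ a, tr (σ a) = tr a
  commute : ∀ g a, ρ g (σ a) = σ (ρ g a)

/-- Formal properties of a cyclic covering `X ⟶ Y` of odd degree `d` with the automorphism `σ`,
where `A = H(X)`, `B = H(Y)`, `n = dim X` and `n' = dim Y`: `n = n'`; the action of `Γ` on `A` has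
the formal properties of a Galois action; the pull-back `f` and the push-forward `p` are
equivariant; `f`, `p` and `σ` are as in `CoverAct` and `DeckAct`; `K` contains a primitive root of
unity of order `d`; the vanishing cohomology `ker p` is in degree `n`. -/
structure CoveringAct (χ : Γ →* Kˣ) (d n n' : ℕ) (gr : ℕ → Submodule K A) (tr : A →ₗ[K] K)
    (S : ℕ → Set A) (f : B →ₐ[K] A) (p : A →ₗ[K] B) (ρ : Γ →* (A ≃ₐ[K] A))
    (ρ' : Γ →* (B ≃ₐ[K] B)) (σ : A →ₐ[K] A) : Prop where
  dim_eq : n = n'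
  galois : IsGaloisAct χ gr n tr S ρ
  equivariant : Intertwines f ρ' ρ
  push_act : ∀ g a, p (ρ g a) = ρ' g (p a)
  cover : CoverAct d f p σ
  deck : DeckAct d tr ρ σ
  odd : Odd d
  root : ∃ ζ : K, IsPrimitiveRoot ζ d
  middle : LinearMap.ker p ≤ gr n

end Alg

end Pool.Agent.N174.Cyc
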