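import Pool.Agent.N174.Cyc.Op
import Pool.Agent.N174.Lef.Step

/-!
# Equivariance, without irreducibility
-/

open CategoryTheory AlgebraicGeometry Finset Function TensorProduct

set_option linter.unusedSectionVars false

universe u v w x

namespace Pool.Agent.N174.Cyc

open Pool.Agent.H914 Pool.Agent.H914.VarClass Pool.Agent.H914.VarClass.Obj
  Pool.Agent.H914.WeilCohomology Pool.Agent.H281R3.HT Pool.Agent.W552 Pool.Agent.TH125.Gal
  Pool.Agent.N174.Lef

variable {k : Type u} [Field k] {𝒱 : VarClass k} {ops : CycleOps 𝒱}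
  {W : WeilCohomology.{u, v} ops} {X Y : 𝒱.Obj} {f : X ⟶ Y} {n D : ℕ}
  {Γ : Type w} [Group Γ] {M : Type x} [AddCommGroup M] [Module W.K M]

/-- the formal properties -/
structure Data0 (χ : Γ →* W.Kˣ) (f : X ⟶ Y) (ρ : Γ →* (W.H X ≃ₐ[W.K] W.H X))
    (ρY : Γ →* (W.H Y ≃ₐ[W.K] W.H Y)) (s : W.H X →ₗ[W.K] W.H Y) : Prop where
  gr_mem : ∀ g i, ∀ a ∈ W.gr X i, ρ g a ∈ W.gr X i
  tr_act : ∀ g a, W.tr X (ρ g a) = (χ g : W.K) ^ X.dim * W.tr X a
  equi : ∀ g a, ρ g (W.map f a) = W.map f (ρY g a)
  transfer : IsTransfer W f s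
  seq : ∃ Δ : Subgroup Γ, Δ.FiniteIndex ∧ ∀ g ∈ Δ, ∀ a, s (ρ g a) = ρY g (s a)
  middle : vanishing W f ≤ W.gr X X.dim

variable {χ : Γ →* W.Kˣ} {ρ : Γ →* (W.H X ≃ₐ[W.K] W.H X)} {ρY : Γ →* (W.H Y ≃ₐ[W.K] W.H Y)}
  {s : W.H X →ₗ[W.K] W.H Y}

theorem Data0.bil_act (h : Data0 χ f ρ ρY s) (g : Γ) (a b : W.H X) :
    bil W X (ρ g a) (ρ g b) = (χ g : W.K) ^ X.dim * bil W X a b := by
  rw [bil_apply, ← map_mul, h.tr_act, bil_apply]

theorem Data0.van_act (h : Data0 χ f ρ ρY s) (g : Γ) {a : W.H X} (ha : a ∈ vanishing W f) :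
    ρ g a ∈ vanishing W f := by
  change W.push f (ρ g a) = 0
  apply W.nondeg
  intro b
  have h1 : b = ρY g (ρY g⁻¹ b) := (act_inv ρY g b).symm
  rw [W.tr_push, h1, ← h.equi, ← map_mul, h.tr_act, ← bil_apply, van_map ha, mul_zero]

/-- the action on the vanishing cohomology -/
noncomputable def rhoV (h : Data0 χ f ρ ρY s) :
    Γ →* (vanishing W f →ₗ[W.K] vanishing W f) where
  toFun g := (ρ g).toLinearMap.restrict fun _ ht => h.van_act g ht
  map_one' := by
    apply LinearMap.ext
    intro t
    apply Subtype.ext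
    change ρ 1 (t : W.H X) = t
    rw [map_one]
    rfl
  map_mul' g g' := by
    apply LinearMap.ext
    intro t
    apply Subtype.ext
    change ρ (g * g') (t : W.H X) = ρ g (ρ g' (t : W.H X))
    rw [map_mul]
    rfl

theorem rhoV_apply (h : Data0 χ f ρ ρY s) (g : Γ) (t : vanishing W f) :
    (rhoV h g t : W.H X) = ρ g t := rfl

/-- equivariance of the operators -/
theorem opK_act (h : Data0 χ f ρ ρY s) {g : Γ} (hg : ∀ a, s (ρ g a) = ρY g (s a))
    (q : Fin (n + 1) → Option (Fin D)) (z : Free q → W.H X) :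
    tens (opK s q fun p => ρ g (z p)) ∘ₗ pact (ops := ops) ρ n g =
      ((χ g : W.K) ^ (X.dim * Fintype.card (Free q))) • (pact ρY n g ∘ₗ tens (opK s q z)) := by
  rw [pact, pact, tens_comp, tens_comp, pow_mul, ← prod_free q, ← tensML_apply, ← tensML_apply,
    ← MultilinearMap.map_smul_univ]
  congr 1
  funext p
  apply LinearMap.ext
  intro a
  by_cases hp : q p = none
  · rw [if_pos hp]
    change opK s q (fun p => ρ g (z p)) p (ρ g a) =
      (χ g : W.K) ^ X.dim • ρY g (opK s q z p a)
    rw [opK_none _ hp, opK_none _ hp, ct_apply, ct_apply, h.bil_act, map_smul, map_one, smul_smul]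
  · rw [if_neg hp]
    obtain ⟨i, hi⟩ := Option.ne_none_iff_exists'.1 hp
    change opK s q (fun p => ρ g (z p)) p (ρ g a) = (1 : W.K) • ρY g (opK s q z p a)
    rw [opK_some _ hi, opK_some _ hi, one_smul]
    change s (proj (W.isInternal X) i (ρ g a)) = ρY g (s (proj (W.isInternal X) i a))
    rw [proj_act h.gr_mem, hg]

/-- **Equivariance.** -/
theorem hK_eqv (h : Data0 χ f ρ ρY s) {τ : Γ →* (M →ₗ[W.K] M)} {μ : Γ →* W.Kˣ}
    {c : W.H (power ops X n) ⊗[W.K] M} {Δ : Subgroup Γ} (hΔ : Δ.FiniteIndex)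
    (hc : ∀ g ∈ Δ, TensorProduct.map (pact ρ n g) (τ g) c = (μ g : W.K) • c)
    (q : Fin (n + 1) → Option (Fin D)) :
    Eqv (rhoV h) (sig (lamq χ μ X q) ρY τ n) (hK f s q c) := by
  obtain ⟨Δ', hΔ', hs⟩ := h.seq
  refine ⟨Δ ⊓ Δ', inferInstance, fun g hg z => ?_⟩
  have h1 : c = (μ g : W.K)⁻¹ • TensorProduct.map (pact ρ n g) (τ g) c := by
    rw [hc g hg.1, smul_smul, inv_mul_cancel₀ (Units.ne_zero _), one_smul]
  have h2 : ∀ (A : W.H (power ops X n) →ₗ[W.K] W.H (power ops Y n)) (c : W.H (power ops X n) ⊗[W.K] M),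
      A.rTensor M (TensorProduct.map (pact ρ n g) (τ g) c) =
        TensorProduct.map (A ∘ₗ pact ρ n g) (τ g) c := by
    intro A c
    rw [LinearMap.rTensor, ← LinearMap.comp_apply, ← TensorProduct.map_comp, LinearMap.id_comp]
  rw [hK_apply, hK_apply, sig_apply, LinearMap.smul_apply, lamq_apply]
  conv_lhs => rw [h1]
  rw [map_smul, h2]
  have h3 := opK_act (ops := ops) h (hs g hg.2) q (fun p => (z p : W.H X))
  have h4 : (fun p => ((rhoV h g (z p) : vanishing W f) : W.H X)) =
      fun p => ρ g (z p : W.H X) := rfl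
  rw [h4, h3, TensorProduct.map_smul_left, LinearMap.smul_apply, smul_smul]
  congr 1
  rw [LinearMap.rTensor, ← LinearMap.comp_apply, ← TensorProduct.map_comp, LinearMap.comp_id]

/-- the diagonal is semi-invariant -/
theorem diag_act (h : Data0 χ f ρ ρY s) (g : Γ) :
    t2 (ρ g).toLinearMap (ρ g).toLinearMap (W.push (diag X) 1) =
      (χ g : W.K) ^ X.dim • W.push (diag X) 1 := by
  refine pair_ext fun x y => ?_
  have hx : x = ρ g (ρ g⁻¹ x) := (act_inv ρ g x).symm
  have hy : y = ρ g (ρ g⁻¹ y) := (act_inv ρ g y).symm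
  have h1 := t2_adj (A := (ρ g).toLinearMap) (B := (ρ g).toLinearMap) (A' := (ρ g).toLinearMap)
    (B' := (ρ g).toLinearMap) (fun i a ha => h.gr_mem g i a ha) (fun i a ha => h.gr_mem g i a ha)
    (fun a b => h.bil_act g a b) (fun a b => h.bil_act g a b) (W.push (diag X) 1)
    (ρ g⁻¹ x) (ρ g⁻¹ y)
  rw [diag_bil] at h1
  change bil W (X.prod X) (t2 (ρ g).toLinearMap (ρ g).toLinearMap (W.push (diag X) 1))
    (W.map (fst X X) (ρ g (ρ g⁻¹ x)) * W.map (snd X X) (ρ g (ρ g⁻¹ y))) = _ at h1
  rw [← hx, ← hy] at h1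
  rw [h1, map_smul, LinearMap.smul_apply, diag_bil, smul_eq_mul]
  have h2 := h.bil_act g (ρ g⁻¹ x) (ρ g⁻¹ y)
  rw [← hx, ← hy] at h2
  rw [h2]
  ring

/-- **The decomposition of the diagonal.** -/
theorem diag_split (h : Data0 χ f ρ ρY s) : W.push (diag X) 1 =
    t2 (piC f s) (piC f s) (W.push (diag X) 1) + t2 (piE f s) (piE f s) (W.push (diag X) 1) := by
  have hC : ∀ x y, bil W (X.prod X) (t2 (piC f s) (piC f s) (W.push (diag X) 1))
      (W.map (fst X X) x * W.map (snd X X) y) = bil W X (piC f s x) (piC f s y) := by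
    intro x y
    rw [← diag_bil (piC f s x)]
    have key : ∀ z, bil W (X.prod X) (t2 (piC f s) (piC f s) z)
        (W.map (fst X X) x * W.map (snd X X) y) =
        bil W (X.prod X) z (W.map (fst X X) (piC f s x) * W.map (snd X X) (piC f s y)) := by
      intro z
      refine gr_induction (W.isInternal X) (p := fun x => bil W (X.prod X)
        (t2 (piC f s) (piC f s) z) (W.map (fst X X) x * W.map (snd X X) y) =
        bil W (X.prod X) z (W.map (fst X X) (piC f s x) * W.map (snd X X) (piC f s y))) ?_ ?_ x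
      · intro l x hx
        refine W.kunneth_induction (p := fun z => bil W (X.prod X) (t2 (piC f s) (piC f s) z)
          (W.map (fst X X) x * W.map (snd X X) y) =
          bil W (X.prod X) z (W.map (fst X X) (piC f s x) * W.map (snd X X) (piC f s y))) ?_ ?_ z
        · intro a b ha hb
          rw [map_add, map_add, map_add, LinearMap.add_apply, LinearMap.add_apply, ha, hb]
        · intro i j a _ b hb
          rw [t2_apply, pair_hom _ (piC_grd h.transfer _ _ hb) hx,
            pair_hom _ hb (piC_grd h.transfer _ _ hx), bil_piC h.transfer h.middle,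
            bil_piC h.transfer h.middle]
      · intro a b ha hb
        rw [map_add, add_mul, map_add, ha, hb, map_add, map_add, add_mul, map_add]
    exact key _
  have hE : ∀ x y, bil W (X.prod X) (t2 (piE f s) (piE f s) (W.push (diag X) 1))
      (W.map (fst X X) x * W.map (snd X X) y) = bil W X (piE f s x) (piE f s y) := by
    intro x y
    rw [← diag_bil (piE f s x)]
    have key : ∀ z, bil W (X.prod X) (t2 (piE f s) (piE f s) z)
        (W.map (fst X X) x * W.map (snd X X) y) =
        bil W (X.prod X) z (W.map (fst X X) (piE f s x) * W.map (snd X X) (piE f s y)) := by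
      intro z
      refine gr_induction (W.isInternal X) (p := fun x => bil W (X.prod X)
        (t2 (piE f s) (piE f s) z) (W.map (fst X X) x * W.map (snd X X) y) =
        bil W (X.prod X) z (W.map (fst X X) (piE f s x) * W.map (snd X X) (piE f s y))) ?_ ?_ x
      · intro l x hx
        refine W.kunneth_induction (p := fun z => bil W (X.prod X) (t2 (piE f s) (piE f s) z)
          (W.map (fst X X) x * W.map (snd X X) y) =
          bil W (X.prod X) z (W.map (fst X X) (piE f s x) * W.map (snd X X) (piE f s y))) ?_ ?_ z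
        · intro a b ha hb
          rw [map_add, map_add, map_add, LinearMap.add_apply, LinearMap.add_apply, ha, hb]
        · intro i j a _ b hb
          rw [t2_apply, pair_hom _ (piE_grd h.transfer _ _ hb) hx,
            pair_hom _ hb (piE_grd h.transfer _ _ hx), bil_piE h.transfer h.middle,
            bil_piE h.transfer h.middle]
      · intro a b ha hb
        rw [map_add, add_mul, map_add, ha, hb, map_add, map_add, add_mul, map_add]
    exact key _
  refine pair_ext fun x y => ?_
  rw [map_add, LinearMap.add_apply, hC, hE, diag_bil]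
  have hx : x = piC f s x + piE f s x := by rw [piE_apply, piC_apply]; abel
  have hy : y = piC f s y + piE f s y := by rw [piE_apply, piC_apply]; abel
  conv_lhs => rw [hx, hy]
  have c1 : bil W X (piC f s x) (piE f s y) = 0 := map_van h.middle (piE_mem h.transfer y) _
  have c2 : bil W X (piE f s x) (piC f s y) = 0 := van_map (piE_mem h.transfer x) _
  rw [map_add, map_add, LinearMap.add_apply, LinearMap.add_apply, c1, c2]
  ring

/-- the class of the Gram matrix and the vanishing part of the diagonal -/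
theorem dQ_eq (h : Data0 χ f ρ ρY s) (v : VB W f) :
    dQ v = (-1 : W.K) ^ X.dim • t2 (piE f s) (piE f s) (W.push (diag X) 1) := by
  have hsum : dQ v = ∑ i, ∑ j, bil W X (v.u i) (v.u j) •
      (W.map (fst X X) (v.t i : W.H X) * W.map (snd X X) (v.t j : W.H X)) := by
    have h2 := Fintype.sum_equiv (finTwoArrowEquiv (Fin v.N))
      (fun a : Fin 2 → Fin v.N => bil W X (v.u (a 0)) (v.u (a 1)) •
        (W.map (fst X X) (v.t (a 0) : W.H X) * W.map (snd X X) (v.t (a 1) : W.H X)))
      (fun a => bil W X (v.u a.1) (v.u a.2) •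
        (W.map (fst X X) (v.t a.1 : W.H X) * W.map (snd X X) (v.t a.2 : W.H X)))
      (fun a => rfl)
    rw [Fintype.sum_prod_type] at h2
    exact h2
  have hE : ∀ x y, bil W (X.prod X) (t2 (piE f s) (piE f s) (W.push (diag X) 1))
      (W.map (fst X X) x * W.map (snd X X) y) = bil W X (piE f s x) (piE f s y) := by
    intro x y
    rw [← diag_bil (piE f s x)]
    generalize W.push (diag X) 1 = z
    refine gr_induction (W.isInternal X) (p := fun x => bil W (X.prod X)
      (t2 (piE f s) (piE f s) z) (W.map (fst X X) x * W.map (snd X X) y) =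
      bil W (X.prod X) z (W.map (fst X X) (piE f s x) * W.map (snd X X) (piE f s y))) ?_ ?_ x
    · intro l x hx
      refine W.kunneth_induction (p := fun z => bil W (X.prod X) (t2 (piE f s) (piE f s) z)
        (W.map (fst X X) x * W.map (snd X X) y) =
        bil W (X.prod X) z (W.map (fst X X) (piE f s x) * W.map (snd X X) (piE f s y))) ?_ ?_ z
      · intro a b ha hb
        rw [map_add, map_add, map_add, LinearMap.add_apply, LinearMap.add_apply, ha, hb]
      · intro i j a _ b hb
        rw [t2_apply, pair_hom _ (piE_grd h.transfer _ _ hb) hx,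
          pair_hom _ hb (piE_grd h.transfer _ _ hx), bil_piE h.transfer h.middle,
          bil_piE h.transfer h.middle]
    · intro a b ha hb
      rw [map_add, add_mul, map_add, ha, hb, map_add, map_add, add_mul, map_add]
  have hneg : (-1 : W.K) ^ X.dim * (-1 : W.K) ^ X.dim = 1 := by
    rw [← mul_pow]
    norm_num
  -- expansion of the projection
  have hexp : ∀ x, piE f s x = ∑ i, ((-1 : W.K) ^ X.dim * bil W X (v.t i) x) •
      (v.u i : W.H X) := by
    intro x
    conv_lhs => rw [expand_u v (piE_mem h.transfer x)]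
    refine Finset.sum_congr rfl fun i _ => ?_
    rw [van_symm h.middle (piE_mem h.transfer x) (v.t i).2, ← bil_piE h.transfer h.middle,
      piE_of_mem h.transfer (v.t i).2]
  refine pair_ext fun x y => ?_
  rw [map_smul, LinearMap.smul_apply, hE, smul_eq_mul]
  have h1 : bil W X (piE f s x) (piE f s y) = ∑ i, ∑ j, bil W X (v.u i) (v.u j) *
      (bil W X (v.t i) x * bil W X (v.t j) y) := by
    conv_lhs => rw [hexp x, hexp y]
    rw [LinearMap.map_sum₂]
    refine Finset.sum_congr rfl fun i _ => ?_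
    rw [LinearMap.map_smul₂, map_sum, smul_eq_mul, Finset.mul_sum]
    refine Finset.sum_congr rfl fun j _ => ?_
    rw [map_smul, smul_eq_mul]
    linear_combination (bil W X (v.t i) x * bil W X (v.t j) y * bil W X (v.u i) (v.u j)) * hneg
  rw [h1, hsum, map_sum, LinearMap.sum_apply, Finset.mul_sum]
  refine Finset.sum_congr rfl fun i _ => ?_
  rw [map_sum, LinearMap.sum_apply, Finset.mul_sum]
  refine Finset.sum_congr rfl fun j _ => ?_
  rw [map_smul, LinearMap.smul_apply, smul_eq_mul]
  have h2 : bil W (X.prod X) (W.map (fst X X) (v.t i : W.H X) * W.map (snd X X) (v.t j : W.H X))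
      (W.map (fst X X) x * W.map (snd X X) y) =
      (-1 : W.K) ^ X.dim * (bil W X (v.t i) x * bil W X (v.t j) y) := by
    refine gr_induction (W.isInternal X) (p := fun x => bil W (X.prod X)
      (W.map (fst X X) (v.t i : W.H X) * W.map (snd X X) (v.t j : W.H X))
      (W.map (fst X X) x * W.map (snd X X) y) =
      (-1 : W.K) ^ X.dim * (bil W X (v.t i) x * bil W X (v.t j) y)) ?_ ?_ x
    · intro l x hx
      rw [pair_hom _ (h.middle (v.t j).2) hx]
      by_cases hl : l = X.dim
      · subst hl
        congr 1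
        rcases Nat.even_or_odd X.dim with h | h
        · rw [h.neg_one_pow, (h.mul_left _).neg_one_pow]
        · rw [h.neg_one_pow, (h.mul h).neg_one_pow]
      · rw [bil_eq_zero (h.middle (v.t i).2) hx (by omega)]
        ring
    · intro a b ha hb
      rw [map_add, add_mul, map_add, ha, hb, map_add]
      ring
  rw [h2]
  ring

end Pool.Agent.N174.Cyc
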