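import Pool.Agent.N174.Cyc.Core

/-!
# The Tate conjecture for cyclic coverings
-/

open CategoryTheory AlgebraicGeometry Finset Function TensorProduct

set_option linter.unusedSectionVars false

universe u v w x

namespace Pool.Agent.N174.Cyc

open Pool.Agent.H914 Pool.Agent.H914.VarClass Pool.Agent.H914.VarClass.Obj
  Pool.Agent.H914.WeilCohomology Pool.Agent.H281R3.HT Pool.Agent.W552 Pool.Agent.TH125.Gal
  Pool.Agent.N174.Lef

variable {k : Type u} [Field k] {𝒱 : VarClass k} {ops : CycleOps 𝒱}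
  {W : WeilCohomology.{u, v} ops} {X Y Z : 𝒱.Obj} {f : X ⟶ Y} {n : ℕ}
  {Γ : Type w} [Group Γ]
  {χ : Γ →* W.Kˣ} {ρ : Γ →* (W.H X ≃ₐ[W.K] W.H X)} {ρY : Γ →* (W.H Y ≃ₐ[W.K] W.H Y)}
  {τ : Γ →* (W.H Z ≃ₐ[W.K] W.H Z)}
  {s : W.H X →ₗ[W.K] W.H Y} {σ : X ⟶ X} {D' : ℕ} {ζ : W.K}

section gram

variable (v : VB W f)

theorem dQA_sum (A : vanishing W f →ₗ[W.K] vanishing W f) : dQA v A = ∑ i, ∑ j,
    bil W X (A (v.u i) : W.H X) (v.u j) •
      (W.map (fst X X) (v.t i : W.H X) * W.map (snd X X) (v.t j : W.H X)) := by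
  have h2 := Fintype.sum_equiv (finTwoArrowEquiv (Fin v.N))
    (fun a : Fin 2 → Fin v.N => bil W X (A (v.u (a 0)) : W.H X) (v.u (a 1)) •
      (W.map (fst X X) (v.t (a 0) : W.H X) * W.map (snd X X) (v.t (a 1) : W.H X)))
    (fun a => bil W X (A (v.u a.1) : W.H X) (v.u a.2) •
      (W.map (fst X X) (v.t a.1 : W.H X) * W.map (snd X X) (v.t a.2 : W.H X)))
    (fun a => rfl)
  rw [Fintype.sum_prod_type] at h2
  exact h2

theorem dQ_sum : dQ v = ∑ i, ∑ j, bil W X (v.u i : W.H X) (v.u j) •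
      (W.map (fst X X) (v.t i : W.H X) * W.map (snd X X) (v.t j : W.H X)) :=
  dQA_sum v LinearMap.id

theorem gram_col (z : W.H X → W.H X) (c : Fin v.N → Fin v.N → W.K) :
    ∑ i, ∑ j, c i j • (W.map (fst X X) (z (v.t i)) * W.map (snd X X) (v.t j : W.H X)) =
      ∑ j, W.map (fst X X) (∑ i, c i j • z (v.t i)) * W.map (snd X X) (v.t j : W.H X) := by
  rw [Finset.sum_comm]
  refine Finset.sum_congr rfl fun j _ => ?_
  rw [map_sum, Finset.sum_mul]
  refine Finset.sum_congr rfl fun i _ => ?_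
  rw [map_smul, smul_mul_assoc]

/-- the twisted class from the class of the form -/
theorem dQA_eq {A : vanishing W f →ₗ[W.K] vanishing W f} {A' : W.H X →ₗ[W.K] W.H X}
    (hA' : ∀ b ∈ vanishing W f, A' b ∈ vanishing W f)
    (hadj : ∀ a b : vanishing W f, bil W X (A a : W.H X) b = bil W X a (A' b)) :
    dQA v A = t2 A' LinearMap.id (dQ v) := by
  have h1 : t2 A' LinearMap.id (dQ v) = ∑ i, ∑ j, bil W X (v.u i : W.H X) (v.u j) •
      (W.map (fst X X) (A' (v.t i)) * W.map (snd X X) (v.t j : W.H X)) := by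
    rw [dQ_sum, map_sum]
    refine Finset.sum_congr rfl fun i _ => ?_
    rw [map_sum]
    refine Finset.sum_congr rfl fun j _ => ?_
    rw [map_smul, t2_apply]
    rfl
  rw [h1, dQA_sum, gram_col v (fun x => x) fun i j => bil W X (A (v.u i) : W.H X) (v.u j),
    gram_col v (fun x => A' x) fun i j => bil W X (v.u i : W.H X) (v.u j)]
  refine Finset.sum_congr rfl fun j _ => ?_
  congr 2
  have h2 : ∑ i, bil W X (A (v.u i) : W.H X) (v.u j) • (v.t i : W.H X) = A' (v.u j) := by
    rw [expand_t v (hA' _ (v.u j).2)]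
    exact Finset.sum_congr rfl fun i _ => by rw [hadj]
  have h3 : ∑ i, bil W X (v.u i : W.H X) (v.u j) • A' (v.t i) = A' (v.u j) := by
    conv_rhs => rw [expand_t v (v.u j).2]
    rw [map_sum]
    exact Finset.sum_congr rfl fun i _ => by rw [map_smul]
  exact h2.trans h3.symm

/-- the twisted class as a linear map -/
noncomputable def dQAl : (vanishing W f →ₗ[W.K] vanishing W f) →ₗ[W.K] W.H (X.prod X) where
  toFun := dQA v
  map_add' A A' := by
    rw [dQA, dQA, dQA, ← Finset.sum_add_distrib]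
    refine Finset.sum_congr rfl fun a _ => ?_
    rw [LinearMap.add_apply, Submodule.coe_add, map_add, LinearMap.add_apply, add_smul]
  map_smul' r A := by
    rw [dQA, dQA, RingHom.id_apply, Finset.smul_sum]
    refine Finset.sum_congr rfl fun a _ => ?_
    rw [LinearMap.smul_apply, Submodule.coe_smul, map_smul, LinearMap.smul_apply, smul_eq_mul,
      smul_smul]

theorem dQAl_apply (A : vanishing W f →ₗ[W.K] vanishing W f) : dQAl v A = dQA v A := rfl

theorem dQA_mem_gr (hmid : vanishing W f ≤ W.gr X X.dim)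
    (A : vanishing W f →ₗ[W.K] vanishing W f) : dQA v A ∈ W.gr (X.prod X) (2 * X.dim) := by
  rw [dQA]
  refine Submodule.sum_mem _ fun a _ => Submodule.smul_mem _ _ ?_
  rw [two_mul]
  exact W.mul_mem (W.map_mem _ (hmid (v.t _).2)) (W.map_mem _ (hmid (v.t _).2))

theorem mtchA_mem (hmid : vanishing W f ≤ W.gr X X.dim) {D m : ℕ}
    {q : Fin (n + 1) → Option (Fin D)} (A : Fin m → (vanishing W f →ₗ[W.K] vanishing W f))
    (e : Fin m × Fin 2 ≃ Free q) :
    mtchA (ops := ops) v A e ∈ W.gr (power ops X n) (2 * (X.dim * m)) := by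
  have h1 : ∀ L : List (Fin m), (L.map fun l => W.map (Obj.lift (powerPrj ops X n (e (l, 0)).1)
      (powerPrj ops X n (e (l, 1)).1)) (dQA v (A l))).prod ∈
        W.gr (power ops X n) (2 * (X.dim * L.length)) := by
    intro L
    induction L with
    | nil => exact W.one_mem _
    | cons l L ih =>
      rw [List.map_cons, List.prod_cons, List.length_cons]
      have h2 : 2 * (X.dim * (L.length + 1)) = 2 * X.dim + 2 * (X.dim * L.length) := by ring
      rw [h2]
      exact W.mul_mem (W.map_mem _ (dQA_mem_gr v hmid _)) ih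
  have h2 := h1 (List.finRange m)
  rw [List.length_finRange] at h2
  rw [mtchA, List.ofFn_eq_map]
  exact h2

/-- the classes in the formula as classes on the product -/
theorem kEquiv_mextA {D m : ℕ} {q : Fin (n + 1) → Option (Fin D)}
    (A : Fin m → (vanishing W f →ₗ[W.K] vanishing W f))
    (e : Fin m × Fin 2 ≃ Free q) (z : W.H (power ops Y n) ⊗[W.K] W.H Z) :
    kEquiv W _ Z ((mextA (ops := ops) v A e).rTensor (W.H Z) z) =
      W.map (fst (power ops X n) Z) (mtchA v A e) *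
        W.map (pmap (powerMap ops f n) (𝟙 Z)) (kEquiv W _ Z z) := by
  induction z using TensorProduct.induction_on with
  | zero => rw [map_zero, map_zero, map_zero, map_zero, mul_zero]
  | tmul a b =>
    rw [LinearMap.rTensor_tmul, kEquiv_tmul, kEquiv_tmul, map_mul, ← W.map_comp, ← W.map_comp,
      pmap, Obj.lift_fst, Obj.lift_snd, Category.comp_id, W.map_comp, ← mul_assoc, ← map_mul]
    rfl
  | add a b ha hb => rw [map_add, map_add, map_add, map_add, mul_add, ha, hb]

end gram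

section deck

/-- the iterates -/
def itr (σ : X ⟶ X) : ℕ → (X ⟶ X)
  | 0 => 𝟙 X
  | i + 1 => itr σ i ≫ σ

theorem map_itr (σ : X ⟶ X) (i : ℕ) (a : W.H X) : W.map (itr σ i) a = ((W.map σ) ^ i) a := by
  induction i generalizing a with
  | zero => exact W.map_id X a
  | succ i ih =>
    rw [itr, W.map_comp, ih, pow_succ]
    rfl

theorem bil_pow (hk : Dk f ρ D' ζ σ) (i : ℕ) (a b : W.H X) :
    bil W X (((W.map σ) ^ i) a) (((W.map σ) ^ i) b) = bil W X a b := by
  induction i with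
  | zero => rfl
  | succ i ih =>
    rw [pow_succ']
    change bil W X (W.map σ (((W.map σ) ^ i) a)) (W.map σ (((W.map σ) ^ i) b)) = _
    rw [bil_sig hk, ih]

theorem pow_ord (hk : Dk f ρ D' ζ σ) (i : ℕ) (a : W.H X) :
    ((W.map σ) ^ ((D' + 1) * i)) a = a := by
  induction i with
  | zero => rfl
  | succ i ih =>
    rw [Nat.mul_succ, pow_add]
    change ((W.map σ) ^ ((D' + 1) * i)) (((W.map σ) ^ (D' + 1)) a) = a
    rw [hk.cyc.order, ih]

theorem pow_adj (hk : Dk f ρ D' ζ σ) (i : ℕ) (a b : W.H X) :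
    bil W X (((W.map σ) ^ i) a) b = bil W X a (((W.map σ) ^ (D' * i)) b) := by
  have h1 : b = ((W.map σ) ^ i) (((W.map σ) ^ (D' * i)) b) := by
    have h2 := pow_ord hk i b
    rw [Nat.succ_mul, add_comm, pow_add] at h2
    exact h2.symm
  conv_lhs => rw [h1]
  rw [bil_pow hk]

theorem van_pow (hk : Dk f ρ D' ζ σ) (i : ℕ) {a : W.H X} (ha : a ∈ vanishing W f) :
    ((W.map σ) ^ i) a ∈ vanishing W f := by
  induction i with
  | zero => exact ha
  | succ i ih =>
    rw [pow_succ']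
    exact van_sig hk ih

theorem ovr_pow (hk : Dk f ρ D' ζ σ) (i : ℕ) (b : W.H Y) :
    ((W.map σ) ^ i) (W.map f b) = W.map f b := by
  induction i with
  | zero => rfl
  | succ i ih =>
    rw [pow_succ']
    change W.map σ (((W.map σ) ^ i) (W.map f b)) = _
    rw [ih, hk.ovr]

/-- the class of a power of the automorphism -/
theorem dQA_pow (h : Data0 χ f ρ ρY s) (hk : Dk f ρ D' ζ σ) (v : VB W f) (i : ℕ) :
    dQA v ((sigE hk) ^ i) = (-1 : W.K) ^ X.dim •
      (W.map (pmap (itr σ (D' * i)) (𝟙 X)) (W.push (diag X) 1) -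
      t2 (W.map f).toLinearMap (W.map f).toLinearMap (t2 s s (W.push (diag X) 1))) := by
  have h5 : dQ v = (-1 : W.K) ^ X.dim • (W.push (diag X) 1 -
      t2 (W.map f).toLinearMap (W.map f).toLinearMap (t2 s s (W.push (diag X) 1))) := by
    rw [dQ_eq h v, t2_t2]
    congr 1
    rw [eq_sub_iff_add_eq, add_comm]
    exact (diag_split h).symm
  rw [dQA_eq v (A' := (W.map (itr σ (D' * i))).toLinearMap) (fun b hb => by
      change W.map (itr σ (D' * i)) b ∈ vanishing W f
      rw [map_itr]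
      exact van_pow hk _ hb) (fun a b => by
      rw [sigE_pow, pow_adj hk, ← map_itr]
      rfl), h5, map_smul, map_sub, t2_t2]
  congr 2
  · rw [map_pmap]
    congr 1
    have h6 : (W.map (𝟙 X)).toLinearMap = LinearMap.id := by
      apply LinearMap.ext
      intro a
      exact W.map_id X a
    rw [h6]
  · have h6 : (W.map (itr σ (D' * i))).toLinearMap ∘ₗ (W.map f).toLinearMap =
        (W.map f).toLinearMap := by
      apply LinearMap.ext
      intro b
      change W.map (itr σ (D' * i)) (W.map f b) = W.map f b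
      rw [map_itr, ovr_pow hk]
    rw [h6, LinearMap.id_comp]

/-- The pull-backs of the twisted classes are algebraic. -/
theorem dQA_prj2 (h : Data0 χ f ρ ρY s) (hk : Dk f ρ D' ζ σ) (v : VB W f)
    (hgY : ∀ g i, ∀ a ∈ W.gr Y i, ρY g a ∈ W.gr Y i) (hT : TP χ ρY n τ) (p p' : Fin (n + 1))
    (i : ℕ) :
    W.map (prj2 ops X Z n p p') (dQA v ((sigE hk) ^ i)) ∈
      algSpan W ((power ops X n).prod Z) := by
  have hd : W.push (diag X) 1 ∈ algClasses W (X.prod X) X.dim := by
    refine alg_push (diag X) (i := X.dim) alg_one ?_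
    rw [dim_prod]
    omega
  have hg : t2 s s (W.push (diag X) 1) ∈ W.gr (Y.prod Y) (2 * X.dim) :=
    t2_gr (fun i a ha => h.transfer.gr_mem i a ha) (fun i a ha => h.transfer.gr_mem i a ha) _ _
      (alg_gr hd)
  have h1 : W.map (prj2 ops Y Z n p p') (t2 s s (W.push (diag X) 1)) ∈
      algSpan W ((power ops Y n).prod Z) := by
    refine hT _ _ (W.map_mem _ hg) ?_
    obtain ⟨Δ, hΔ, hs⟩ := h.seq
    refine ⟨Δ, hΔ, fun g hg => ?_⟩
    have h2 : (ρY g).toLinearMap ∘ₗ s = s ∘ₗ (ρ g).toLinearMap := by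
      apply LinearMap.ext
      intro a
      exact (hs g hg a).symm
    rw [prj2_act hgY, t2_t2, h2, ← t2_t2, diag_act h, map_smul, map_smul]
  rw [dQA_pow h hk, map_smul, map_sub, pmap_prj2]
  exact Submodule.smul_mem _ _ (Submodule.sub_mem _
    (algSpan_map _ (algSpan_map _ (alg_mem hd))) (algSpan_map _ h1))

theorem dQA_pr (hk : Dk f ρ D' ζ σ) (v : VB W f) (i : Fin D') : dQA v (pr hk i) =
    ((D' + 1 : ℕ) : W.K)⁻¹ • ∑ a ∈ range (D' + 1), ((evl ζ i)⁻¹) ^ a •
      dQA v ((sigE hk) ^ a) := by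
  rw [← dQAl_apply, pr, eip, map_smul, map_sum]
  congr 1
  refine Finset.sum_congr rfl fun a _ => ?_
  rw [map_smul, dQAl_apply]

theorem dQA_pr_prj2 (h : Data0 χ f ρ ρY s) (hk : Dk f ρ D' ζ σ) (v : VB W f)
    (hgY : ∀ g i, ∀ a ∈ W.gr Y i, ρY g a ∈ W.gr Y i) (hT : TP χ ρY n τ) (p p' : Fin (n + 1))
    (i : Fin D') : W.map (prj2 ops X Z n p p') (dQA v (pr hk i)) ∈
      algSpan W ((power ops X n).prod Z) := by
  rw [dQA_pr, map_smul, map_sum]
  refine Submodule.smul_mem _ _ (Submodule.sum_mem _ fun a _ => ?_)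
  rw [map_smul]
  exact Submodule.smul_mem _ _ (dQA_prj2 h hk v hgY hT p p' a)

theorem mtchA_alg' (h : Data0 χ f ρ ρY s) (hk : Dk f ρ D' ζ σ) (v : VB W f)
    (hgY : ∀ g i, ∀ a ∈ W.gr Y i, ρY g a ∈ W.gr Y i) (hT : TP χ ρY n τ) {D m : ℕ}
    {q : Fin (n + 1) → Option (Fin D)} (ι : Fin m → Fin D') (e : Fin m × Fin 2 ≃ Free q) :
    W.map (fst (power ops X n) Z) (mtchA (ops := ops) v (fun a => pr hk (ι a)) e) ∈
      algSpan W ((power ops X n).prod Z) := by
  rw [mtchA, List.ofFn_eq_map]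
  generalize List.finRange m = L
  induction L with
  | nil =>
    rw [List.map_nil, List.prod_nil, map_one]
    exact algSpan_one
  | cons l L ih =>
    rw [List.map_cons, List.prod_cons, map_mul]
    refine algSpan_mul ?_ ih
    rw [← W.map_comp]
    exact dQA_pr_prj2 h hk v hgY hT _ _ _

/-- **The inductive step.** -/
theorem TP_stepC (hFR : FewRootsOfUnity W.K) (h : Data0 χ f ρ ρY s) (hk : Dk f ρ D' ζ σ)
    (hgY : ∀ g i, ∀ a ∈ W.gr Y i, ρY g a ∈ W.gr Y i)
    (hgZ : ∀ g i, ∀ a ∈ W.gr Z i, τ g a ∈ W.gr Z i)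
    {g₀ : Γ} (hχ : χ g₀ = 1) (hY : ρY g₀ = 1) (hτ : τ g₀ = 1)
    (hPL : CyclicPLp (D' + 1) (vanishing W f) ρ (W.map σ) g₀)
    (hI : EigenIrred (D' + 1) (n + 1) (vanishing W f) ρ (W.map σ))
    (hT : TP χ ρY n τ) : TP χ ρ n τ := by
  obtain ⟨v⟩ := exists_VB h.transfer
  intro j c hcj ⟨Δ, hΔ, hc⟩
  set c' := (kEquiv W (power ops X n) Z).symm c with hc'
  have hcc : kEquiv W (power ops X n) Z c' = c := LinearEquiv.apply_symm_apply _ _
  have hc1 : ∀ g ∈ Δ, TensorProduct.map (pact ρ n g) (lact τ g) c' =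
      (((χ ^ j) g : W.Kˣ) : W.K) • c' := by
    intro g hg
    apply (kEquiv W (power ops X n) Z).injective
    have h1 : t2 (pact ρ n g) (lact τ g) c = kEquiv W (power ops X n) Z
      (TensorProduct.map (pact ρ n g) (lact τ g) c') := rfl
    rw [← h1, hc g hg, map_smul, hcc]
    simp
  have hcore := fun q => core_c (D := 2 * X.dim + 1) hFR h hk v (τ := lact τ) (μ := χ ^ j) hχ
    (by rw [MonoidHom.pow_apply, hχ, one_pow]) hY
    (by rw [lact_apply, hτ]; rfl) hPL hI hΔ hc1 q
  have hsum : c' = ∑ q : Fin (n + 1) → Option (Fin (2 * X.dim + 1)),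
      (tens (piq f s q)).rTensor (W.H Z) c' := by
    have h1 := congrArg (fun A => LinearMap.rTensorHom (W.H Z) A c')
      (sum_piq (ops := ops) (n := n) (f := f) s)
    beta_reduce at h1
    rw [map_sum, LinearMap.sum_apply] at h1
    simp only [LinearMap.coe_rTensorHom, LinearMap.rTensor_id, LinearMap.id_apply] at h1
    exact h1.symm
  -- the terms
  have hterm : ∀ q : Fin (n + 1) → Option (Fin (2 * X.dim + 1)),
      proj (W.isInternal ((power ops X n).prod Z)) (2 * j)
        (kEquiv W (power ops X n) Z ((tens (piq f s q)).rTensor (W.H Z) c')) ∈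
          algSpan W ((power ops X n).prod Z) := by
    intro q
    obtain ⟨L, m, e, ι, ε, z, hz, -, hq⟩ := hcore q
    rw [hq, map_sum, map_sum]
    refine Submodule.sum_mem _ fun l _ => ?_
    rw [map_smul, map_smul]
    refine Submodule.smul_mem _ _ ?_
    rw [kEquiv_mextA, proj_mul (W.map_mem _ (mtchA_mem v h.middle _ (e l))), map_proj]
    by_cases hl : 2 * (X.dim * m l) ≤ 2 * j
    · rw [if_pos hl]
      refine algSpan_mul (mtchA_alg' h hk v hgY hT (ι l) (e l)) (algSpan_map _ ?_)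
      have hle : X.dim * m l ≤ j := by omega
      have h2 : 2 * j - 2 * (X.dim * m l) = 2 * (j - X.dim * m l) := by omega
      rw [h2]
      refine hT (j - X.dim * m l) _ (proj_mem _ _ _) ?_
      obtain ⟨Δ', hΔ', hz'⟩ := hz l
      refine ⟨Δ', hΔ', fun g hg => ?_⟩
      have h4 : t2 (pact ρY n g) (lact τ g) (kEquiv W (power ops Y n) Z (z l)) =
          (χ g : W.K) ^ (j - X.dim * m l) • kEquiv W (power ops Y n) Z (z l) := by
        change kEquiv W (power ops Y n) Z (TensorProduct.map (pact ρY n g) (lact τ g)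
          ((kEquiv W (power ops Y n) Z).symm (kEquiv W (power ops Y n) Z (z l)))) = _
        rw [LinearEquiv.symm_apply_apply, hz' g hg, map_smul]
        congr 1
        have hχ0 : (χ g : W.K) ≠ 0 := Units.ne_zero _
        rw [MonoidHom.pow_apply, Units.val_pow_eq_pow_val, ← pow_sub₀ _ hχ0 hle]
      rw [← t2_proj (pact_gr hgY g) fun i a ha => hgZ g i a ha, h4, map_smul]
    · rw [if_neg hl]
      exact Submodule.zero_mem _
  rw [← proj_same (W.isInternal _) hcj, ← hcc, hsum, map_sum, map_sum]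
  exact Submodule.sum_mem _ fun q _ => hterm q

end deck

end Pool.Agent.N174.Cyc
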