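import Pool.Agent.N174.Cyc.Inf

/-!
# Operators of rank one from complex reflections
-/

open Finset Function

set_option linter.unusedSectionVars false

namespace Pool.Agent.N174.Cyc

open Pool.Agent.TH125.Gal

universe u v w x

section weights

variable {K : Type u} [Field K] [CharZero K] {T : Type v} [AddCommGroup T] [Module K T]
  {G : Type x} [Group G] {ρ : G →* (T →ₗ[K] T)} {U : Submodule K T} [FiniteDimensional K T]

omit [FiniteDimensional K T] in
theorem rho_ne (γ : G) {d : T} (hd : d ≠ 0) : ρ γ d ≠ 0 := by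
  intro h
  apply hd
  rw [← rho_inv' ρ γ d, h, map_zero]

/-- Among the vectors `ρ g d` finitely many give all common eigenvalues. -/
theorem finite_weights (L : Submodule K (T →ₗ[K] T)) {d : T} (hd0 : d ≠ 0)
    (heig : ∀ g : G, ∀ Y ∈ L, ∃ a : K, Y (ρ g d) = a • ρ g d) :
    ∃ (F : Type v) (_ : Finite F) (f : G → F), ∀ g g', f g = f g' → ∀ Y ∈ L, ∀ a : K,
      Y (ρ g d) = a • ρ g d → Y (ρ g' d) = a • ρ g' d := by
  classical
  let S : Set T := Set.range (fun g : G => ρ g d)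
  obtain ⟨b, hbS, hspan, hli⟩ := exists_linearIndependent K S
  have hfin : Finite b := hli.finite
  have := Fintype.ofFinite b
  have key : ∀ g : G, ∃ x : b, ∀ Y ∈ L, ∀ a : K, Y (x : T) = a • (x : T) ↔
      Y (ρ g d) = a • ρ g d := by
    intro g
    have h1 : ρ g d ∈ Submodule.span K (Set.range (Subtype.val : b → T)) := by
      rw [Subtype.range_coe, hspan]
      exact Submodule.subset_span ⟨g, rfl⟩
    obtain ⟨c, hc⟩ := (Submodule.mem_span_range_iff_exists_fun K).1 h1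
    obtain ⟨x, hx⟩ : ∃ x, c x ≠ 0 := by
      by_contra hcon
      push Not at hcon
      have h2 : ρ g d = 0 := by
        rw [← hc]
        exact Finset.sum_eq_zero fun x _ => by rw [hcon x, zero_smul]
      exact rho_ne g hd0 h2
    refine ⟨x, fun Y hY a => ?_⟩
    have hx1 : ∀ y : b, ∃ a : K, Y (y : T) = a • (y : T) := by
      intro y
      obtain ⟨g', hg'⟩ := hbS y.2
      obtain ⟨a', ha'⟩ := heig g' Y hY
      have h3 : (fun g : G => ρ g d) g' = ρ g' d := rfl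
      rw [h3] at hg'
      rw [hg'] at ha'
      exact ⟨a', ha'⟩
    choose al hal using hx1
    obtain ⟨e, he⟩ := heig g Y hY
    have h3 : ∑ y, (c y * (al y - e)) • (y : T) = 0 := by
      have h4 : Y (ρ g d) = ∑ y, (c y * al y) • (y : T) := by
        rw [← hc, map_sum]
        refine Finset.sum_congr rfl fun y _ => ?_
        rw [map_smul, hal, smul_smul]
      have h5 : e • ρ g d = ∑ y, (c y * e) • (y : T) := by
        rw [← hc, Finset.smul_sum]
        refine Finset.sum_congr rfl fun y _ => ?_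
        rw [smul_smul, mul_comm]
      have h6 : ∑ y, (c y * (al y - e)) • (y : T) =
          ∑ y, (c y * al y) • (y : T) - ∑ y, (c y * e) • (y : T) := by
        rw [← Finset.sum_sub_distrib]
        refine Finset.sum_congr rfl fun y _ => ?_
        rw [← sub_smul]
        congr 1
        ring
      rw [h6, ← h4, ← h5, he, sub_self]
    have h4 := Fintype.linearIndependent_iff.1 hli _ h3 x
    have h5 : al x = e := sub_eq_zero.1 ((mul_eq_zero.1 h4).resolve_left hx)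
    have hx0 : (x : T) ≠ 0 := hli.ne_zero x
    constructor
    · intro h
      have h6 : al x = a := by
        have h7 : (al x - a) • (x : T) = 0 := by rw [sub_smul, ← hal, h, sub_self]
        exact sub_eq_zero.1 ((smul_eq_zero.1 h7).resolve_right hx0)
      rw [he, ← h5, h6]
    · intro h
      have h6 : e = a := by
        have h7 : (e - a) • ρ g d = 0 := by rw [sub_smul, ← he, h, sub_self]
        exact sub_eq_zero.1 ((smul_eq_zero.1 h7).resolve_right (rho_ne g hd0))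
      rw [hal, h5, h6]
  choose f hf using key
  refine ⟨b, hfin, f, fun g g' hgg' Y hY a ha => ?_⟩
  rw [← hf g' Y hY a, ← hgg', hf g Y hY a]
  exact ha

/-- A conjugation stable space of operators with a common eigenvector acts by scalars on a
strongly irreducible subspace. -/
theorem scalar_of_vector (hst : ∀ g, ∀ u ∈ U, ρ g u ∈ U) (hU : SIon ρ U)
    (L : Submodule K (T →ₗ[K] T))
    (hconj : ∀ g : G, ∀ Y ∈ L, ρ g ∘ₗ Y ∘ₗ ρ g⁻¹ ∈ L)
    {d : T} (hd : d ∈ U) (hd0 : d ≠ 0) (heig : ∀ Y ∈ L, ∃ a : K, Y d = a • d) :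
    ∀ Y ∈ L, ∃ a : K, ∀ u ∈ U, Y u = a • u := by
  classical
  have hconj' : ∀ g : G, ∀ Y ∈ L, ρ g⁻¹ ∘ₗ Y ∘ₗ ρ g ∈ L := by
    intro g Y hY
    have h1 := hconj g⁻¹ Y hY
    rwa [inv_inv] at h1
  have hev : ∀ (g : G) (Y : T →ₗ[K] T) (v : T), Y (ρ g v) = ρ g ((ρ g⁻¹ ∘ₗ Y ∘ₗ ρ g) v) := by
    intro g Y v
    rw [LinearMap.comp_apply, LinearMap.comp_apply, rho_inv]
  have hall : ∀ g : G, ∀ Y ∈ L, ∃ a : K, Y (ρ g d) = a • ρ g d := by
    intro g Y hY
    obtain ⟨a, ha⟩ := heig _ (hconj' g Y hY)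
    exact ⟨a, by rw [hev, ha, map_smul]⟩
  obtain ⟨F, hF, f, hf⟩ := finite_weights L hd0 hall
  choose! lam hlam using heig
  have huniq : ∀ (g : G) (a a' : K), a • ρ g d = a' • ρ g d → a = a' := by
    intro g a a' h
    have h7 : (a - a') • ρ g d = 0 := by rw [sub_smul, h, sub_self]
    exact sub_eq_zero.1 ((smul_eq_zero.1 h7).resolve_right (rho_ne g hd0))
  have hlamc : ∀ g : G, (∀ Y ∈ L, Y (ρ g d) = lam Y • ρ g d) → ∀ Y ∈ L,
      lam (ρ g⁻¹ ∘ₗ Y ∘ₗ ρ g) = lam Y := by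
    intro g hg Y hY
    have h1 := hg Y hY
    rw [hev, hlam _ (hconj' g Y hY), map_smul] at h1
    exact huniq g _ _ h1
  let H : Subgroup G :=
    { carrier := {g | ∀ Y ∈ L, Y (ρ g d) = lam Y • ρ g d}
      one_mem' := by
        intro Y hY
        rw [map_one, Module.End.one_apply]
        exact hlam Y hY
      mul_mem' := by
        intro g h hg hh Y hY
        rw [map_mul, Module.End.mul_apply, hev, hh _ (hconj' g Y hY), hlamc g hg Y hY, map_smul]
      inv_mem' := by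
        intro g hg Y hY
        have h1 : ρ g ∘ₗ Y ∘ₗ ρ g⁻¹ ∈ L := hconj g Y hY
        have h2 := hg _ h1
        have h3 : (ρ g ∘ₗ Y ∘ₗ ρ g⁻¹) (ρ g d) = ρ g (Y d) := by
          rw [LinearMap.comp_apply, LinearMap.comp_apply, rho_inv']
        rw [h3, hlam Y hY, map_smul] at h2
        have h4 : lam Y = lam (ρ g ∘ₗ Y ∘ₗ ρ g⁻¹) := huniq g _ _ h2
        rw [hev, inv_inv, hlam _ h1, map_smul, h4] }
  have hH : H.FiniteIndex := by
    refine fi_of_map H f fun g g' hgg' Y hY => ?_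
    have h1 : ρ g ∘ₗ Y ∘ₗ ρ g⁻¹ ∈ L := hconj g Y hY
    have h2 : (ρ g ∘ₗ Y ∘ₗ ρ g⁻¹) (ρ g d) = lam Y • ρ g d := by
      rw [LinearMap.comp_apply, LinearMap.comp_apply, rho_inv', hlam Y hY, map_smul]
    have h3 := hf g g' hgg' _ h1 _ h2
    rw [map_mul, Module.End.mul_apply, hev, inv_inv, h3, map_smul]
  let W : Submodule K T :=
    { carrier := {u | u ∈ U ∧ ∀ Y ∈ L, Y u = lam Y • u}
      zero_mem' := ⟨U.zero_mem, fun Y _ => by rw [map_zero, smul_zero]⟩
      add_mem' := fun {u v} hu hv => ⟨U.add_mem hu.1 hv.1, fun Y hY => by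
        rw [map_add, hu.2 Y hY, hv.2 Y hY, smul_add]⟩
      smul_mem' := fun c u hu => ⟨U.smul_mem c hu.1, fun Y hY => by
        rw [map_smul, hu.2 Y hY, smul_comm]⟩ }
  rcases hU H hH W (fun u hu => hu.1) (fun g hg u hu => ⟨hst g u hu.1, fun Y hY => by
    rw [hev, hu.2 _ (hconj' g Y hY), hlamc g hg Y hY, map_smul]⟩) with h | h
  · exfalso
    have h1 : d ∈ W := ⟨hd, hlam⟩
    rw [h, Submodule.mem_bot] at h1
    exact hd0 h1
  · intro Y hY
    refine ⟨lam Y, fun u hu => ?_⟩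
    rw [← h] at hu
    exact hu.2 Y hY

end weights

section avg

variable {K : Type u} [Field K] [CharZero K] {T : Type v} [AddCommGroup T] [Module K T]
  {G : Type x} [Group G] {ρ : G →* (T →ₗ[K] T)} {U : Submodule K T} {g : G} {d : T}
  {φ : T →ₗ[K] K} {ε : K}

theorem refl_pow (h : Refl ρ U g d φ ε) (t : ℕ) :
    ∀ u ∈ U, ρ (g ^ t) u = u + ((ε ^ t - 1) * φ u) • d := by
  induction t with
  | zero => intro u _; simp
  | succ t ih =>
    intro u hu
    have h1 : u + ((ε - 1) * φ u) • d ∈ U := U.add_mem hu (U.smul_mem _ h.mem)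
    rw [pow_succ, map_mul, Module.End.mul_apply, h.act u hu, ih _ h1, map_add, map_smul, h.val,
      smul_eq_mul, mul_one, add_assoc, ← add_smul]
    congr 2
    ring

theorem refl_ne (h : Refl ρ U g d φ ε) : ε ≠ 0 := by
  have h2 : ρ g d = ε • d := by
    rw [h.act d h.mem, h.val, mul_one]
    module
  rintro rfl
  rw [zero_smul] at h2
  exact rho_ne g h.ne h2

theorem refl_inv (h : Refl ρ U g d φ ε) : Refl ρ U g⁻¹ d φ ε⁻¹ := by
  have hε := refl_ne h
  refine ⟨h.mem, h.val, fun u hu => ?_⟩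
  have h1 : u + ((ε⁻¹ - 1) * φ u) • d ∈ U := U.add_mem hu (U.smul_mem _ h.mem)
  have h3 : (ε⁻¹ - 1) * φ u + (ε - 1) * φ (u + ((ε⁻¹ - 1) * φ u) • d) = 0 := by
    rw [map_add, map_smul, h.val, smul_eq_mul, mul_one]
    field_simp
    ring
  have h2 : ρ g (u + ((ε⁻¹ - 1) * φ u) • d) = u := by
    rw [h.act _ h1, add_assoc, ← add_smul, h3, zero_smul, add_zero]
  conv_lhs => rw [← h2]
  rw [rho_inv']

open scoped Classical in
theorem geom_root {x : K} {k : ℕ} (hx : x ^ k = 1) :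
    ∑ t ∈ Finset.range k, x ^ t = if x = 1 then (k : K) else 0 := by
  split_ifs with h
  · rw [h]
    simp
  · have h1 := geom_sum_mul x k
    rw [hx, sub_self] at h1
    exact (mul_eq_zero.1 h1).resolve_right (sub_ne_zero.2 h)

/-- The projection of `Y` to an eigenspace of the conjugation by `γ`. -/
noncomputable def avg (ρ : G →* (T →ₗ[K] T)) (γ : G) (k : ℕ) (μ : K) (Y : T →ₗ[K] T) :
    T →ₗ[K] T :=
  ∑ t ∈ Finset.range k, (μ⁻¹) ^ t • (ρ (γ ^ t) ∘ₗ Y ∘ₗ ρ (γ ^ t)⁻¹)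

open scoped Classical in
/-- The projection on a subspace on which `γ` is a complex reflection. -/
theorem avg_on (h : Refl ρ U g d φ ε) {k : ℕ} (hεk : ε ^ k = 1)
    {μ : K} (hμk : μ ^ k = 1) (hμ1 : μ ≠ 1) (hμ0 : μ ≠ 0) {Y : T →ₗ[K] T}
    (hY : ∀ u ∈ U, Y u ∈ U) {u : T}
    (hu : u ∈ U) : avg ρ g k μ Y u =
      ((if ε⁻¹ = μ then (k : K) else 0) * φ u) • (Y d - φ (Y d) • d) +
      ((if ε = μ then (k : K) else 0) * (φ (Y u) - φ u * φ (Y d))) • d := by
  have hε := refl_ne h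
  have hterm : ∀ t : ℕ, (μ⁻¹) ^ t • (ρ (g ^ t) ∘ₗ Y ∘ₗ ρ (g ^ t)⁻¹) u =
      (μ⁻¹) ^ t • (Y u - φ u • Y d - φ (Y u) • d + (2 * φ u * φ (Y d)) • d) +
      ((ε⁻¹ * μ⁻¹) ^ t * φ u) • (Y d - φ (Y d) • d) +
      ((ε * μ⁻¹) ^ t * (φ (Y u) - φ u * φ (Y d))) • d := by
    intro t
    have h1 : ρ (g ^ t)⁻¹ u = u + (((ε⁻¹) ^ t - 1) * φ u) • d := by
      rw [← inv_pow]
      exact refl_pow (refl_inv h) t u hu
    have h2 : Y (u + (((ε⁻¹) ^ t - 1) * φ u) • d) ∈ U := hY _ (U.add_mem hu (U.smul_mem _ h.mem))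
    have h5 : (ε⁻¹) ^ t * ε ^ t = 1 := by
      rw [← mul_pow, inv_mul_cancel₀ hε, one_pow]
    rw [LinearMap.comp_apply, LinearMap.comp_apply, h1, refl_pow h t _ h2, map_add, map_smul,
      map_add, map_smul, smul_eq_mul, mul_pow, mul_pow]
    match_scalars
    · ring
    · ring
    · linear_combination (μ⁻¹ ^ t * φ u * φ (Y d)) * h5
  have hsum : ∀ x : K, x ^ k = 1 → ∑ t ∈ Finset.range k, (x * μ⁻¹) ^ t =
      if x = μ then (k : K) else 0 := by
    intro x hx
    rw [geom_root (by rw [mul_pow, hx, inv_pow, hμk, inv_one, mul_one])]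
    by_cases h1 : x = μ
    · rw [if_pos h1, if_pos (by rw [h1, mul_inv_cancel₀ hμ0])]
    · rw [if_neg h1, if_neg (fun h2 => h1 ((mul_inv_eq_one₀ hμ0).1 h2))]
  have hεk' : (ε⁻¹) ^ k = 1 := by rw [inv_pow, hεk, inv_one]
  have h0 : ∑ t ∈ Finset.range k, (μ⁻¹) ^ t = 0 := by
    rw [geom_root (by rw [inv_pow, hμk, inv_one]), if_neg (fun h2 => hμ1 (inv_eq_one.1 h2))]
  rw [avg, LinearMap.sum_apply]
  simp only [LinearMap.smul_apply]
  rw [Finset.sum_congr rfl fun t _ => hterm t, Finset.sum_add_distrib, Finset.sum_add_distrib,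
    ← Finset.sum_smul, ← Finset.sum_smul, ← Finset.sum_smul, ← Finset.sum_mul, ← Finset.sum_mul,
    h0, hsum _ hεk, hsum _ hεk', zero_smul, zero_add]

end avg

end Pool.Agent.N174.Cyc
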