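import Pool.Agent.N174.Cyc.Full

/-!
# Dual bases of the components
-/

open Finset Function

set_option linter.unusedSectionVars false

namespace Pool.Agent.N174.Cyc

open Pool.Agent.TH125.Gal

universe u v w x

variable {K : Type u} [Field K] [CharZero K] {T : Type v} [AddCommGroup T] [Module K T]
  [FiniteDimensional K T]
  {G : Type x} [Group G] {I : Type} [Fintype I] [DecidableEq I]
  {B : T →ₗ[K] T →ₗ[K] K} {ρ : G →* (T →ₗ[K] T)} {p : I → (T →ₗ[K] T)} {bar : I → I}

/-- dual families -/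
theorem pair_basis (h : Dec B ρ p bar) {s : K} (hs : s * s = 1)
    (hsy : ∀ x y, B x y = s * B y x) (hnd : ∀ x, (∀ y, B x y = 0) → x = 0) (i : I) :
    ∃ e f : ℕ → T, (∀ a, e a ∈ cp p i) ∧ (∀ a, f a ∈ cp p (bar i)) ∧
      (∀ a b, a < Module.finrank K (cp p i) → b < Module.finrank K (cp p i) →
        B (f a) (e b) = if a = b then 1 else 0) ∧
      (∀ y ∈ cp p i, y ∈ Submodule.span K {z | ∃ a, a < Module.finrank K (cp p i) ∧ z = e a}) ∧
      ∀ y ∈ cp p (bar i),
        y ∈ Submodule.span K {z | ∃ a, a < Module.finrank K (cp p i) ∧ z = f a} := by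
  classical
  let 𝔟 := Module.finBasis K (cp p i)
  have hsurj : Function.Surjective B := by
    have hinj : Function.Injective B := by
      rw [injective_iff_map_eq_zero]
      exact fun x hx => hnd x fun y => by rw [hx]; rfl
    exact (LinearMap.injective_iff_surjective_of_finrank_eq_finrank
      (Subspace.dual_finrank_eq (K := K) (V := T)).symm).1 hinj
  have hf : ∀ a : Fin (Module.finrank K (cp p i)), ∃ f : T, ∀ y, B f y =
      𝔟.coord a ⟨p i y, ⟨y, rfl⟩⟩ := by
    intro a
    obtain ⟨f, hf⟩ := hsurj (𝔟.coord a ∘ₗ (p i).codRestrict (cp p i) fun y => ⟨y, rfl⟩)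
    exact ⟨f, fun y => by rw [hf]; rfl⟩
  choose f hf using hf
  have hfm : ∀ a, f a ∈ cp p (bar i) := by
    intro a
    rw [h.mem]
    conv_rhs => rw [← h.sum (f a)]
    rw [← Finset.add_sum_erase _ _ (Finset.mem_univ (bar i)), Finset.sum_eq_zero, add_zero]
    intro j hj
    apply hnd
    intro y
    rw [h.adj, hf]
    have h1 : p i (p (bar j) y) = 0 := by
      rw [h.orth, if_neg]
      intro h2
      apply Finset.ne_of_mem_erase hj
      rw [h2, h.bar_bar]
    have h2 : (⟨p i (p (bar j) y), ⟨_, rfl⟩⟩ : cp p i) = 0 := Subtype.ext h1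
    rw [h2, map_zero]
  have hfe : ∀ a b, B (f a) (𝔟 b : T) = if a = b then 1 else 0 := by
    intro a b
    rw [hf]
    have h1 : (⟨p i (𝔟 b : T), ⟨_, rfl⟩⟩ : cp p i) = 𝔟 b :=
      Subtype.ext (h.mem.1 (𝔟 b).2)
    rw [h1, Module.Basis.coord_apply, Module.Basis.repr_self, Finsupp.single_apply]
    by_cases hab : a = b
    · rw [if_pos hab, if_pos hab.symm]
    · rw [if_neg hab, if_neg (Ne.symm hab)]
  refine ⟨fun a => if ha : a < Module.finrank K (cp p i) then 𝔟 ⟨a, ha⟩ else 0,
    fun a => if ha : a < Module.finrank K (cp p i) then f ⟨a, ha⟩ else 0, fun a => ?_, fun a => ?_,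
    fun a b ha hb => ?_, fun y hy => ?_, fun y hy => ?_⟩
  · beta_reduce
    split_ifs
    · exact (𝔟 _).2
    · exact Submodule.zero_mem _
  · beta_reduce
    split_ifs
    · exact hfm _
    · exact Submodule.zero_mem _
  · beta_reduce
    rw [dif_pos ha, dif_pos hb, hfe]
    by_cases hab : a = b
    · subst hab
      rw [if_pos rfl, if_pos rfl]
    · rw [if_neg hab, if_neg (fun h => hab (congrArg Fin.val h))]
  · have h1 : y = ∑ a, 𝔟.repr ⟨y, hy⟩ a • (𝔟 a : T) := by
      have h2 := congrArg Subtype.val (𝔟.sum_repr ⟨y, hy⟩)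
      rw [AddSubmonoidClass.coe_finset_sum] at h2
      exact h2.symm
    rw [h1]
    refine Submodule.sum_mem _ fun a _ => Submodule.smul_mem _ _ (Submodule.subset_span
      ⟨a, a.2, ?_⟩)
    beta_reduce
    rw [dif_pos a.2]
  · have h1 : y = ∑ a, B y (𝔟 a : T) • f a := by
      rw [← sub_eq_zero]
      apply hnd
      intro x
      have hx : ∀ z ∈ cp p (bar i), B z x = B z (p i x) := by
        intro z hz
        rw [h.pair hz x, h.bar_bar]
      have h2 : p i x = ∑ b, 𝔟.repr ⟨p i x, ⟨x, rfl⟩⟩ b • (𝔟 b : T) := by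
        have h3 := congrArg Subtype.val (𝔟.sum_repr ⟨p i x, ⟨x, rfl⟩⟩)
        rw [AddSubmonoidClass.coe_finset_sum] at h3
        exact h3.symm
      rw [hx _ (Submodule.sub_mem _ hy (Submodule.sum_mem _ fun a _ =>
        Submodule.smul_mem _ _ (hfm a))), h2, map_sum]
      refine Finset.sum_eq_zero fun b _ => ?_
      rw [map_smul, map_sub, LinearMap.sub_apply, map_sum, LinearMap.sum_apply]
      simp only [map_smul, LinearMap.smul_apply, hfe, smul_eq_mul, mul_ite, mul_one, mul_zero,
        Finset.sum_ite_eq', Finset.mem_univ, if_true, sub_self]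
    rw [h1]
    refine Submodule.sum_mem _ fun a _ => Submodule.smul_mem _ _ (Submodule.subset_span
      ⟨a, a.2, ?_⟩)
    beta_reduce
    rw [dif_pos a.2]

/-- a half system -/
theorem exists_half {bar : I → I} (h1 : ∀ i, bar (bar i) = i) (h2 : ∀ i, bar i ≠ i) :
    ∃ H : I → Prop, ∀ i, H (bar i) ↔ ¬ H i := by
  let e := Fintype.equivFin I
  refine ⟨fun i => e i < e (bar i), fun i => ?_⟩
  beta_reduce
  rw [h1, not_lt]
  have h3 : e (bar i) ≠ e i := fun h => h2 i (e.injective h)
  exact ⟨le_of_lt, fun h => lt_of_le_of_ne h h3⟩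

/-- **Adapted bases.** -/
theorem adapted (h : Dec B ρ p bar) {s : K} (hs : s * s = 1)
    (hsy : ∀ x y, B x y = s * B y x) (hnd : ∀ x, (∀ y, B x y = 0) → x = 0) :
    ∃ (dm : I → ℕ) (bb : I → ℕ → T) (gc jc : I → K), (∀ i, dm (bar i) = dm i) ∧
      (∀ i, dm i = Module.finrank K (cp p i)) ∧
      (∀ i a, bb i a ∈ cp p i) ∧
      (∀ i a b, a < dm i → b < dm i → B (bb i a) (bb (bar i) b) = if a = b then gc i else 0) ∧
      (∀ i, gc i ≠ 0) ∧ (∀ i, gc (bar i) = s * gc i) ∧ (∀ i, jc i ≠ 0) ∧
      (∀ i, jc (bar i) = -jc i) ∧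
      ∀ i, ∀ y ∈ cp p i, y ∈ Submodule.span K {z | ∃ a, a < dm i ∧ z = bb i a} := by
  classical
  obtain ⟨H, hH⟩ := exists_half h.bar_bar h.bar_ne
  choose e f he hf hfe hse hsf using fun i => pair_basis h hs hsy hnd i
  have hs0 : s ≠ 0 := by
    rintro rfl
    rw [mul_zero] at hs
    exact zero_ne_one hs
  have hdim : ∀ i, Module.finrank K (cp p (bar i)) ≤ Module.finrank K (cp p i) := by
    intro i
    have h1 : cp p (bar i) ≤ Submodule.span K (Set.range fun a : Fin (Module.finrank K (cp p i)) =>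
        f i a) := by
      intro y hy
      refine Submodule.span_mono ?_ (hsf i y hy)
      rintro _ ⟨a, ha, rfl⟩
      exact ⟨⟨a, ha⟩, rfl⟩
    refine le_trans (Submodule.finrank_mono h1) ?_
    refine le_trans (finrank_range_le_card _) ?_
    rw [Fintype.card_fin]
  have hdim' : ∀ i, Module.finrank K (cp p (bar i)) = Module.finrank K (cp p i) := by
    intro i
    refine le_antisymm (hdim i) ?_
    have h1 := hdim (bar i)
    rwa [h.bar_bar] at h1
  refine ⟨fun i => Module.finrank K (cp p i), fun i a => if H i then e i a else f (bar i) a,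
    fun i => if H i then s else 1, fun i => if H i then 1 else -1, hdim', fun i => rfl,
    fun i a => ?_, fun i a b ha hb => ?_, fun i => ?_, fun i => ?_, fun i => ?_, fun i => ?_,
    fun i y hy => ?_⟩
  · beta_reduce
    split_ifs
    · exact he i a
    · have h1 := hf (bar i) a
      rwa [h.bar_bar] at h1
  · beta_reduce
    by_cases hi : H i
    · have hbi : ¬ H (bar i) := fun h' => (hH i).1 h' hi
      rw [if_pos hi, if_neg hbi, h.bar_bar, if_pos hi, hsy, hfe i b a hb ha]
      by_cases hab : a = b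
      · rw [if_pos hab, if_pos hab.symm, mul_one]
      · rw [if_neg hab, if_neg (Ne.symm hab), mul_zero]
    · have hbi : H (bar i) := (hH i).2 hi
      rw [if_neg hi, if_pos hbi, if_neg hi, hfe (bar i) a b (by rwa [hdim']) (by rwa [hdim'])]
  · beta_reduce
    split_ifs
    · exact hs0
    · exact one_ne_zero
  · beta_reduce
    by_cases hi : H i
    · have hbi : ¬ H (bar i) := fun h' => (hH i).1 h' hi
      rw [if_pos hi, if_neg hbi, hs]
    · have hbi : H (bar i) := (hH i).2 hi
      rw [if_neg hi, if_pos hbi, mul_one]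
  · beta_reduce
    split_ifs
    · exact one_ne_zero
    · exact neg_ne_zero.2 one_ne_zero
  · beta_reduce
    by_cases hi : H i
    · have hbi : ¬ H (bar i) := fun h' => (hH i).1 h' hi
      rw [if_pos hi, if_neg hbi]
    · have hbi : H (bar i) := (hH i).2 hi
      rw [if_neg hi, if_pos hbi, neg_neg]
  · beta_reduce
    by_cases hi : H i
    · refine Submodule.span_mono ?_ (hse i y hy)
      rintro _ ⟨a, ha, rfl⟩
      exact ⟨a, ha, by rw [if_pos hi]⟩
    · have h1 := hsf (bar i) y (by rwa [h.bar_bar])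
      refine Submodule.span_mono ?_ h1
      rintro _ ⟨a, ha, rfl⟩
      exact ⟨a, by rwa [hdim'] at ha, by rw [if_neg hi]⟩

end Pool.Agent.N174.Cyc
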