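import Pool.Agent.N174.Cyc.Deck

/-!
# The structure of semi-invariant classes for cyclic coverings
-/

open CategoryTheory AlgebraicGeometry Finset Function TensorProduct

set_option linter.unusedSectionVars false

universe u v w x

namespace Pool.Agent.N174.Cyc

open Pool.Agent.H914 Pool.Agent.H914.VarClass Pool.Agent.H914.VarClass.Obj
  Pool.Agent.H914.WeilCohomology Pool.Agent.H281R3.HT Pool.Agent.W552 Pool.Agent.TH125.Gal
  Pool.Agent.N174.Lef

variable {k : Type u} [Field k] {𝒱 : VarClass k} {ops : CycleOps 𝒱}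
  {W : WeilCohomology.{u, v} ops} {X Y : 𝒱.Obj} {f : X ⟶ Y} {n D : ℕ}
  {Γ : Type w} [Group Γ] {M : Type x} [AddCommGroup M] [Module W.K M]
  {χ : Γ →* W.Kˣ} {ρ : Γ →* (W.H X ≃ₐ[W.K] W.H X)} {ρY : Γ →* (W.H Y ≃ₐ[W.K] W.H Y)}
  {s : W.H X →ₗ[W.K] W.H Y} {σ : X ⟶ X} {D' : ℕ} {ζ : W.K}

/-- the character of the form -/
def mu (χ : Γ →* W.Kˣ) (X : 𝒱.Obj) : Γ →* W.K := (Units.coeHom W.K).comp (χ ^ X.dim)

theorem mu_apply (g : Γ) : mu (W := W) χ X g = (χ g : W.K) ^ X.dim := by
  rw [mu, MonoidHom.comp_apply, MonoidHom.pow_apply]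
  exact Units.val_pow_eq_pow_val _ _

/-- **The structure of the components.** -/
theorem core_c (hFR : FewRootsOfUnity W.K) (h : Data0 χ f ρ ρY s) (hk : Dk f ρ D' ζ σ)
    (v : VB W f) {τ : Γ →* (M →ₗ[W.K] M)} {μ : Γ →* W.Kˣ}
    {g₀ : Γ} (hχ : χ g₀ = 1) (hμ : μ g₀ = 1) (hY : ρY g₀ = 1) (hτ : τ g₀ = 1)
    (hPL : CyclicPLp (D' + 1) (vanishing W f) ρ (W.map σ) g₀)
    (hI : EigenIrred (D' + 1) (n + 1) (vanishing W f) ρ (W.map σ))
    {c : W.H (power ops X n) ⊗[W.K] M} {Δ : Subgroup Γ} (hΔ : Δ.FiniteIndex)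
    (hc : ∀ g ∈ Δ, TensorProduct.map (pact ρ n g) (τ g) c = (μ g : W.K) • c)
    (q : Fin (n + 1) → Option (Fin D)) :
    ∃ (L : ℕ) (m : Fin L → ℕ) (e : ∀ l, Fin (m l) × Fin 2 ≃ Free q)
      (ι : ∀ l, Fin (m l) → Fin D') (ε : Fin L → ℤ)
      (z : Fin L → W.H (power ops Y n) ⊗[W.K] M),
      (∀ l, ∃ Δ' : Subgroup Γ, Δ'.FiniteIndex ∧ ∀ g ∈ Δ',
        TensorProduct.map (pact ρY n g) (τ g) (z l) =
          ((μ g : W.K) * ((χ g : W.K) ^ (X.dim * m l))⁻¹) • z l) ∧
      (∀ l, z l ∈ Submodule.span W.K (Set.range fun x => hK f s q c x)) ∧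
      (tens (piq f s q)).rTensor M c =
        ∑ l, (ε l : W.K) •
          (mextA (ops := ops) v (fun a => pr hk (ι l a)) (e l)).rTensor M (z l) := by
  classical
  have hE := hK_eqv (ops := ops) h hΔ hc q
  have hD := dec_pr h hk
  have hcd : Fintype.card (Free q) ≤ n + 1 := by
    refine le_trans (Fintype.card_subtype_le _) ?_
    rw [Fintype.card_fin]
  have hi := fun i : Fin D' => hI (evl ζ i) (evl_pow hk.prim i) (evl_ne_one hk.prim i)
  have hneg : (-1 : W.K) ^ X.dim * (-1 : W.K) ^ X.dim = 1 := by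
    rw [← mul_pow]
    norm_num
  have hfft := fun θ => gl_fft (S := Free q) (μ := mu χ X) (σ := sig (lamq χ μ X q) ρY τ n)
    hFR hD (s := (-1 : W.K) ^ X.dim) hneg
    (fun a b => by
      rw [rform_apply, rform_apply, van_symm h.middle a.2 b.2])
    (van_nondeg h.transfer)
    (fun g a b => by
      rw [mu_apply]
      exact h.bil_act g a b)
    (fun i => SIon_pr h hk i (hi i).1)
    (fun i => by rw [finrank_pr]; exact (hi i).2.1)
    (fun i => hasRefl_pr h hk (by rw [mu_apply, hχ, Units.val_one, one_pow])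
      (by
        rw [sig_apply, lamq_apply, hχ, hμ, hτ, pact_of_one _ hY]
        simp only [Units.val_one, inv_one, one_pow, one_mul, one_smul]
        exact TensorProduct.map_id) hPL i)
    (fun i => by
      rw [finrank_pr]
      exact lt_of_le_of_lt hcd (hi i).2.2)
    hE θ
  obtain ⟨L, F, φ, hF, hexp, hind⟩ := extract v.u _ hfft
  choose m e ι hF using hF
  choose ε hε using fun l => dstarA (ops := ops) (n := n) (D := D) v h.transfer h.middle (e l)
  have hFv : ∀ l (y : Free q → vanishing W f), F l y = ∏ l', bil W X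
      (pr hk (ι l l') (y (e l (l', 0))) : W.H X) (y (e l (l', 1))) := by
    intro l y
    rw [hF, twf_apply]
    rfl
  refine ⟨L, m, e, ι, ε, fun l => ∑ r : Free q → Fin v.N, φ l r • hK f s q c fun j => v.u (r j),
    ?_, fun l => Submodule.sum_mem _ fun r _ => Submodule.smul_mem _ _
      (Submodule.subset_span ⟨_, rfl⟩), ?_⟩
  · -- semi-invariance
    intro l
    obtain ⟨Δ₁, hΔ₁, hE⟩ := hE
    refine ⟨Δ₁, hΔ₁, fun g hg => ?_⟩
    have h2 := hind (fun l => sig (lamq χ μ X q) ρY τ n g
        (∑ r : Free q → Fin v.N, φ l r • hK f s q c fun j => v.u (r j)) -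
        ((χ g : W.K) ^ X.dim) ^ m l •
        ∑ r : Free q → Fin v.N, φ l r • hK f s q c fun j => v.u (r j)) (fun y => by
      have h3 := hE g hg y
      rw [hexp y, hexp (fun j => rhoV h g (y j)), map_sum] at h3
      have h4 : ∀ l, F l (fun j => rhoV h g (y j)) = ((χ g : W.K) ^ X.dim) ^ m l * F l y := by
        intro l
        rw [hFv, hFv]
        have h5 : ∀ l', bil W X (pr hk (ι l l') (rhoV h g (y (e l (l', 0)))) : W.H X)
            (rhoV h g (y (e l (l', 1))) : W.H X) = (χ g : W.K) ^ X.dim * bil W X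
              (pr hk (ι l l') (y (e l (l', 0))) : W.H X) (y (e l (l', 1))) := by
          intro l'
          rw [← hD.comm, rhoV_apply, rhoV_apply, h.bil_act]
        rw [Finset.prod_congr rfl fun l' _ => h5 l', Finset.prod_mul_distrib, Finset.prod_const,
          Finset.card_univ, Fintype.card_fin]
      simp only [h4, map_smul] at h3
      simp only [smul_sub, Finset.sum_sub_distrib]
      rw [← h3, sub_eq_zero]
      refine Finset.sum_congr rfl fun l _ => ?_
      rw [smul_smul, mul_comm]) l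
    have h5 := sub_eq_zero.1 h2
    have hcd : Fintype.card (Free q) = 2 * m l := by
      rw [← Fintype.card_congr (e l), Fintype.card_prod, Fintype.card_fin, Fintype.card_fin,
        mul_comm]
    rw [sig_apply, LinearMap.smul_apply, lamq_apply, hcd] at h5
    have hχ0 : (χ g : W.K) ≠ 0 := Units.ne_zero _
    have hμ0 : (μ g : W.K) ≠ 0 := Units.ne_zero _
    have h6 := congrArg (fun y => ((μ g : W.K) * ((χ g : W.K) ^ (X.dim * (2 * m l)))⁻¹) • y) h5
    beta_reduce at h6
    rw [smul_smul, smul_smul] at h6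
    have h7 : (μ g : W.K) * ((χ g : W.K) ^ (X.dim * (2 * m l)))⁻¹ *
        ((μ g : W.K)⁻¹ * (χ g : W.K) ^ (X.dim * (2 * m l))) = 1 := by
      field_simp
    have h8 : (μ g : W.K) * ((χ g : W.K) ^ (X.dim * (2 * m l)))⁻¹ *
        ((χ g : W.K) ^ X.dim) ^ m l = (μ g : W.K) * ((χ g : W.K) ^ (X.dim * m l))⁻¹ := by
      have h9 : (χ g : W.K) ^ (X.dim * (2 * m l)) =
          (χ g : W.K) ^ (X.dim * m l) * (χ g : W.K) ^ (X.dim * m l) := by
        rw [← pow_add]
        congr 1
        ring
      rw [h9, ← pow_mul]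
      field_simp
    rw [h7, one_smul, h8] at h6
    exact h6
  · -- the formula
    have h2 : (tens (piq f s q)).rTensor M c = ∑ r : Free q → Fin v.N,
        (tens (opR v q r)).rTensor M (hK f s q c fun j => v.u (r j)) := by
      rw [star (ops := ops) v h.transfer q, ← LinearMap.coe_rTensorHom, map_sum,
        LinearMap.sum_apply]
      refine Finset.sum_congr rfl fun r _ => ?_
      rw [LinearMap.coe_rTensorHom, LinearMap.rTensor_comp, LinearMap.comp_apply, hK_apply]
    rw [h2]
    have h3 : ∀ r : Free q → Fin v.N, (hK f s q c fun j => v.u (r j)) =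
        ∑ l, (∏ l', bil W X (pr hk (ι l l') (v.u (r (e l (l', 0)))) : W.H X)
          (v.u (r (e l (l', 1))))) •
          ∑ r' : Free q → Fin v.N, φ l r' • hK f s q c fun j => v.u (r' j) := by
      intro r
      rw [hexp fun j => v.u (r j)]
      refine Finset.sum_congr rfl fun l _ => ?_
      rw [hFv]
    have h4 : ∀ l (r' : Free q → Fin v.N), ∑ r : Free q → Fin v.N,
        (∏ l', bil W X (pr hk (ι l l') (v.u (r (e l (l', 0)))) : W.H X)
          (v.u (r (e l (l', 1))))) •
          (tens (opR v q r)).rTensor M (hK f s q c fun j => v.u (r' j)) =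
        (ε l : W.K) • (mextA (ops := ops) v (fun a => pr hk (ι l a)) (e l)).rTensor M
          (hK f s q c fun j => v.u (r' j)) := by
      intro l r'
      have h6 : ∑ r : Free q → Fin v.N,
          (∏ l', bil W X (pr hk (ι l l') (v.u (r (e l (l', 0)))) : W.H X)
            (v.u (r (e l (l', 1))))) •
            (tens (opR v q r) ∘ₗ tens (opK s q fun p => (v.u (r' p) : W.H X))) =
          (ε l : W.K) • (mextA (ops := ops) v (fun a => pr hk (ι l a)) (e l) ∘ₗ
            tens (opK s q fun p => (v.u (r' p) : W.H X))) :=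
        hε l (fun a => pr hk (ι l a)) fun j => v.u (r' j)
      have h5 := congrArg (fun A => LinearMap.rTensorHom M A c) h6
      beta_reduce at h5
      rw [map_sum, LinearMap.sum_apply] at h5
      simp only [map_smul, LinearMap.smul_apply, LinearMap.coe_rTensorHom, LinearMap.rTensor_comp,
        LinearMap.comp_apply] at h5
      exact h5
    calc ∑ r : Free q → Fin v.N, (tens (opR v q r)).rTensor M (hK f s q c fun j => v.u (r j))
        = ∑ r : Free q → Fin v.N, ∑ l, ∑ r' : Free q → Fin v.N, φ l r' •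
            ((∏ l', bil W X (pr hk (ι l l') (v.u (r (e l (l', 0)))) : W.H X)
              (v.u (r (e l (l', 1))))) •
              (tens (opR v q r)).rTensor M (hK f s q c fun j => v.u (r' j))) := by
          refine Finset.sum_congr rfl fun r _ => ?_
          conv_lhs => rw [h3 r]
          rw [map_sum]
          refine Finset.sum_congr rfl fun l _ => ?_
          rw [map_smul, map_sum, Finset.smul_sum]
          refine Finset.sum_congr rfl fun r' _ => ?_
          rw [map_smul, smul_comm]
      _ = ∑ l, ∑ r' : Free q → Fin v.N, φ l r' • ∑ r : Free q → Fin v.N,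
            (∏ l', bil W X (pr hk (ι l l') (v.u (r (e l (l', 0)))) : W.H X)
              (v.u (r (e l (l', 1))))) •
              (tens (opR v q r)).rTensor M (hK f s q c fun j => v.u (r' j)) := by
          rw [Finset.sum_comm]
          refine Finset.sum_congr rfl fun l _ => ?_
          rw [Finset.sum_comm]
          refine Finset.sum_congr rfl fun r' _ => ?_
          rw [Finset.smul_sum]
      _ = _ := by
          refine Finset.sum_congr rfl fun l _ => ?_
          rw [map_sum, Finset.smul_sum]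
          refine Finset.sum_congr rfl fun r' _ => ?_
          rw [h4, map_smul, smul_comm]

end Pool.Agent.N174.Cyc
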