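import Pool.Agent.N174.Cyc.Rk

/-!
# The decomposition by an automorphism of finite order
-/

open Finset Function

set_option linter.unusedSectionVars false

namespace Pool.Agent.N174.Cyc

open Pool.Agent.TH125.Gal

universe u v w x

section alg

variable {K : Type u} [Field K] [CharZero K] {T : Type v} [AddCommGroup T] [Module K T]
  {D : ℕ} {ζ : K} {σ : T →ₗ[K] T}

/-- the projector onto the eigenspace of `c` -/
noncomputable def eip (D : ℕ) (σ : T →ₗ[K] T) (c : K) : T →ₗ[K] T :=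
  ((D + 1 : ℕ) : K)⁻¹ • ∑ a ∈ range (D + 1), (c⁻¹) ^ a • (σ ^ a)

theorem eip_apply (c : K) (x : T) : eip D σ c x =
    ((D + 1 : ℕ) : K)⁻¹ • ∑ a ∈ range (D + 1), (c⁻¹) ^ a • (σ ^ a) x := by
  rw [eip, LinearMap.smul_apply, LinearMap.sum_apply]
  rfl

theorem sig_eip (hσ : ∀ x, (σ ^ (D + 1)) x = x) {c : K} (hc : c ^ (D + 1) = 1) (x : T) :
    σ (eip D σ c x) = c • eip D σ c x := by
  have hc0 : c ≠ 0 := by
    rintro rfl
    rw [zero_pow (Nat.succ_ne_zero D)] at hc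
    exact zero_ne_one hc
  rw [eip_apply, map_smul, smul_comm c, map_sum]
  congr 1
  let u : ℕ → T := fun a => c • (c⁻¹) ^ a • (σ ^ a) x
  have h1 : ∀ a, σ ((c⁻¹) ^ a • (σ ^ a) x) = u (a + 1) := by
    intro a
    simp only [u]
    rw [map_smul, smul_smul, pow_succ', pow_succ', ← mul_assoc, mul_inv_cancel₀ hc0, one_mul]
    rfl
  have h2 : u (D + 1) = u 0 := by
    simp only [u]
    rw [hσ, inv_pow, hc, inv_one, pow_zero, pow_zero]
    rfl
  rw [Finset.sum_congr rfl fun a _ => h1 a, Finset.smul_sum]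
  have h3 := Finset.sum_range_succ u (D + 1)
  have h4 := Finset.sum_range_succ' u (D + 1)
  rw [h3, h2] at h4
  exact (add_right_cancel h4).symm

theorem sum_pow_eq_zero {z : K} {N : ℕ} (hz : z ^ N = 1) (hz1 : z ≠ 1) :
    ∑ a ∈ range N, z ^ a = 0 := by
  have h1 := mul_geom_sum z N
  rw [hz, sub_self] at h1
  exact (mul_eq_zero.1 h1).resolve_left (sub_ne_zero.2 hz1)

theorem pow_eig {c : K} {x : T} (hx : σ x = c • x) (a : ℕ) : (σ ^ a) x = c ^ a • x := by
  induction a with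
  | zero => rw [pow_zero, pow_zero, one_smul]; rfl
  | succ a ih =>
    rw [pow_succ, pow_succ]
    change (σ ^ a) (σ x) = _
    rw [hx, map_smul, ih, smul_smul, mul_comm]

open Classical in
theorem eip_eig {c c' : K} (hc : c ^ (D + 1) = 1) (hc' : c' ^ (D + 1) = 1) {x : T}
    (hx : σ x = c' • x) : eip D σ c x = if c = c' then x else 0 := by
  have hc0 : c ≠ 0 := by
    rintro rfl
    rw [zero_pow (Nat.succ_ne_zero D)] at hc
    exact zero_ne_one hc
  have h1 : ∀ a, (c⁻¹) ^ a • (σ ^ a) x = (c⁻¹ * c') ^ a • x := by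
    intro a
    rw [pow_eig hx, smul_smul, mul_pow]
  rw [eip_apply, Finset.sum_congr rfl fun a _ => h1 a, ← Finset.sum_smul]
  split_ifs with h
  · subst h
    rw [inv_mul_cancel₀ hc0]
    simp only [one_pow, Finset.sum_const, Finset.card_range, nsmul_eq_mul, mul_one]
    rw [smul_smul, inv_mul_cancel₀ (Nat.cast_ne_zero.2 (Nat.succ_ne_zero D)), one_smul]
  · rw [sum_pow_eq_zero (by rw [mul_pow, inv_pow, hc, hc', inv_one, one_mul]), zero_smul,
      smul_zero]
    intro h2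
    apply h
    have h3 := congrArg (fun z => c * z) h2
    beta_reduce at h3
    rw [← mul_assoc, mul_inv_cancel₀ hc0, one_mul, mul_one] at h3
    exact h3.symm

/-- the eigenvalues -/
def evl (ζ : K) (i : Fin D) : K := ζ ^ ((i : ℕ) + 1)

theorem evl_pow (hζ : IsPrimitiveRoot ζ (D + 1)) (i : Fin D) : evl ζ i ^ (D + 1) = 1 := by
  rw [evl, ← pow_mul, mul_comm, pow_mul, hζ.pow_eq_one, one_pow]

theorem evl_inj (hζ : IsPrimitiveRoot ζ (D + 1)) {i j : Fin D} (h : evl ζ i = evl ζ j) :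
    i = j := by
  have h1 := hζ.pow_inj (by omega) (by omega) h
  exact Fin.ext (by omega)

theorem evl_ne_one (hζ : IsPrimitiveRoot ζ (D + 1)) (i : Fin D) : evl ζ i ≠ 1 := by
  intro h
  have h1 : ζ ^ ((i : ℕ) + 1) = ζ ^ 0 := by rw [pow_zero]; exact h
  have h2 := hζ.pow_inj (by omega) (by omega) h1
  omega

theorem evl_rev (hζ : IsPrimitiveRoot ζ (D + 1)) (i : Fin D) :
    evl ζ i * evl ζ (Fin.rev i) = 1 := by
  rw [evl, evl, ← pow_add, Fin.val_rev]
  have h1 : (i : ℕ) + 1 + (D - (i + 1) + 1) = D + 1 := by omega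
  rw [h1, hζ.pow_eq_one]

theorem evl_mul (hζ : IsPrimitiveRoot ζ (D + 1)) {i j : Fin D} :
    evl ζ i * evl ζ j = 1 ↔ j = Fin.rev i := by
  constructor
  · intro h
    apply evl_inj hζ
    have h1 := evl_rev hζ i
    have h2 : evl ζ i ≠ 0 := left_ne_zero_of_mul_eq_one h
    exact mul_left_cancel₀ h2 (h.trans h1.symm)
  · rintro rfl
    exact evl_rev hζ i

theorem eip_one (hsum : ∀ x : T, ∑ a ∈ range (D + 1), (σ ^ a) x = 0) (x : T) :
    eip D σ (1 : K) x = 0 := by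
  rw [eip_apply]
  simp only [inv_one, one_pow, one_smul]
  rw [hsum, smul_zero]

theorem sum_eip (hζ : IsPrimitiveRoot ζ (D + 1))
    (hsum : ∀ x : T, ∑ a ∈ range (D + 1), (σ ^ a) x = 0) (x : T) :
    ∑ i : Fin D, eip D σ (evl ζ i) x = x := by
  have h1 : ∑ j ∈ range (D + 1), eip D σ (ζ ^ j) x = ∑ i : Fin D, eip D σ (evl ζ i) x := by
    rw [Finset.sum_range_succ', pow_zero, eip_one hsum, add_zero, Finset.sum_range]
    rfl
  rw [← h1]
  simp only [eip_apply]
  rw [← Finset.smul_sum, Finset.sum_comm]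
  have h2 : ∀ a ∈ range (D + 1), ∑ j ∈ range (D + 1), ((ζ ^ j)⁻¹) ^ a • (σ ^ a) x =
      if a = 0 then ((D + 1 : ℕ) : K) • x else 0 := by
    intro a ha
    rw [← Finset.sum_smul]
    have h3 : ∀ j, ((ζ ^ j)⁻¹) ^ a = ((ζ ^ a)⁻¹) ^ j := by
      intro j
      rw [inv_pow, inv_pow, ← pow_mul, ← pow_mul, mul_comm]
    rw [Finset.sum_congr rfl fun j _ => h3 j]
    split_ifs with h
    · subst h
      simp only [pow_zero, inv_one, one_pow, Finset.sum_const, Finset.card_range, nsmul_eq_mul,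
        mul_one]
      rfl
    · rw [sum_pow_eq_zero, zero_smul]
      · rw [inv_pow, ← pow_mul, mul_comm, pow_mul, hζ.pow_eq_one, one_pow, inv_one]
      · intro h4
        rw [inv_eq_one] at h4
        have h5 : ζ ^ a = ζ ^ 0 := by rw [h4, pow_zero]
        exact h (hζ.pow_inj (Finset.mem_range.1 ha) (Nat.succ_pos D) h5)
  rw [Finset.sum_congr rfl h2, Finset.sum_ite_eq' (range (D + 1)) 0, if_pos (by simp),
    smul_smul, inv_mul_cancel₀ (Nat.cast_ne_zero.2 (Nat.succ_ne_zero D)), one_smul]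

theorem eip_eip (hζ : IsPrimitiveRoot ζ (D + 1)) (hσ : ∀ x, (σ ^ (D + 1)) x = x) (i j : Fin D)
    (x : T) : eip D σ (evl ζ i) (eip D σ (evl ζ j) x) =
      if i = j then eip D σ (evl ζ i) x else 0 := by
  rw [eip_eig (evl_pow hζ i) (evl_pow hζ j) (sig_eip hσ (evl_pow hζ j) x)]
  by_cases h : i = j
  · subst h
    rw [if_pos rfl, if_pos rfl]
  · rw [if_neg h, if_neg fun h' => h (evl_inj hζ h')]

theorem mem_cp_iff (hζ : IsPrimitiveRoot ζ (D + 1)) (hσ : ∀ x, (σ ^ (D + 1)) x = x) (i : Fin D)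
    {x : T} : x ∈ cp (fun i : Fin D => eip D σ (evl ζ i)) i ↔ σ x = evl ζ i • x := by
  constructor
  · rintro ⟨y, rfl⟩
    exact sig_eip hσ (evl_pow hζ i) y
  · intro hx
    refine ⟨x, ?_⟩
    change eip D σ (evl ζ i) x = x
    rw [eip_eig (evl_pow hζ i) (evl_pow hζ i) hx, if_pos rfl]

variable {G : Type x} [Group G] {B : T →ₗ[K] T →ₗ[K] K} {ρ : G →* (T →ₗ[K] T)}

/-- **The decomposition.** -/
theorem dec_eip (hζ : IsPrimitiveRoot ζ (D + 1)) (hD : Even D) (hσ : ∀ x, (σ ^ (D + 1)) x = x)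
    (hsum : ∀ x : T, ∑ a ∈ range (D + 1), (σ ^ a) x = 0)
    (hBσ : ∀ x y, B (σ x) (σ y) = B x y) (hρσ : ∀ g x, ρ g (σ x) = σ (ρ g x)) :
    Dec B ρ (fun i : Fin D => eip D σ (evl ζ i)) Fin.rev where
  sum := sum_eip hζ hsum
  orth := eip_eip hζ hσ
  bar_bar := Fin.rev_rev
  bar_ne i h := by
    have h1 := congrArg Fin.val h
    rw [Fin.val_rev] at h1
    obtain ⟨m, hm⟩ := hD
    have := i.2
    omega
  adj i x y := by
    have h1 : ∀ (i j : Fin D) (x y : T), j ≠ Fin.rev i →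
        B (eip D σ (evl ζ i) x) (eip D σ (evl ζ j) y) = 0 := by
      intro i j x y hij
      have h2 := hBσ (eip D σ (evl ζ i) x) (eip D σ (evl ζ j) y)
      rw [sig_eip hσ (evl_pow hζ i), sig_eip hσ (evl_pow hζ j), map_smul, map_smul,
        LinearMap.smul_apply, smul_eq_mul, smul_eq_mul, ← mul_assoc] at h2
      have h3 : evl ζ j * evl ζ i ≠ 1 := by
        rw [mul_comm]
        exact fun h => hij ((evl_mul hζ).1 h)
      have h4 : (evl ζ j * evl ζ i - 1) *
          B (eip D σ (evl ζ i) x) (eip D σ (evl ζ j) y) = 0 := by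
        rw [sub_mul, h2, one_mul, sub_self]
      exact (mul_eq_zero.1 h4).resolve_left (sub_ne_zero.2 h3)
    have h2 : B (eip D σ (evl ζ i) x) y =
        B (eip D σ (evl ζ i) x) (eip D σ (evl ζ (Fin.rev i)) y) := by
      conv_lhs => rw [← sum_eip hζ hsum y, map_sum]
      refine Finset.sum_eq_single _ (fun j _ hj => h1 i j x y hj) fun h => ?_
      exact absurd (Finset.mem_univ _) h
    have h3 : B x (eip D σ (evl ζ (Fin.rev i)) y) =
        B (eip D σ (evl ζ i) x) (eip D σ (evl ζ (Fin.rev i)) y) := by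
      conv_lhs => rw [← sum_eip hζ hsum x, map_sum, LinearMap.sum_apply]
      refine Finset.sum_eq_single _ (fun j _ hj => h1 j _ x y fun h => hj ?_) fun h => ?_
      · rw [← Fin.rev_rev i, h, Fin.rev_rev]
      · exact absurd (Finset.mem_univ _) h
    exact h2.trans h3.symm
  comm g i x := by
    change ρ g (eip D σ (evl ζ i) x) = eip D σ (evl ζ i) (ρ g x)
    rw [eip_apply, eip_apply, map_smul, map_sum]
    congr 1
    have h1 : ∀ a : ℕ, ρ g ((σ ^ a) x) = (σ ^ a) (ρ g x) := by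
      intro a
      induction a with
      | zero => rfl
      | succ a ih =>
        rw [pow_succ']
        change ρ g (σ ((σ ^ a) x)) = σ ((σ ^ a) (ρ g x))
        rw [hρσ, ih]
    refine Finset.sum_congr rfl fun a _ => ?_
    rw [map_smul, h1]

/-- a vector generating a free module of rank one has components -/
theorem eip_ne_zero (hζ : IsPrimitiveRoot ζ (D + 1))
    (hsum : ∀ x : T, ∑ a ∈ range (D + 1), (σ ^ a) x = 0) {δ : T}
    (hδ : LinearIndependent K fun a : Fin D => (σ ^ (a : ℕ)) δ) (i : Fin D) :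
    eip D σ (evl ζ i) δ ≠ 0 := by
  intro h0
  rw [eip_apply, smul_eq_zero] at h0
  have h1 := h0.resolve_left (inv_ne_zero (Nat.cast_ne_zero.2 (Nat.succ_ne_zero D)))
  have h2 := hsum δ
  rw [Finset.sum_range_succ] at h1 h2
  set c := (evl ζ i)⁻¹ with hc
  have h3 : ∑ a : Fin D, (c ^ (a : ℕ) - c ^ D) • (σ ^ (a : ℕ)) δ = 0 := by
    have h4 : (σ ^ D) δ = -∑ a ∈ range D, (σ ^ a) δ := by
      rw [eq_neg_iff_add_eq_zero, add_comm]
      exact h2
    rw [h4, smul_neg, ← sub_eq_add_neg, Finset.smul_sum, ← Finset.sum_sub_distrib] at h1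
    rw [← h1, Finset.sum_range]
    refine Finset.sum_congr rfl fun a _ => ?_
    rw [sub_smul]
  have h4 := Fintype.linearIndependent_iff.1 hδ _ h3 ⟨0, by have := i.2; omega⟩
  change c ^ 0 - c ^ D = 0 at h4
  rw [pow_zero, sub_eq_zero] at h4
  have h5 : c ^ (D + 1) = 1 := by rw [hc, inv_pow, evl_pow hζ, inv_one]
  rw [pow_succ, ← h4, one_mul, hc, inv_eq_one] at h5
  exact evl_ne_one hζ i h5

theorem eip_pow (hσ : ∀ x, (σ ^ (D + 1)) x = x) {c : K} (hc : c ^ (D + 1) = 1) (a : ℕ) (x : T) :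
    eip D σ c ((σ ^ a) x) = c ^ a • eip D σ c x := by
  rw [← pow_eig (sig_eip hσ hc x) a]
  have h1 : ∀ a, Commute (σ ^ a) (eip D σ c) := by
    intro a
    rw [eip]
    refine Commute.smul_right ?_ _
    refine Commute.sum_right _ _ _ fun b _ => ?_
    refine Commute.smul_right ?_ _
    exact (Commute.refl σ).pow_pow a b
  exact LinearMap.congr_fun (h1 a).eq.symm x

variable {μ : G →* K} {E : Type w} [AddCommGroup E] [Module K E] {ν : G →* (E →ₗ[K] E)}

/-- **Complex reflections from a node.** -/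
theorem hasRefl_node (hζ : IsPrimitiveRoot ζ (D + 1)) (hD : Even D)
    (hσ : ∀ x, (σ ^ (D + 1)) x = x) (hsum : ∀ x : T, ∑ a ∈ range (D + 1), (σ ^ a) x = 0)
    (hBσ : ∀ x y, B (σ x) (σ y) = B x y) (hρσ : ∀ g x, ρ g (σ x) = σ (ρ g x)) {g : G}
    (hμ : μ g = 1) (hν : ν g = 1) {δ : T}
    (hδ : LinearIndependent K fun a : Fin D => (σ ^ (a : ℕ)) δ) {κ : K} (hκ : κ = 1 ∨ κ = -1)
    (hgδ : ρ g δ = κ • σ δ)
    (hg : ∀ x, ρ g x - x ∈ Submodule.span K (Set.range fun a : ℕ => (σ ^ a) δ)) (i : Fin D) :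
    HasRefl ρ (fun i : Fin D => eip D σ (evl ζ i)) Fin.rev μ ν i := by
  classical
  have h := dec_eip (B := B) (ρ := ρ) hζ hD hσ hsum hBσ hρσ
  have hκ2 : κ * κ = 1 := by
    rcases hκ with rfl | rfl <;> norm_num
  have hκ0 : κ ≠ 0 := left_ne_zero_of_mul_eq_one hκ2
  have hκd : κ ^ (D + 1) = κ := by
    obtain ⟨m, hm⟩ := hD
    rw [hm, pow_succ, ← two_mul, pow_mul, sq, hκ2, one_pow, one_mul]
  -- the eigenvalues of the reflection
  have hε1 : ∀ j : Fin D, κ * evl ζ j ≠ 1 := by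
    intro j hj
    have h1 := congrArg (fun z => z ^ (D + 1)) hj
    beta_reduce at h1
    rw [mul_pow, evl_pow hζ, hκd, mul_one, one_pow] at h1
    rw [h1, one_mul] at hj
    exact evl_ne_one hζ j hj
  have hne : ∀ j : Fin D, eip D σ (evl ζ j) δ ≠ 0 := eip_ne_zero hζ hsum hδ
  have hex : ∀ j : Fin D, ∃ ψ : T →ₗ[K] K, ψ (eip D σ (evl ζ j) δ) = 1 := by
    intro j
    obtain ⟨ψ, hψ⟩ : ∃ ψ : Module.Dual K T, ψ (eip D σ (evl ζ j) δ) ≠ 0 := by
      by_contra hcon
      push Not at hcon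
      exact hne j ((Module.forall_dual_apply_eq_zero_iff K _).1 hcon)
    exact ⟨(ψ (eip D σ (evl ζ j) δ))⁻¹ • ψ, inv_mul_cancel₀ hψ⟩
  choose ψ hψ using hex
  have hgj : ∀ j : Fin D, ρ g (eip D σ (evl ζ j) δ) = (κ * evl ζ j) • eip D σ (evl ζ j) δ := by
    intro j
    have h1 := h.comm g j δ
    beta_reduce at h1
    rw [h1, hgδ, map_smul]
    have h2 := eip_pow hσ (evl_pow hζ j) 1 δ
    rw [pow_one, pow_one] at h2
    rw [h2, smul_smul]
  have hspan : ∀ j, ∀ u ∈ cp (fun i : Fin D => eip D σ (evl ζ i)) j,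
      ∃ c : K, ρ g u - u = c • eip D σ (evl ζ j) δ := by
    intro j u hu
    have h1 : ρ g u - u = eip D σ (evl ζ j) (ρ g u - u) :=
      (h.mem.1 (Submodule.sub_mem _ (h.stable j g hu) hu)).symm
    rw [h1]
    have h2 : ∀ y ∈ Submodule.span K (Set.range fun a : ℕ => (σ ^ a) δ),
        ∃ c : K, eip D σ (evl ζ j) y = c • eip D σ (evl ζ j) δ := by
      intro y hy
      induction hy using Submodule.span_induction with
      | mem y hy =>
        obtain ⟨a, rfl⟩ := hy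
        exact ⟨_, eip_pow hσ (evl_pow hζ j) a δ⟩
      | zero => exact ⟨0, by rw [map_zero, zero_smul]⟩
      | add y y' _ _ hy hy' =>
        obtain ⟨c, hc⟩ := hy
        obtain ⟨c', hc'⟩ := hy'
        exact ⟨c + c', by rw [map_add, hc, hc', add_smul]⟩
      | smul a y _ hy =>
        obtain ⟨c, hc⟩ := hy
        exact ⟨a * c, by rw [map_smul, hc, smul_smul]⟩
    exact h2 _ (hg u)
  refine ⟨g, fun j => eip D σ (evl ζ j) δ, fun j => (κ * evl ζ j - 1)⁻¹ • (ψ j ∘ₗ (ρ g - 1)),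
    fun j => κ * evl ζ j, 2 * (D + 1), hμ, hν, by omega, fun j => ⟨⟨δ, rfl⟩, ?_, fun u hu => ?_⟩,
    fun j => ?_, hε1 i, ?_, fun j hj1 hj2 => ⟨fun h1 => ?_, fun h1 => ?_⟩⟩
  · rw [LinearMap.smul_apply, LinearMap.comp_apply, LinearMap.sub_apply, hgj]
    change (κ * evl ζ j - 1)⁻¹ • ψ j ((κ * evl ζ j) • eip D σ (evl ζ j) δ -
      eip D σ (evl ζ j) δ) = 1
    rw [map_sub, map_smul, hψ, smul_eq_mul, smul_eq_mul, mul_one,
      inv_mul_cancel₀ (sub_ne_zero.2 (hε1 j))]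
  · obtain ⟨c, hc⟩ := hspan j u hu
    rw [LinearMap.smul_apply, LinearMap.comp_apply, LinearMap.sub_apply]
    change ρ g u = u + ((κ * evl ζ j - 1) * ((κ * evl ζ j - 1)⁻¹ • ψ j (ρ g u - u))) •
      eip D σ (evl ζ j) δ
    rw [hc, map_smul, hψ, smul_eq_mul, smul_eq_mul, mul_one, ← mul_assoc,
      mul_inv_cancel₀ (sub_ne_zero.2 (hε1 j)), one_mul, ← hc]
    abel
  · rw [pow_mul', mul_pow, evl_pow hζ, hκd, mul_one, sq, hκ2]
  · intro h1
    have h2 : evl ζ i * evl ζ i = 1 := by linear_combination h1 - evl ζ i * evl ζ i * hκ2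
    exact h.bar_ne i ((evl_mul hζ).1 h2).symm
  · exact hj1 (evl_inj hζ (mul_left_cancel₀ hκ0 h1))
  · apply hj2
    beta_reduce at h1
    have h0 : κ * evl ζ i ≠ 0 := mul_ne_zero hκ0 (left_ne_zero_of_mul_eq_one (evl_rev hζ i))
    have h1' : κ * evl ζ j * (κ * evl ζ i) = 1 := by rw [h1, inv_mul_cancel₀ h0]
    have h2 : evl ζ i * evl ζ j = 1 := by linear_combination h1' - evl ζ i * evl ζ j * hκ2
    exact (evl_mul hζ).1 h2

end alg

end Pool.Agent.N174.Cyc
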