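import Pool.Agent.N174.Cyc.Act
import Pool.Agent.N174.Cyc.Eig
import Pool.Agent.N174.Cyc.ADefs

/-!
# The action of the covering group on the vanishing cohomology
-/

open CategoryTheory AlgebraicGeometry Finset Function TensorProduct

set_option linter.unusedSectionVars false

universe u v w x

namespace Pool.Agent.N174.Cyc

open Pool.Agent.H914 Pool.Agent.H914.VarClass Pool.Agent.H914.VarClass.Obj
  Pool.Agent.H914.WeilCohomology Pool.Agent.H281R3.HT Pool.Agent.W552 Pool.Agent.TH125.Gal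
  Pool.Agent.N174.Lef

variable {k : Type u} [Field k] {𝒱 : VarClass k} {ops : CycleOps 𝒱}
  {W : WeilCohomology.{u, v} ops} {X Y : 𝒱.Obj} {f : X ⟶ Y}
  {Γ : Type w} [Group Γ] {χ : Γ →* W.Kˣ} {ρ : Γ →* (W.H X ≃ₐ[W.K] W.H X)}
  {ρY : Γ →* (W.H Y ≃ₐ[W.K] W.H Y)} {s : W.H X →ₗ[W.K] W.H Y} {σ : X ⟶ X} {D : ℕ} {ζ : W.K}

/-- the action on a subspace -/
structure CyclicAct {K : Type v} [Field K] {A : Type v} [Ring A] [Algebra K A] (d : ℕ)
    (tr : A →ₗ[K] K) (T : Submodule K A) (ρ : Γ →* (A ≃ₐ[K] A)) (σ : A →ₐ[K] A) : Prop where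
  order : ∀ a, (σ ^ d) a = a
  trace : ∀ a, tr (σ a) = tr a
  commute : ∀ g a, ρ g (σ a) = σ (ρ g a)
  sum_eq_zero : ∀ a ∈ T, ∑ i ∈ Finset.range d, (σ ^ i) a = 0

/-- the formula -/
def CyclicPLp {K : Type v} [Field K] {A : Type v} [Ring A] [Algebra K A] (d : ℕ)
    (T : Submodule K A) (ρ : Γ →* (A ≃ₐ[K] A)) (σ : A →ₐ[K] A) (g : Γ) : Prop :=
  ∃ δ ∈ T, LinearIndependent K (fun i : Fin (d - 1) => (σ ^ (i : ℕ)) δ) ∧
    (ρ g δ = σ δ ∨ ρ g δ = -σ δ) ∧
    ∀ a ∈ T, ρ g a - a ∈ Submodule.span K (Set.range fun i : ℕ => (σ ^ i) δ)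

theorem pow_iter {K : Type v} [Field K] {A : Type v} [Ring A] [Algebra K A] (σ : A →ₐ[K] A)
    (i : ℕ) (a : A) : (σ ^ i) a = σ^[i] a := by
  induction i with
  | zero => rfl
  | succ i ih =>
    rw [Function.iterate_succ_apply', ← ih, pow_succ']
    rfl

theorem CyclicPL.toPow {K : Type v} [Field K] {A : Type v} [Ring A] [Algebra K A] {d : ℕ}
    {T : Submodule K A} {ρ : Γ →* (A ≃ₐ[K] A)} {σ : A →ₐ[K] A} {g : Γ}
    (h : CyclicPL d T ρ σ g) : CyclicPLp d T ρ σ g := by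
  obtain ⟨δ, hδ, h1, h2, h3⟩ := h
  refine ⟨δ, hδ, ?_, h2, fun a ha => ?_⟩
  · simp only [pow_iter]
    exact h1
  · simp only [pow_iter]
    exact h3 a ha

/-- the formal properties of an automorphism over `Y` -/
structure Dk (f : X ⟶ Y) (ρ : Γ →* (W.H X ≃ₐ[W.K] W.H X)) (D : ℕ) (ζ : W.K) (σ : X ⟶ X) :
    Prop where
  even : Even D
  prim : IsPrimitiveRoot ζ (D + 1)
  ovr : ∀ b, W.map σ (W.map f b) = W.map f b
  cyc : CyclicAct (D + 1) (W.tr X) (vanishing W f) ρ (W.map σ)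

theorem bil_sig (h : Dk f ρ D ζ σ) (a b : W.H X) :
    bil W X (W.map σ a) (W.map σ b) = bil W X a b := by
  rw [bil_apply, ← map_mul, h.cyc.trace, bil_apply]

theorem van_sig (h : Dk f ρ D ζ σ) {a : W.H X} (ha : a ∈ vanishing W f) :
    W.map σ a ∈ vanishing W f := by
  change W.push f (W.map σ a) = 0
  apply W.nondeg
  intro b
  rw [W.tr_push, ← h.ovr b, ← map_mul, h.cyc.trace]
  exact van_map ha b

/-- the action on the vanishing cohomology -/
noncomputable def sigE (h : Dk f ρ D ζ σ) : vanishing W f →ₗ[W.K] vanishing W f :=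
  (W.map σ).toLinearMap.restrict fun _ ha => van_sig h ha

theorem sigE_apply (h : Dk f ρ D ζ σ) (a : vanishing W f) : (sigE h a : W.H X) = W.map σ a := rfl

theorem sigE_pow (h : Dk f ρ D ζ σ) (i : ℕ) (a : vanishing W f) :
    (((sigE h) ^ i) a : W.H X) = ((W.map σ) ^ i) a := by
  induction i with
  | zero => rfl
  | succ i ih =>
    rw [pow_succ', pow_succ']
    change (sigE h (((sigE h) ^ i) a) : W.H X) = W.map σ (((W.map σ) ^ i) a)
    rw [sigE_apply, ih]

theorem sigE_ord (h : Dk f ρ D ζ σ) (a : vanishing W f) : ((sigE h) ^ (D + 1)) a = a := by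
  apply Subtype.ext
  rw [sigE_pow, h.cyc.order]

theorem sigE_sum (h : Dk f ρ D ζ σ) (a : vanishing W f) :
    ∑ i ∈ range (D + 1), ((sigE h) ^ i) a = 0 := by
  apply Subtype.ext
  rw [AddSubmonoidClass.coe_finset_sum]
  rw [Finset.sum_congr rfl fun i _ => sigE_pow h i a]
  exact h.cyc.sum_eq_zero a a.2

theorem sigE_bil (h : Dk f ρ D ζ σ) (a b : vanishing W f) :
    rform W X (vanishing W f) (sigE h a) (sigE h b) = rform W X (vanishing W f) a b := by
  rw [rform_apply, rform_apply, sigE_apply, sigE_apply, bil_sig h]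

theorem sigE_comm (hd : Data0 χ f ρ ρY s) (h : Dk f ρ D ζ σ) (g : Γ) (a : vanishing W f) :
    rhoV hd g (sigE h a) = sigE h (rhoV hd g a) := by
  apply Subtype.ext
  rw [rhoV_apply, sigE_apply, sigE_apply, rhoV_apply, h.cyc.commute]

/-- the projectors -/
noncomputable def pr (h : Dk f ρ D ζ σ) (i : Fin D) : vanishing W f →ₗ[W.K] vanishing W f :=
  eip D (sigE h) (evl ζ i)

theorem dec_pr (hd : Data0 χ f ρ ρY s) (h : Dk f ρ D ζ σ) :
    Dec (rform W X (vanishing W f)) (rhoV hd) (pr h) Fin.rev :=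
  dec_eip h.prim h.even (sigE_ord h) (sigE_sum h) (sigE_bil h) (sigE_comm hd h)

theorem map_cp (h : Dk f ρ D ζ σ) (i : Fin D) :
    (cp (pr h) i).map (vanishing W f).subtype = eigenPart (W.map σ) (vanishing W f) (evl ζ i) := by
  apply le_antisymm
  · rintro _ ⟨a, ha, rfl⟩
    exact ⟨a.2, Module.End.mem_eigenspace_iff.2
      (congrArg Subtype.val ((mem_cp_iff h.prim (sigE_ord h) i).1 ha))⟩
  · intro a ha
    have h1 := Module.End.mem_eigenspace_iff.1 ha.2
    exact ⟨⟨a, ha.1⟩, (mem_cp_iff h.prim (sigE_ord h) i).2 (Subtype.ext h1), rfl⟩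

theorem SIon_pr (hd : Data0 χ f ρ ρY s) (h : Dk f ρ D ζ σ) (i : Fin D)
    (hi : IrredAct ρ (eigenPart (W.map σ) (vanishing W f) (evl ζ i))) :
    SIon (rhoV hd) (cp (pr h) i) := by
  intro Δ hΔ U hU hst
  have hle : U.map (vanishing W f).subtype ≤ eigenPart (W.map σ) (vanishing W f) (evl ζ i) := by
    rw [← map_cp h]
    exact Submodule.map_mono hU
  have hst' : ∀ g ∈ Δ, ∀ a ∈ U.map (vanishing W f).subtype,
      ρ g a ∈ U.map (vanishing W f).subtype := by
    rintro g hg _ ⟨x, hx, rfl⟩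
    exact ⟨rhoV hd g x, hst g hg x hx, rfl⟩
  have hinj : Function.Injective (vanishing W f).subtype := Subtype.val_injective
  rcases hi Δ hΔ _ hle hst' with h1 | h1
  · left
    exact Submodule.map_injective_of_injective hinj (h1.trans (Submodule.map_bot _).symm)
  · right
    rw [← map_cp h] at h1
    exact Submodule.map_injective_of_injective hinj h1

theorem finrank_pr (h : Dk f ρ D ζ σ) (i : Fin D) : Module.finrank W.K (cp (pr h) i) =
    Module.finrank W.K (eigenPart (W.map σ) (vanishing W f) (evl ζ i)) := by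
  rw [← map_cp h]
  exact (Submodule.finrank_map_subtype_eq _ _).symm

variable {E : Type x} [AddCommGroup E] [Module W.K E] {ν : Γ →* (E →ₗ[W.K] E)} {μ : Γ →* W.K}

theorem hasRefl_pr (hd : Data0 χ f ρ ρY s) (h : Dk f ρ D ζ σ) {g : Γ}
    (hμ : μ g = 1) (hν : ν g = 1) (hg : CyclicPLp (D + 1) (vanishing W f) ρ (W.map σ) g)
    (i : Fin D) : HasRefl (rhoV hd) (pr h) Fin.rev μ ν i := by
  obtain ⟨δ, hδ, hli, hgδ, hsp⟩ := hg
  have hpow : ∀ a : ℕ, ((((sigE h) ^ a) ⟨δ, hδ⟩ : vanishing W f) : W.H X) =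
      ((W.map σ) ^ a) δ := fun a => sigE_pow h a ⟨δ, hδ⟩
  have hli' : LinearIndependent W.K fun a : Fin D => ((sigE h) ^ (a : ℕ)) (⟨δ, hδ⟩ :
      vanishing W f) := by
    refine LinearIndependent.of_comp (vanishing W f).subtype ?_
    have h1 : ((vanishing W f).subtype ∘ fun a : Fin D => ((sigE h) ^ (a : ℕ))
        (⟨δ, hδ⟩ : vanishing W f)) = fun a : Fin D => ((W.map σ) ^ (a : ℕ)) δ := by
      funext a
      exact hpow a
    rw [h1]
    exact hli
  obtain ⟨κ, hκ, hκδ⟩ : ∃ κ : W.K, (κ = 1 ∨ κ = -1) ∧ ρ g δ = κ • W.map σ δ := by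
    rcases hgδ with h1 | h1
    · exact ⟨1, Or.inl rfl, by rw [one_smul]; exact h1⟩
    · exact ⟨-1, Or.inr rfl, by rw [neg_smul, one_smul]; exact h1⟩
  refine hasRefl_node h.prim h.even (sigE_ord h) (sigE_sum h) (sigE_bil h) (sigE_comm hd h) hμ hν
    hli' hκ (Subtype.ext hκδ) (fun a => ?_) i
  have h1 := hsp a a.2
  have h2 : Submodule.span W.K (Set.range fun i : ℕ => ((W.map σ) ^ i) δ) =
      (Submodule.span W.K (Set.range fun i : ℕ => ((sigE h) ^ i) (⟨δ, hδ⟩ :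
        vanishing W f))).map (vanishing W f).subtype := by
    rw [Submodule.map_span, ← Set.range_comp]
    congr 2
    funext i
    exact (hpow i).symm
  rw [h2] at h1
  obtain ⟨y, hy, hy'⟩ := h1
  have h3 : y = rhoV hd g a - a := Subtype.ext hy'
  rwa [h3] at hy

end Pool.Agent.N174.Cyc
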