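import Mathlib.FieldTheory.IsAlgClosed.AlgebraicClosure

/-!
# Fields with few roots of unity
-/

universe u

namespace Pool.Agent.N174.Cyc

/-- The field has only finitely many roots of unity of any given degree. -/
def FewRootsOfUnity (K : Type u) [Field K] : Prop :=
  ∀ D : ℕ, {a : AlgebraicClosure K | (∃ m ≥ 1, a ^ m = 1) ∧ (minpoly K a).natDegree ≤ D}.Finite

end Pool.Agent.N174.Cyc
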