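import Pool.Agent.N174.Cyc.Gl

/-!
# The coefficients of an equivariant multilinear map
-/

open Finset Function

set_option linter.unusedSectionVars false

namespace Pool.Agent.N174.Cyc

open Pool.Agent.TH125.Gal Pool.Agent.N174.Lef

universe u v w x

section fft

variable {K : Type u} [Field K] [CharZero K] {T : Type v} [AddCommGroup T] [Module K T]
  [FiniteDimensional K T]
  {G : Type x} [Group G] {I : Type} [Fintype I] [DecidableEq I]
  {B : T →ₗ[K] T →ₗ[K] K} {ρ : G →* (T →ₗ[K] T)} {p : I → (T →ₗ[K] T)} {bar : I → I}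
  {E : Type w} [AddCommGroup E] [Module K E] {σ : G →* (E →ₗ[K] E)} {S : Type} [Fintype S]
  [DecidableEq S] {μ : G →* K}

/-- the multilinear forms with projections -/
def Twf (B : T →ₗ[K] T →ₗ[K] K) (p : I → (T →ₗ[K] T)) (S : Type) [Fintype S] [DecidableEq S] :
    Set (MultilinearMap K (fun _ : S => T) K) :=
  {φ | ∃ (m : ℕ) (e : Fin m × Fin 2 ≃ S) (c : Fin m → I), φ = twf B (fun l => p (c l)) e}

/-- **The first fundamental theorem for products of general linear groups**, for the values of all
linear functionals. -/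
theorem gl_fft (hK : FewRootsOfUnity K) (h : Dec B ρ p bar) {s : K} (hs : s * s = 1)
    (hsy : ∀ x y, B x y = s * B y x) (hnd : ∀ x, (∀ y, B x y = 0) → x = 0)
    (hB : ∀ g x y, B (ρ g x) (ρ g y) = μ g * B x y) (hU : ∀ i, SIon ρ (cp p i))
    (h3 : ∀ i, 3 ≤ Module.finrank K (cp p i)) (hr : ∀ i, HasRefl ρ p bar μ σ i)
    (hcard : ∀ i, Fintype.card S < Module.finrank K (cp p i))
    {φ : MultilinearMap K (fun _ : S => T) E} (hφ : Eqv ρ σ φ) (θ : E →ₗ[K] K) :
    θ.compMultilinearMap φ ∈ Submodule.span K (Twf B p S) := by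
  classical
  obtain ⟨dm, bb, gc, jc, h1, h2, h4, h5, h6, h7, h8, h9, h10⟩ := adapted h hs hsy hnd
  have hd : Adp B p bar s dm bb gc jc := ⟨h1, h4, h5, h6, h7, h8, h9, h10⟩
  have hcard' : ∀ i, Fintype.card S < dm i := fun i => by rw [h2]; exact hcard i
  have hsum : θ.compMultilinearMap φ = ∑ t : S → I,
      (θ.compMultilinearMap φ).compLinearMap fun k => p (t k) := by
    apply MultilinearMap.ext
    intro v
    rw [MultilinearMap.sum_apply]
    have h11 : (θ.compMultilinearMap φ) v = (θ.compMultilinearMap φ) fun k => ∑ i, p i (v k) := by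
      congr 1
      funext k
      rw [h.sum]
    rw [h11, MultilinearMap.map_sum]
    rfl
  rw [hsum]
  refine Submodule.sum_mem _ fun t _ => ?_
  refine typed h hd hs (L := LC S B ρ σ p) (fun i u hu w hw huw => ?_)
    (fun X hX Y hY => LC_bracket hX hY) (fun X hX v => ?_) hcard' t (fun v => ?_)
  · exact rk_mem hK h hsy hnd hB (hU i) (h3 i) (hr i) hu hw huw
  · have h12 := congrArg θ (hX.1.2 φ hφ fun k => p (t k) (v k))
    rw [map_sum, map_zero] at h12
    rw [← h12]
    refine Finset.sum_congr rfl fun k _ => ?_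
    rw [MultilinearMap.compLinearMap_apply]
    change θ (φ _) = θ (φ _)
    congr 2
    funext j
    by_cases hj : j = k
    · subst hj
      rw [update_self, update_self, hX.2]
    · rw [update_of_ne hj, update_of_ne hj]
  · rw [MultilinearMap.compLinearMap_apply, MultilinearMap.compLinearMap_apply]
    congr 1
    funext k
    exact h.idem _ _

end fft

section ext

variable {K : Type u} [Field K] {T : Type v} [AddCommGroup T] [Module K T]
  {N : Type w} [AddCommGroup N] [Module K N] {S : Type} [Fintype S] [DecidableEq S]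
  {J : Type} [Fintype J] [DecidableEq J]

/-- **The coefficients of a combination of multilinear forms.** -/
theorem extract (t : Module.Basis J K T) (𝒢 : Set (MultilinearMap K (fun _ : S => T) K))
    {h : MultilinearMap K (fun _ : S => T) N}
    (hh : ∀ θ : N →ₗ[K] K, θ.compMultilinearMap h ∈ Submodule.span K 𝒢) :
    ∃ (L : ℕ) (F : Fin L → MultilinearMap K (fun _ : S => T) K) (φ : Fin L → (S → J) → K),
      (∀ l, F l ∈ 𝒢) ∧
      (∀ v, h v = ∑ l, F l v • ∑ r : S → J, φ l r • h fun j => t (r j)) ∧
      ∀ x : Fin L → N, (∀ v, ∑ l, F l v • x l = 0) → ∀ l, x l = 0 := by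
  classical
  obtain ⟨𝒮, hSA, hSspan, hSli⟩ := exists_linearIndependent K 𝒢
  -- evaluation on the basis
  let ev : MultilinearMap K (fun _ : S => T) K →ₗ[K] ((S → J) → K) :=
    { toFun := fun F r => F fun j => t (r j)
      map_add' := fun F F' => rfl
      map_smul' := fun a F => rfl }
  have hev : Function.Injective ev := by
    intro F F' hF
    refine Module.Basis.ext_multilinear (fun _ => t) fun r => ?_
    exact congrFun hF r
  have hli2 : LinearIndependent K fun x : 𝒮 => ev x.1 :=
    hSli.map' ev (LinearMap.ker_eq_bot.2 hev)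
  have hfin : Finite 𝒮 := hli2.finite
  have := Fintype.ofFinite 𝒮
  let eS := Fintype.equivFin 𝒮
  let F : Fin (Fintype.card 𝒮) → MultilinearMap K (fun _ : S => T) K := fun l => (eS.symm l).1
  have hli3 : LinearIndependent K fun l => ev (F l) := hli2.comp eS.symm eS.symm.injective
  -- dual functionals
  obtain ⟨ψ, hψ⟩ : ∃ ψ : Fin (Fintype.card 𝒮) → (((S → J) → K) →ₗ[K] K),
      ∀ l l', ψ l (ev (F l')) = if l' = l then 1 else 0 := by
    let 𝒷 := Module.Basis.extend hli3.linearIndepOn_id
    have hm : ∀ l, ev (F l) ∈ hli3.linearIndepOn_id.extend (Set.subset_univ _) := fun l =>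
      Module.Basis.subset_extend hli3.linearIndepOn_id ⟨l, rfl⟩
    refine ⟨fun l => 𝒷.coord ⟨ev (F l), hm l⟩, fun l l' => ?_⟩
    have h1 : ev (F l') = 𝒷 ⟨ev (F l'), hm l'⟩ :=
      (Module.Basis.extend_apply_self hli3.linearIndepOn_id ⟨ev (F l'), hm l'⟩).symm
    rw [h1, Module.Basis.coord_apply, Module.Basis.repr_self, Finsupp.single_apply]
    congr 1
    apply propext
    rw [Subtype.mk.injEq]
    exact hli3.injective.eq_iff
  have hψsum : ∀ l (f : (S → J) → K), ψ l f = ∑ r, ψ l (Pi.single r 1) * f r := by
    intro l f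
    conv_lhs => rw [show f = ∑ r, f r • (Pi.single r (1 : K) : (S → J) → K) by
      funext r
      rw [Finset.sum_apply, Finset.sum_eq_single r]
      · rw [Pi.smul_apply, Pi.single_eq_same, smul_eq_mul, mul_one]
      · intro r' _ hr
        rw [Pi.smul_apply, Pi.single_eq_of_ne hr.symm, smul_zero]
      · intro hr
        exact absurd (Finset.mem_univ _) hr]
    rw [map_sum]
    refine Finset.sum_congr rfl fun r _ => ?_
    rw [map_smul, smul_eq_mul, mul_comm]
  have hexp : ∀ f ∈ Submodule.span K 𝒢, ∀ v, f v = ∑ l, ψ l (ev f) * F l v := by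
    intro f hf v
    have h1 : f ∈ Submodule.span K (Set.range F) := by
      have h2 : Set.range F = 𝒮 := by
        ext x
        constructor
        · rintro ⟨l, rfl⟩
          exact (eS.symm l).2
        · intro hx
          exact ⟨eS ⟨x, hx⟩, by simp [F]⟩
      rw [h2, hSspan]
      exact hf
    obtain ⟨a, ha⟩ := (Submodule.mem_span_range_iff_exists_fun K).1 h1
    have h3 : ∀ l, ψ l (ev f) = a l := by
      intro l
      rw [← ha, map_sum, map_sum, Finset.sum_eq_single l]
      · rw [map_smul, map_smul, hψ, if_pos rfl, smul_eq_mul, mul_one]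
      · intro l' _ hl
        rw [map_smul, map_smul, hψ, if_neg hl, smul_zero]
      · intro h
        exact absurd (Finset.mem_univ _) h
    conv_lhs => rw [← ha]
    rw [MultilinearMap.sum_apply]
    refine Finset.sum_congr rfl fun l _ => ?_
    rw [MultilinearMap.smul_apply, h3, smul_eq_mul]
  refine ⟨Fintype.card 𝒮, F, fun l r => ψ l (Pi.single r 1), fun l => hSA (eS.symm l).2, ?_, ?_⟩
  · intro v
    rw [← sub_eq_zero, ← Module.forall_dual_apply_eq_zero_iff K]
    intro θ
    rw [map_sub, sub_eq_zero]
    refine (hexp _ (hh θ) v).trans ?_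
    rw [map_sum]
    refine Finset.sum_congr rfl fun l _ => ?_
    rw [map_smul, map_sum, hψsum, smul_eq_mul, mul_comm]
    congr 1
    refine Finset.sum_congr rfl fun r _ => ?_
    rw [map_smul, smul_eq_mul]
    rfl
  · intro x hx l
    have h1 : ∑ r : S → J, ψ l (Pi.single r 1) • ∑ l', (F l' fun j => t (r j)) • x l' =
        x l := by
      calc ∑ r : S → J, ψ l (Pi.single r 1) • ∑ l', (F l' fun j => t (r j)) • x l'
          = ∑ l', (∑ r : S → J, ψ l (Pi.single r 1) * (F l' fun j => t (r j))) • x l' := by
            simp only [Finset.smul_sum, smul_smul]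
            rw [Finset.sum_comm]
            refine Finset.sum_congr rfl fun l' _ => ?_
            rw [Finset.sum_smul]
        _ = ∑ l', (if l' = l then (1 : K) else 0) • x l' := by
            refine Finset.sum_congr rfl fun l' _ => ?_
            congr 1
            rw [← hψ l l', hψsum]
            rfl
        _ = x l := by
            rw [Finset.sum_eq_single l]
            · rw [if_pos rfl, one_smul]
            · intro l' _ hl
              rw [if_neg hl, zero_smul]
            · intro h
              exact absurd (Finset.mem_univ _) h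
    rw [← h1]
    refine Finset.sum_eq_zero fun r _ => ?_
    rw [hx, smul_zero]

end ext

end Pool.Agent.N174.Cyc
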