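import Pool.Agent.N174.Cyc.Rk

/-!
# All operators of rank one
-/

open Finset Function

set_option linter.unusedSectionVars false

namespace Pool.Agent.N174.Cyc

open Pool.Agent.TH125.Gal

universe u v w x

variable {K : Type u} [Field K] [CharZero K] {T : Type v} [AddCommGroup T] [Module K T]
  [FiniteDimensional K T]
  {G : Type x} [Group G] {I : Type} [Fintype I] [DecidableEq I]
  {B : T →ₗ[K] T →ₗ[K] K} {ρ : G →* (T →ₗ[K] T)} {p : I → (T →ₗ[K] T)} {bar : I → I}
  {E : Type w} [AddCommGroup E] [Module K E] {σ : G →* (E →ₗ[K] E)} {S : Type} [Fintype S]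
  [DecidableEq S] {μ : G →* K}

/-- the representation on a component -/
def rep (h : Dec B ρ p bar) (i : I) : Representation K G (cp p i) where
  toFun g := LinearMap.restrict (ρ g) fun _ hx => h.stable i g hx
  map_one' := by
    apply LinearMap.ext
    intro u
    apply Subtype.ext
    change ρ 1 (u : T) = u
    rw [map_one]
    rfl
  map_mul' g g' := by
    apply LinearMap.ext
    intro u
    apply Subtype.ext
    change ρ (g * g') (u : T) = ρ g (ρ g' (u : T))
    rw [map_mul]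
    rfl

theorem rep_apply (h : Dec B ρ p bar) (i : I) (g : G) (u : cp p i) :
    (rep h i g u : T) = ρ g (u : T) := rfl

/-- the operator of rank one is in the Lie algebra -/
def PP (S : Type) [Fintype S] [DecidableEq S] (B : T →ₗ[K] T →ₗ[K] K) (ρ : G →* (T →ₗ[K] T))
    (σ : G →* (E →ₗ[K] E)) (p : I → (T →ₗ[K] T)) (bar : I → I) (i : I) (u : cp p i)
    (φ : Module.Dual K (cp p i)) : Prop :=
  φ u = 0 ∧ ∃ X ∈ LC S B ρ σ p, (∀ x : cp p i, X x = φ x • (u : T)) ∧
    ∀ j, j ≠ i → j ≠ bar i → ∀ x ∈ cp p j, X x = 0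

theorem sys (h : Dec B ρ p bar) (hB : ∀ g x y, B (ρ g x) (ρ g y) = μ g * B x y) (i : I) :
    Pool.Agent.W522.U.Sys (rep h i) (PP S B ρ σ p bar i) where
  ker u φ hP := hP.1
  zero u := ⟨rfl, 0, Submodule.zero_mem _, fun x => by
    rw [LinearMap.zero_apply, LinearMap.zero_apply, zero_smul], fun _ _ _ _ _ => rfl⟩
  add := by
    rintro u φ φ' ⟨h1, X, hX, hX1, hX2⟩ ⟨h1', X', hX', hX1', hX2'⟩
    refine ⟨by rw [LinearMap.add_apply, h1, h1', add_zero], X + X', Submodule.add_mem _ hX hX',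
      fun x => ?_, fun j hj hj' x hx => ?_⟩
    · rw [LinearMap.add_apply, hX1, hX1', LinearMap.add_apply, add_smul]
    · rw [LinearMap.add_apply, hX2 j hj hj' x hx, hX2' j hj hj' x hx, add_zero]
  smul := by
    rintro c u φ ⟨h1, X, hX, hX1, hX2⟩
    refine ⟨by rw [LinearMap.smul_apply, h1, smul_zero], c • X, Submodule.smul_mem _ _ hX,
      fun x => ?_, fun j hj hj' x hx => ?_⟩
    · rw [LinearMap.smul_apply, hX1, LinearMap.smul_apply, smul_assoc]
    · rw [LinearMap.smul_apply, hX2 j hj hj' x hx, smul_zero]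
  addu := by
    rintro u u' φ ⟨h1, X, hX, hX1, hX2⟩ ⟨h1', X', hX', hX1', hX2'⟩
    refine ⟨by rw [map_add, h1, h1', add_zero], X + X', Submodule.add_mem _ hX hX',
      fun x => ?_, fun j hj hj' x hx => ?_⟩
    · rw [LinearMap.add_apply, hX1, hX1', Submodule.coe_add, smul_add]
    · rw [LinearMap.add_apply, hX2 j hj hj' x hx, hX2' j hj hj' x hx, add_zero]
  smulu := by
    rintro c u φ ⟨h1, X, hX, hX1, hX2⟩
    refine ⟨by rw [map_smul, h1, smul_zero], c • X, Submodule.smul_mem _ _ hX,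
      fun x => ?_, fun j hj hj' x hx => ?_⟩
    · rw [LinearMap.smul_apply, hX1, Submodule.coe_smul, smul_comm]
    · rw [LinearMap.smul_apply, hX2 j hj hj' x hx, smul_zero]
  exp := by
    rintro u φ v ψ ⟨h1, X, hX, hX1, hX2⟩ ⟨h1', Y, hY, hY1, hY2⟩
    have hZ1 : X ∘ₗ Y - Y ∘ₗ X ∈ LC S B ρ σ p := LC_bracket hX hY
    refine ⟨?_, Y + (X ∘ₗ Y - Y ∘ₗ X) + (2 : K)⁻¹ • (X ∘ₗ (X ∘ₗ Y - Y ∘ₗ X) -
      (X ∘ₗ Y - Y ∘ₗ X) ∘ₗ X), Submodule.add_mem _ (Submodule.add_mem _ hY hZ1)
        (Submodule.smul_mem _ _ (LC_bracket hX hZ1)), fun x => ?_, fun j hj hj' x hx => ?_⟩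
    · rw [LinearMap.sub_apply, LinearMap.smul_apply, map_add, map_add, map_smul, map_smul, h1, h1']
      simp only [smul_eq_mul]
      ring
    · have hcomm : ∀ x : cp p i, (X ∘ₗ Y - Y ∘ₗ X) (x : T) =
          (ψ x * φ v) • (u : T) - (φ x * ψ u) • (v : T) := by
        intro x
        rw [LinearMap.sub_apply, LinearMap.comp_apply, LinearMap.comp_apply, hX1, hY1, map_smul,
          map_smul, hX1, hY1, smul_smul, smul_smul]
      have hkey : (Y + (X ∘ₗ Y - Y ∘ₗ X) + (2 : K)⁻¹ • (X ∘ₗ (X ∘ₗ Y - Y ∘ₗ X) -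
          (X ∘ₗ Y - Y ∘ₗ X) ∘ₗ X)) (x : T) = Y x + (X ∘ₗ Y - Y ∘ₗ X) (x : T) +
          (2 : K)⁻¹ • (X ((X ∘ₗ Y - Y ∘ₗ X) (x : T)) - (X ∘ₗ Y - Y ∘ₗ X) (X x)) := rfl
      rw [hkey, hcomm, hX1, hY1, map_sub, map_smul, map_smul, map_smul, hX1, hX1, hcomm, h1]
      simp only [LinearMap.sub_apply, LinearMap.smul_apply, smul_eq_mul, Submodule.coe_add,
        Submodule.coe_smul]
      match_scalars
      · ring
      · ring
    · have hXx := hX2 j hj hj' x hx
      have hYx := hY2 j hj hj' x hx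
      simp only [LinearMap.add_apply, LinearMap.smul_apply, LinearMap.sub_apply,
        LinearMap.comp_apply, hXx, hYx, map_zero, sub_self, add_zero, smul_zero]
  conj := by
    rintro g u φ ⟨h1, X, hX, hX1, hX2⟩
    refine ⟨?_, _, LC_conj h hB hX g, fun x => ?_, fun j hj hj' x hx => ?_⟩
    · rw [LinearMap.comp_apply]
      have h2 : rep h i g⁻¹ (rep h i g u) = u := Subtype.ext (rho_inv' ρ g (u : T))
      rw [h2, h1]
    · have h2 := hX1 (rep h i g⁻¹ x)
      rw [rep_apply] at h2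
      rw [LinearMap.comp_apply, LinearMap.comp_apply, h2, map_smul, rep_apply]
      rfl
    · rw [LinearMap.comp_apply, LinearMap.comp_apply, hX2 j hj hj' _ (h.stable j g⁻¹ hx), map_zero]

theorem rep_irr (h : Dec B ρ p bar) {i : I} (hU : SIon ρ (cp p i)) :
    Pool.Agent.W522.U.Irr (rep h i) := by
  intro Δ hΔ W hW
  rcases hU Δ hΔ (W.map (cp p i).subtype) (Submodule.map_subtype_le _ _) (by
    rintro g hg _ ⟨x, hx, rfl⟩
    exact ⟨rep h i g x, hW g hg x hx, rfl⟩) with h1 | h1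
  · left
    rw [eq_bot_iff]
    intro x hx
    have h2 : (x : T) ∈ W.map (cp p i).subtype := ⟨x, hx, rfl⟩
    rw [h1, Submodule.mem_bot] at h2
    exact (Submodule.mem_bot _).2 (Subtype.ext h2)
  · right
    rw [eq_top_iff]
    intro x _
    have h2 : (x : T) ∈ W.map (cp p i).subtype := by
      rw [h1]
      exact x.2
    obtain ⟨y, hy, hyx⟩ := h2
    have h3 : y = x := Subtype.ext hyx
    rwa [h3] at hy

/-- A complex reflection does not preserve a symplectic form up to scalars. -/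
theorem no_form (h : Dec B ρ p bar) {i : I} (h3 : 3 ≤ Module.finrank K (cp p i)) {g : G} {d : T}
    {φ : T →ₗ[K] K} {ε : K} (hr : Refl ρ (cp p i) g d φ ε) (hε : ε ≠ 1)
    {β : cp p i →ₗ[K] Module.Dual K (cp p i)} {ψ : G → K} (h1 : ∀ u, β u u = 0)
    (h2 : Function.Injective β) (h4 : ∀ g u v, β (rep h i g u) (rep h i g v) = ψ g * β u v) :
    False := by
  let φ' : cp p i →ₗ[K] K := φ ∘ₗ (cp p i).subtype
  let d' : cp p i := ⟨d, hr.mem⟩
  have hd' : φ' d' = 1 := hr.val
  have hact : ∀ u, rep h i g u = u + ((ε - 1) * φ' u) • d' := fun u => Subtype.ext (hr.act u u.2)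
  have hdec : ∀ (b : Module.Dual K (cp p i)), (∀ y, φ' y = 0 → b y = 0) → ∀ y, b y = φ' y * b d' := by
    intro b hb y
    have h5 := hb (y - φ' y • d') (by
      rw [map_sub, map_smul, hd', smul_eq_mul, mul_one, sub_self])
    rw [map_sub, map_smul, smul_eq_mul, sub_eq_zero] at h5
    exact h5
  obtain ⟨x, y, hx, hy, hxy⟩ : ∃ x y, φ' x = 0 ∧ φ' y = 0 ∧ β x y ≠ 0 := by
    by_contra hcon
    push Not at hcon
    let b : LinearMap.ker φ' →ₗ[K] K := (LinearMap.flip β d') ∘ₗ (LinearMap.ker φ').subtype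
    have hinj : Function.Injective b := by
      rw [injective_iff_map_eq_zero]
      intro x hx
      have hx' : β x d' = 0 := hx
      apply Subtype.ext
      apply h2
      rw [Submodule.coe_zero, map_zero]
      apply LinearMap.ext
      intro y
      rw [hdec (β x) (fun y hy => hcon x y x.2 hy), hx', mul_zero]
      rfl
    have h5 := LinearMap.finrank_le_finrank_of_injective hinj
    rw [Module.finrank_self] at h5
    have h6 := LinearMap.finrank_range_add_finrank_ker φ'
    have h7 : Module.finrank K (LinearMap.range φ') ≤ 1 := by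
      rw [← Module.finrank_self K]
      exact Submodule.finrank_le _
    omega
  have hgx : rep h i g x = x := by rw [hact, hx, mul_zero, zero_smul, add_zero]
  have hgy : ∀ y, φ' y = 0 → rep h i g y = y := fun y hy => by
    rw [hact, hy, mul_zero, zero_smul, add_zero]
  have hψ : ψ g = 1 := by
    have h5 := h4 g x y
    rw [hgx, hgy y hy] at h5
    have h6 : (ψ g - 1) * β x y = 0 := by linear_combination -h5
    exact sub_eq_zero.1 ((mul_eq_zero.1 h6).resolve_right hxy)
  have hgd : rep h i g d' = ε • d' := by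
    rw [hact, hd', mul_one]
    module
  have hβd : ∀ y, φ' y = 0 → β d' y = 0 := by
    intro y hy
    have h5 := h4 g d' y
    rw [hgd, hgy y hy, hψ, one_mul, map_smul, LinearMap.smul_apply, smul_eq_mul] at h5
    have h6 : (ε - 1) * β d' y = 0 := by linear_combination h5
    exact (mul_eq_zero.1 h6).resolve_left (sub_ne_zero.2 hε)
  have hβ0 : β d' = 0 := by
    apply LinearMap.ext
    intro y
    rw [hdec _ hβd, h1, mul_zero]
    rfl
  have h5 : d' = 0 := h2 (by rw [hβ0, map_zero])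
  exact hr.ne (congrArg Subtype.val h5)

/-- **All operators of rank one.** -/
theorem all_rank_one (hK : FewRootsOfUnity K) (h : Dec B ρ p bar)
    (hnd : ∀ x, (∀ y, B x y = 0) → x = 0)
    (hB : ∀ g x y, B (ρ g x) (ρ g y) = μ g * B x y) {i : I} (hU : SIon ρ (cp p i))
    (h3 : 3 ≤ Module.finrank K (cp p i)) (hr : HasRefl ρ p bar μ σ i) (u : cp p i)
    (φ : Module.Dual K (cp p i)) (hu : φ u = 0) : PP S B ρ σ p bar i u φ := by
  have hne : ∃ u φ, u ≠ 0 ∧ φ ≠ 0 ∧ PP S B ρ σ p bar i u φ := by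
    obtain ⟨u, ψ, X, hu, hu0, ⟨x, hx, hψx⟩, hψu, hX, hX1, hX2⟩ :=
      rank_one (S := S) (E := E) hK h hnd hB hU (by omega) hr
    refine ⟨⟨u, hu⟩, ψ ∘ₗ (cp p i).subtype, fun h => hu0 (congrArg Subtype.val h), fun h => ?_,
      hψu, X, hX, fun x => hX1 x x.2, hX2⟩
    exact hψx (LinearMap.congr_fun h ⟨x, hx⟩)
  rcases Pool.Agent.W522.U.main (sys (S := S) (σ := σ) h hB i) (rep_irr h hU) hne with
    ⟨-, h1⟩ | ⟨β, ψ, h1, h2, -, h4⟩
  · exact h1 u φ hu
  · obtain ⟨g, d, φ', ε, k, -, -, -, href, -, hi1, -, -⟩ := hr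
    exact (no_form h h3 (href i) hi1 h1 h2 h4).elim

/-- **All operators of rank one**, in terms of the form. -/
theorem rk_mem (hK : FewRootsOfUnity K) (h : Dec B ρ p bar) {s : K}
    (hsy : ∀ x y, B x y = s * B y x) (hnd : ∀ x, (∀ y, B x y = 0) → x = 0)
    (hB : ∀ g x y, B (ρ g x) (ρ g y) = μ g * B x y) {i : I} (hU : SIon ρ (cp p i))
    (h3 : 3 ≤ Module.finrank K (cp p i)) (hr : HasRefl ρ p bar μ σ i) {u w : T} (hu : u ∈ cp p i)
    (hw : w ∈ cp p (bar i)) (huw : B w u = 0) : rk B w u - s • rk B u w ∈ LC S B ρ σ p := by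
  obtain ⟨-, X, hX, hX1, hX2⟩ := all_rank_one (S := S) (E := E) hK h hnd hB hU h3 hr ⟨u, hu⟩
    ((B w) ∘ₗ (cp p i).subtype) huw
  have h1 : rk B w u - s • rk B u w = X := by
    apply LinearMap.ext
    intro y
    rw [LinearMap.sub_apply, LinearMap.smul_apply, rk_apply, rk_apply, smul_smul]
    have h4 : X y = X (p i y) + X (p (bar i) y) := by
      conv_lhs => rw [← h.sum y, map_sum]
      rw [← Finset.add_sum_erase _ _ (Finset.mem_univ i), ← Finset.add_sum_erase _ _
        (Finset.mem_erase.2 ⟨h.bar_ne i, Finset.mem_univ (bar i)⟩), Finset.sum_eq_zero, add_zero]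
      intro j hj
      rw [Finset.mem_erase, Finset.mem_erase] at hj
      exact hX2 j hj.2.1 hj.1 _ ⟨y, rfl⟩
    have h5 : X (p i y) = B w y • u := by
      have h6 := hX1 ⟨p i y, ⟨y, rfl⟩⟩
      have h7 : B w (p i y) = B w y := by
        rw [h.pair hw y, h.bar_bar]
      rw [← h7]
      exact h6
    have h6 : X (p (bar i) y) = -((s * B u y) • w) := by
      apply eq_neg_of_add_eq_zero_left
      apply hnd
      intro x
      have hz : X (p (bar i) y) ∈ cp p (bar i) := LC_stable h hX (bar i) ⟨y, rfl⟩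
      have h7 := hX.1.1 (p (bar i) y) (p i x)
      have h8 : X (p i x) = B w x • u := by
        have h6 := hX1 ⟨p i x, ⟨x, rfl⟩⟩
        have h7 : B w (p i x) = B w x := by
          rw [h.pair hw x, h.bar_bar]
        rw [← h7]
        exact h6
      have h9 : B (X (p (bar i) y)) x = B (X (p (bar i) y)) (p i x) := by
        rw [h.pair hz x, h.bar_bar]
      have h10 : B (p (bar i) y) u = B y u := by
        rw [h.adj, h.bar_bar, h.mem.1 hu]
      rw [h8, map_smul, smul_eq_mul, h10] at h7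
      rw [map_add, LinearMap.add_apply, h9, map_smul, LinearMap.smul_apply, smul_eq_mul]
      rw [hsy y u] at h7
      linear_combination h7
    rw [h4, h5, h6, sub_eq_add_neg]
  rw [h1]
  exact hX

end Pool.Agent.N174.Cyc
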