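import Pool.Agent.N174.Cyc.Bas
import Pool.Agent.H204R3.GP.FFT
import Pool.Agent.N174.Lef.Ext

/-!
# The first fundamental theorem for products of general linear groups
-/

open Finset Function

set_option linter.unusedSectionVars false

namespace Pool.Agent.N174.Cyc

open Pool.Agent.TH125.Gal Pool.Agent.N174.Lef

universe u v w x

/-- the indices of the basis -/
def RR {I : Type} (dm : I → ℕ) : Type := {x : I × ℕ // x.2 < dm x.1}

instance {I : Type} [DecidableEq I] (dm : I → ℕ) : DecidableEq (RR dm) :=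
  inferInstanceAs (DecidableEq {x : I × ℕ // x.2 < dm x.1})

instance {I : Type} [Fintype I] (dm : I → ℕ) : Fintype (RR dm) :=
  Fintype.ofEquiv (Σ i, Fin (dm i))
    { toFun := fun x => ⟨(x.1, x.2), x.2.2⟩
      invFun := fun x => ⟨x.1.1, ⟨x.1.2, x.2⟩⟩
      left_inv := fun _ => rfl
      right_inv := fun _ => rfl }

variable {K : Type u} [Field K] [CharZero K] {T : Type v} [AddCommGroup T] [Module K T]
  [FiniteDimensional K T]
  {G : Type x} [Group G] {I : Type} [Fintype I] [DecidableEq I]
  {B : T →ₗ[K] T →ₗ[K] K} {ρ : G →* (T →ₗ[K] T)} {p : I → (T →ₗ[K] T)} {bar : I → I}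
  {S : Type} [Fintype S] [DecidableEq S]

/-- adapted bases -/
structure Adp (B : T →ₗ[K] T →ₗ[K] K) (p : I → (T →ₗ[K] T)) (bar : I → I) (s : K) (dm : I → ℕ)
    (bb : I → ℕ → T) (gc jc : I → K) : Prop where
  dm_bar : ∀ i, dm (bar i) = dm i
  mem : ∀ i a, bb i a ∈ cp p i
  gram : ∀ i a b, a < dm i → b < dm i → B (bb i a) (bb (bar i) b) = if a = b then gc i else 0
  gc_ne : ∀ i, gc i ≠ 0
  gc_bar : ∀ i, gc (bar i) = s * gc i
  jc_ne : ∀ i, jc i ≠ 0
  jc_bar : ∀ i, jc (bar i) = -jc i
  span : ∀ i, ∀ y ∈ cp p i, y ∈ Submodule.span K {z | ∃ a, a < dm i ∧ z = bb i a}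

variable {s : K} {dm : I → ℕ} {bb : I → ℕ → T} {gc jc : I → K}

/-- the involution -/
def iv (hd : Adp B p bar s dm bb gc jc) (x : RR dm) : RR dm :=
  ⟨(bar x.1.1, x.1.2), by
    have := x.2
    rw [hd.dm_bar]
    exact this⟩

/-- the basis vectors -/
def vv (bb : I → ℕ → T) (x : RR dm) : T := bb x.1.1 x.1.2

section

variable (h : Dec B ρ p bar) (hd : Adp B p bar s dm bb gc jc)

include h in
theorem iv_iv (x : RR dm) : iv hd (iv hd x) = x := by
  apply Subtype.ext
  change (bar (bar x.1.1), x.1.2) = x.1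
  rw [h.bar_bar]

include h in
theorem iv_ne (x : RR dm) : iv hd x ≠ x := by
  intro hx
  exact h.bar_ne x.1.1 (congrArg (fun z : RR dm => z.1.1) hx)

include h in
theorem eq_iv {x y : RR dm} : y = iv hd x ↔ x = iv hd y := by
  constructor
  · rintro rfl
    rw [iv_iv h]
  · rintro rfl
    rw [iv_iv h]

include h hd in
theorem gram_vv (x y : RR dm) : B (vv bb x) (vv bb y) = if y = iv hd x then gc x.1.1 else 0 := by
  by_cases hxy : y.1.1 = bar x.1.1
  · have h1 : y.1.2 < dm x.1.1 := by
      have := y.2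
      rw [hxy, hd.dm_bar] at this
      exact this
    change B (bb x.1.1 x.1.2) (bb y.1.1 y.1.2) = _
    rw [hxy, hd.gram _ _ _ x.2 h1]
    by_cases hab : x.1.2 = y.1.2
    · rw [if_pos hab, if_pos]
      exact Subtype.ext (Prod.ext hxy hab.symm)
    · rw [if_neg hab, if_neg]
      intro h2
      exact hab (congrArg (fun z : RR dm => z.1.2) h2).symm
  · rw [if_neg (fun h2 => hxy (congrArg (fun z : RR dm => z.1.1) h2))]
    change B (bb x.1.1 x.1.2) (bb y.1.1 y.1.2) = _
    rw [h.pair (hd.mem x.1.1 x.1.2), h.ne_zero (hd.mem y.1.1 y.1.2) (Ne.symm hxy), map_zero]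

include h in
theorem p_vv (i : I) (x : RR dm) (hd : Adp B p bar s dm bb gc jc) :
    p i (vv bb x) = if x.1.1 = i then vv bb x else 0 := by
  split_ifs with hx
  · subst hx
    exact h.mem.1 (hd.mem _ _)
  · exact h.ne_zero (hd.mem x.1.1 x.1.2) (Ne.symm hx)

include h hd in
theorem exists_basis : ∃ 𝔅 : Module.Basis (RR dm) K T, ∀ x, 𝔅 x = vv bb x := by
  have hli : LinearIndependent K (fun x : RR dm => vv bb x) := by
    rw [Fintype.linearIndependent_iff]
    intro c hc x
    have h1 := congrArg (fun z => B z (vv bb (iv hd x))) hc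
    beta_reduce at h1
    rw [map_sum, LinearMap.sum_apply, map_zero, LinearMap.zero_apply, Finset.sum_eq_single x] at h1
    · rw [map_smul, LinearMap.smul_apply, gram_vv h hd, if_pos rfl, smul_eq_mul] at h1
      exact (mul_eq_zero.1 h1).resolve_right (hd.gc_ne _)
    · intro y _ hy
      rw [map_smul, LinearMap.smul_apply, gram_vv h hd, if_neg, smul_zero]
      intro h2
      have h3 := (eq_iv h hd).1 h2
      rw [iv_iv h] at h3
      exact hy h3
    · intro h2
      exact absurd (Finset.mem_univ _) h2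
  have hsp : ⊤ ≤ Submodule.span K (Set.range fun x : RR dm => vv bb x) := by
    intro y _
    rw [← h.sum y]
    refine Submodule.sum_mem _ fun i _ => ?_
    refine Submodule.span_mono ?_ (hd.span i (p i y) ⟨y, rfl⟩)
    rintro _ ⟨a, ha, rfl⟩
    exact ⟨⟨(i, a), ha⟩, rfl⟩
  exact ⟨Module.Basis.mk hli hsp, fun x => Module.Basis.mk_apply hli hsp x⟩

end

section kill

variable (h : Dec B ρ p bar) (hd : Adp B p bar s dm bb gc jc) (hs : s * s = 1)
  {L : Submodule K (T →ₗ[K] T)}
  (hL : ∀ i, ∀ u ∈ cp p i, ∀ w ∈ cp p (bar i), B w u = 0 → rk B w u - s • rk B u w ∈ L)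
  (hbr : ∀ X ∈ L, ∀ Y ∈ L, X ∘ₗ Y - Y ∘ₗ X ∈ L)
  {f : MultilinearMap K (fun _ : S => T) K} (hf : ∀ X ∈ L, Kill X f)

/-- the coefficients -/
def co (bb : I → ℕ → T) (f : MultilinearMap K (fun _ : S => T) K) (r : S → RR dm) : K :=
  f fun k => vv bb (r k)

theorem co_update (r : S → RR dm) (k : S) (c : RR dm) :
    f (update (fun k => vv bb (r k)) k (vv bb c)) = co bb f (update r k c) := by
  rw [co]
  congr 1
  funext j
  by_cases hj : j = k
  · subst hj
    rw [update_self, update_self]
  · rw [update_of_ne hj, update_of_ne hj]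

include h hd hs in
theorem op_vv {b c : RR dm} (hbc : b.1.1 = bar c.1.1) (y : RR dm) :
    (rk B (vv bb b) (vv bb c) - s • rk B (vv bb c) (vv bb b)) (vv bb y) =
      gc b.1.1 • ((if y = iv hd b then (1 : K) else 0) • vv bb c -
        (if y = iv hd c then (1 : K) else 0) • vv bb b) := by
  rw [LinearMap.sub_apply, LinearMap.smul_apply, rk_apply, rk_apply, gram_vv h hd, gram_vv h hd]
  have h1 : s * gc c.1.1 = gc b.1.1 := by rw [hbc, hd.gc_bar]
  by_cases hy1 : y = iv hd b <;> by_cases hy2 : y = iv hd c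
  · rw [if_pos hy1, if_pos hy2, if_pos hy1, if_pos hy2, smul_smul, h1]
    module
  · rw [if_pos hy1, if_neg hy2, if_pos hy1, if_neg hy2]
    module
  · rw [if_neg hy1, if_pos hy2, if_neg hy1, if_pos hy2, smul_smul, h1]
    module
  · rw [if_neg hy1, if_neg hy2, if_neg hy1, if_neg hy2]
    module

include h hd hL in
theorem op_mem {b c : RR dm} (hbc : b.1.1 = bar c.1.1) (hne : c ≠ iv hd b) :
    rk B (vv bb b) (vv bb c) - s • rk B (vv bb c) (vv bb b) ∈ L := by
  refine hL c.1.1 (vv bb c) (hd.mem c.1.1 c.1.2) (vv bb b) (by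
    rw [← hbc]
    exact hd.mem b.1.1 b.1.2) ?_
  rw [gram_vv h hd, if_neg hne]

include h hd hs hL hf in
theorem kill1 {b c : RR dm} (hbc : b.1.1 = bar c.1.1) (hne : c ≠ iv hd b) (r : S → RR dm) :
    ∑ k, ((if r k = iv hd b then (1 : K) else 0) * co bb f (update r k c) -
      (if r k = iv hd c then (1 : K) else 0) * co bb f (update r k b)) = 0 := by
  have h1 := hf _ (op_mem h hd hL hbc hne) (fun k => vv bb (r k))
  have h2 : ∀ k, f (update (fun k => vv bb (r k)) k
      ((rk B (vv bb b) (vv bb c) - s • rk B (vv bb c) (vv bb b)) (vv bb (r k)))) =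
      gc b.1.1 * ((if r k = iv hd b then (1 : K) else 0) * co bb f (update r k c) -
      (if r k = iv hd c then (1 : K) else 0) * co bb f (update r k b)) := by
    intro k
    rw [op_vv h hd hs hbc, MultilinearMap.map_update_smul, MultilinearMap.map_update_sub,
      MultilinearMap.map_update_smul, MultilinearMap.map_update_smul, co_update, co_update]
    rfl
  rw [Finset.sum_congr rfl fun k _ => h2 k, ← Finset.mul_sum] at h1
  exact (mul_eq_zero.1 h1).resolve_left (hd.gc_ne _)

/-- the number of occurrences -/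
def cnt (r : S → RR dm) (x : RR dm) : ℕ := (univ.filter fun k => r k = x).card

theorem sum_cnt (r : S → RR dm) (x : RR dm) :
    ∑ k, (if r k = x then (1 : K) else 0) = (cnt r x : K) := by
  rw [cnt, Finset.sum_boole]

include h hd hs hL hbr hf in
theorem kill2 {c c' : RR dm} (hcc : c'.1.1 = c.1.1) (hne : c ≠ c') (r : S → RR dm) :
    ((cnt r c : K) + cnt r (iv hd c') - cnt r c' - cnt r (iv hd c)) * co bb f r = 0 := by
  have e1 : (iv hd c').1.1 = bar c.1.1 := by
    change bar c'.1.1 = bar c.1.1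
    rw [hcc]
  have e2 : (iv hd c).1.1 = bar c'.1.1 := by
    change bar c.1.1 = bar c'.1.1
    rw [hcc]
  have hX1 := op_mem (b := iv hd c') (c := c) h hd hL e1 (by rw [iv_iv h]; exact hne)
  have hX2 := op_mem (b := iv hd c) (c := c') h hd hL e2 (by rw [iv_iv h]; exact hne.symm)
  have hn1 : c' ≠ iv hd c := by
    intro h1
    have h2 := congrArg (fun z : RR dm => z.1.1) h1
    change c'.1.1 = bar c.1.1 at h2
    rw [hcc] at h2
    exact h.bar_ne _ h2.symm
  have hn2 : c ≠ iv hd c' := by
    intro h1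
    have h2 := congrArg (fun z : RR dm => z.1.1) h1
    change c.1.1 = bar c'.1.1 at h2
    rw [hcc] at h2
    exact h.bar_ne _ h2.symm
  have hn3 : iv hd c ≠ iv hd c' := fun h1 => hne (by rw [← iv_iv h hd c, h1, iv_iv h])
  set X1 := rk B (vv bb (iv hd c')) (vv bb c) - s • rk B (vv bb c) (vv bb (iv hd c')) with hX1d
  set X2 := rk B (vv bb (iv hd c)) (vv bb c') - s • rk B (vv bb c') (vv bb (iv hd c)) with hX2d
  have hg : gc (iv hd c).1.1 = gc (iv hd c').1.1 := by
    change gc (bar c.1.1) = gc (bar c'.1.1)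
    rw [hcc]
  set γ := gc (iv hd c').1.1 with hγ
  have hop1 : ∀ y : RR dm, X1 (vv bb y) = γ • ((if y = c' then (1 : K) else 0) • vv bb c -
        (if y = iv hd c then (1 : K) else 0) • vv bb (iv hd c')) := by
    intro y
    have h1 := op_vv (b := iv hd c') (c := c) h hd hs e1 y
    rw [iv_iv h] at h1
    exact h1
  have hop2 : ∀ y : RR dm, X2 (vv bb y) = γ • ((if y = c then (1 : K) else 0) • vv bb c' -
        (if y = iv hd c' then (1 : K) else 0) • vv bb (iv hd c)) := by
    intro y
    have h1 := op_vv (b := iv hd c) (c := c') h hd hs e2 y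
    rw [iv_iv h, hg] at h1
    exact h1
  have hZ : ∀ y : RR dm, (X1 ∘ₗ X2 - X2 ∘ₗ X1) (vv bb y) = (γ * γ * ((if y = c then (1 : K) else 0) +
      (if y = iv hd c' then (1 : K) else 0) - (if y = c' then (1 : K) else 0) -
      (if y = iv hd c then (1 : K) else 0))) • vv bb y := by
    intro y
    rw [LinearMap.sub_apply, LinearMap.comp_apply, LinearMap.comp_apply, hop1, hop2, map_smul,
      map_smul, map_sub, map_sub, map_smul, map_smul, map_smul, map_smul, hop1, hop1, hop2, hop2]
    by_cases y1 : y = c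
    · subst y1
      simp only [if_true, if_neg hne, if_neg hn2, if_neg (iv_ne h hd _).symm, if_neg hn1,
        if_neg hne.symm]
      module
    by_cases y2 : y = iv hd c'
    · subst y2
      simp only [if_true, if_neg (Ne.symm hn2), if_neg (iv_ne h hd _), if_neg hn3.symm,
        if_neg hn1.symm, if_neg hn3, if_neg y1]
      module
    by_cases y3 : y = c'
    · subst y3
      simp only [if_true, if_neg y1, if_neg y2, if_neg hn1, if_neg hn2, if_neg hne]
      module
    by_cases y4 : y = iv hd c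
    · subst y4
      simp only [if_true, if_neg y1, if_neg y2, if_neg y3, if_neg hn2.symm, if_neg hn3.symm]
      module
    simp only [if_neg y1, if_neg y2, if_neg y3, if_neg y4]
    module
  have h1 := hf _ (hbr _ hX1 _ hX2) (fun k => vv bb (r k))
  have h2 : ∀ k, f (update (fun k => vv bb (r k)) k ((X1 ∘ₗ X2 - X2 ∘ₗ X1) (vv bb (r k)))) =
      (γ * γ) * (((if r k = c then (1 : K) else 0) +
      (if r k = iv hd c' then (1 : K) else 0) - (if r k = c' then (1 : K) else 0) -
      (if r k = iv hd c then (1 : K) else 0)) * co bb f r) := by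
    intro k
    rw [hZ, MultilinearMap.map_update_smul, update_eq_self, smul_eq_mul, mul_assoc]
    rfl
  rw [Finset.sum_congr rfl fun k _ => h2 k, ← Finset.mul_sum, ← Finset.sum_mul,
    Finset.sum_sub_distrib, Finset.sum_sub_distrib, Finset.sum_add_distrib, sum_cnt, sum_cnt,
    sum_cnt, sum_cnt] at h1
  exact (mul_eq_zero.1 h1).resolve_left (mul_ne_zero (hd.gc_ne _) (hd.gc_ne _))

include h hd hs hL hbr hf in
theorem kill3 (hcard : ∀ i, Fintype.card S < dm i) {r : S → RR dm} (hr : co bb f r ≠ 0)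
    (c : RR dm) : cnt r c = cnt r (iv hd c) := by
  classical
  obtain ⟨a, ha, hna⟩ : ∃ a, a < dm c.1.1 ∧ ∀ k, (r k).1.2 ≠ a := by
    by_contra hcon
    push Not at hcon
    have h1 : Finset.range (dm c.1.1) ⊆ univ.image fun k => (r k).1.2 := by
      intro a ha
      obtain ⟨k, hk⟩ := hcon a (Finset.mem_range.1 ha)
      exact Finset.mem_image.2 ⟨k, Finset.mem_univ _, hk⟩
    have h2 := Finset.card_le_card h1
    rw [Finset.card_range] at h2
    have h3 := Finset.card_image_le (s := (univ : Finset S)) (f := fun k => (r k).1.2)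
    rw [Finset.card_univ] at h3
    have h4 := hcard c.1.1
    omega
  let c' : RR dm := ⟨(c.1.1, a), ha⟩
  have h0 : cnt r c' = 0 := by
    rw [cnt, Finset.card_eq_zero, Finset.filter_eq_empty_iff]
    intro k _ hk
    exact hna k (congrArg (fun z : RR dm => z.1.2) hk)
  have h0' : cnt r (iv hd c') = 0 := by
    rw [cnt, Finset.card_eq_zero, Finset.filter_eq_empty_iff]
    intro k _ hk
    exact hna k (congrArg (fun z : RR dm => z.1.2) hk)
  by_cases hc : c = c'
  · rw [hc, h0, h0']
  · have h1 := kill2 (c := c) (c' := c') h hd hs hL hbr hf rfl hc r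
    have h2 := (mul_eq_zero.1 h1).resolve_right hr
    rw [h0, h0'] at h2
    have h3 : (cnt r c : K) = cnt r (iv hd c) := by
      push_cast at h2
      linear_combination h2
    exact_mod_cast h3

/-- the twisted forms -/
noncomputable def twf (B : T →ₗ[K] T →ₗ[K] K) {m : ℕ} (A : Fin m → (T →ₗ[K] T))
    (e : Fin m × Fin 2 ≃ S) : MultilinearMap K (fun _ : S => T) K :=
  (mform B e).compLinearMap fun j => if (e.symm j).2 = 0 then A (e.symm j).1 else LinearMap.id

theorem twf_apply (B : T →ₗ[K] T →ₗ[K] K) {m : ℕ} (A : Fin m → (T →ₗ[K] T))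
    (e : Fin m × Fin 2 ≃ S) (v : S → T) :
    twf B A e v = ∏ l, B (A l (v (e (l, 0)))) (v (e (l, 1))) := by
  rw [twf, MultilinearMap.compLinearMap_apply, mform_apply]
  refine Finset.prod_congr rfl fun l _ => ?_
  rw [Equiv.symm_apply_apply, Equiv.symm_apply_apply, if_pos rfl, if_neg one_ne_zero]
  rfl

open Pool.Agent.H204R3.GP Pool.Agent.H204R3.SP

include h hd hs hL hbr hf in
/-- **The theorem for forms of one type.** -/
theorem typed (hcard : ∀ i, Fintype.card S < dm i) (t : S → I)
    (ht : ∀ v, f (fun k => p (t k) (v k)) = f v) :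
    f ∈ Submodule.span K {φ | ∃ (m : ℕ) (e : Fin m × Fin 2 ≃ S) (c : Fin m → I),
      φ = twf B (fun l => p (c l)) e} := by
  classical
  obtain ⟨𝔅, h𝔅⟩ := exists_basis h hd
  let cls : RR dm → I := fun x => x.1.1
  let jj : RR dm → K := fun x => jc x.1.1
  have hsupp : ∀ r : S → RR dm, co bb f r ≠ 0 → ∀ k, cls (r k) = t k := by
    intro r hr k
    by_contra hk
    apply hr
    rw [co, ← ht]
    exact f.map_coord_zero k (by rw [p_vv h _ _ hd, if_neg hk])
  by_cases hF : ∀ r : S → RR dm, co bb f r = 0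
  · have h1 : f = 0 := by
      refine Module.Basis.ext_multilinear (fun _ => 𝔅) fun r => ?_
      simp only [h𝔅]
      exact hF r
    rw [h1]
    exact Submodule.zero_mem _
  push Not at hF
  obtain ⟨r0, hr0⟩ := hF
  -- parity
  obtain ⟨m, hm⟩ : ∃ m, Fintype.card S = 2 * m := by
    obtain ⟨H, hH⟩ := exists_half (I := RR dm) (bar := iv hd) (iv_iv h hd) (iv_ne h hd)
    have h1 : Fintype.card S = ∑ x : RR dm, cnt r0 x := by
      rw [← Finset.card_univ]
      exact Finset.card_eq_sum_card_fiberwise fun k _ => Finset.mem_coe.2 (Finset.mem_univ (r0 k))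
    have h2 : ∑ x ∈ univ.filter (fun x : RR dm => ¬ H x), cnt r0 x =
        ∑ x ∈ univ.filter (fun x : RR dm => H x), cnt r0 x := by
      refine Finset.sum_bij' (fun x _ => iv hd x) (fun x _ => iv hd x) ?_ ?_ ?_ ?_ ?_
      · intro x hx
        exact Finset.mem_filter.2 ⟨Finset.mem_univ _, (hH x).2 (Finset.mem_filter.1 hx).2⟩
      · intro x hx
        refine Finset.mem_filter.2 ⟨Finset.mem_univ _, fun h' => (hH x).1 h' ?_⟩
        exact (Finset.mem_filter.1 hx).2
      · intro x _
        exact iv_iv h hd x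
      · intro x _
        exact iv_iv h hd x
      · intro x _
        exact kill3 h hd hs hL hbr hf hcard hr0 x
    refine ⟨∑ x ∈ univ.filter (fun x : RR dm => H x), cnt r0 x, ?_⟩
    rw [h1, ← Finset.sum_filter_add_sum_filter_not univ (fun x : RR dm => H x), h2]
    ring
  have hinv : co bb f ∈ InvG cls (iv hd) jj S t := by
    refine ⟨fun b c hbc r => ?_, hsupp⟩
    have hbc' : bar b.1.1 = c.1.1 := hbc
    have hbc2 : b.1.1 = bar c.1.1 := by rw [← hbc', h.bar_bar]
    have hjj : jj c = -jj b := by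
      change jc c.1.1 = -jc b.1.1
      rw [← hbc', hd.jc_bar]
    by_cases hc : c = iv hd b
    · have h1 : ∀ k, JJ (iv hd) jj b (r k) * co bb f (update r k c) +
          JJ (iv hd) jj c (r k) * co bb f (update r k b) =
          jj b * (((if r k = c then (1 : K) else 0) - (if r k = b then (1 : K) else 0)) *
            co bb f r) := by
        intro k
        have hcb : b = iv hd c := (eq_iv h hd).1 hc
        rw [JJ, JJ, ← hc, ← hcb, hjj]
        by_cases hk1 : r k = c
        · have hk2 : r k ≠ b := by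
            rw [hk1, hcb]
            exact (iv_ne h hd c).symm
          rw [if_pos hk1, if_neg hk2, if_pos hk1, if_neg hk2, ← hk1, update_eq_self]
          ring
        · by_cases hk2 : r k = b
          · rw [if_neg hk1, if_pos hk2, if_neg hk1, if_pos hk2]
            nth_rewrite 2 [← hk2]
            rw [update_eq_self]
            ring
          · rw [if_neg hk1, if_neg hk2, if_neg hk1, if_neg hk2]
            ring
      rw [Finset.sum_congr rfl fun k _ => h1 k, ← Finset.mul_sum, ← Finset.sum_mul,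
        Finset.sum_sub_distrib, sum_cnt, sum_cnt]
      by_cases hr : co bb f r = 0
      · rw [hr, mul_zero, mul_zero]
      · have h2 := kill3 h hd hs hL hbr hf hcard hr b
        rw [← hc] at h2
        rw [h2, sub_self, zero_mul, mul_zero]
    · have h1 := kill1 h hd hs hL hf hbc2 hc r
      have h2 : ∀ k, JJ (iv hd) jj b (r k) * co bb f (update r k c) +
          JJ (iv hd) jj c (r k) * co bb f (update r k b) =
          jj b * ((if r k = iv hd b then (1 : K) else 0) * co bb f (update r k c) -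
      (if r k = iv hd c then (1 : K) else 0) * co bb f (update r k b)) := by
        intro k
        rw [JJ, JJ, hjj]
        split_ifs <;> ring
      rw [Finset.sum_congr rfl fun k _ => h2 k, ← Finset.mul_sum, h1, mul_zero]
  have hmat := fftG (cls := cls) (inv := iv hd) (jj := jj) (iv_iv h hd)
    (fun x => hd.jc_bar x.1.1) (fun x => hd.jc_ne x.1.1)
    (fun x y hxy => congrArg bar hxy) m S hm t hinv
  -- from coefficient functions to forms
  have key : ∀ F ∈ MatG cls (iv hd) jj S m, ∃ φ ∈ Submodule.span K {φ | ∃ (m : ℕ)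
      (e : Fin m × Fin 2 ≃ S) (c : Fin m → I), φ = twf B (fun l => p (c l)) e},
      ∀ r, F r = co bb φ r := by
    intro F hF
    induction hF using Submodule.span_induction with
    | mem F hF =>
      obtain ⟨e, c, rfl⟩ := hF
      refine ⟨(∏ l, jc (c l) * (gc (c l))⁻¹) • twf B (fun l => p (c l)) e,
        Submodule.smul_mem _ _ (Submodule.subset_span ⟨m, e, c, rfl⟩), fun r => ?_⟩
      change matG cls (iv hd) jj e c r = (∏ l, jc (c l) * (gc (c l))⁻¹) •
        twf B (fun l => p (c l)) e fun k => vv bb (r k)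
      rw [twf_apply, smul_eq_mul, ← Finset.prod_mul_distrib, matG]
      refine Finset.prod_congr rfl fun l _ => ?_
      rw [p_vv h _ _ hd]
      by_cases hcl : (r (e (l, 0))).1.1 = c l
      · rw [if_pos (show cls (r (e (l, 0))) = c l from hcl), if_pos hcl, JJ, gram_vv h hd]
        split_ifs
        · change jc (r (e (l, 0))).1.1 = _
          rw [hcl, inv_mul_cancel_right₀ (hd.gc_ne _)]
        · rw [mul_zero]
      · rw [if_neg (show ¬ cls (r (e (l, 0))) = c l from hcl), if_neg hcl, map_zero,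
          LinearMap.zero_apply, mul_zero]
    | zero => exact ⟨0, Submodule.zero_mem _, fun r => rfl⟩
    | add F F' _ _ hF hF' =>
      obtain ⟨φ, hφ, h1⟩ := hF
      obtain ⟨φ', hφ', h1'⟩ := hF'
      exact ⟨φ + φ', Submodule.add_mem _ hφ hφ', fun r => by
        rw [Pi.add_apply, h1, h1']
        rfl⟩
    | smul a F _ hF =>
      obtain ⟨φ, hφ, h1⟩ := hF
      exact ⟨a • φ, Submodule.smul_mem _ _ hφ, fun r => by
        rw [Pi.smul_apply, h1]
        rfl⟩
  obtain ⟨φ, hφ, h1⟩ := key _ hmat
  have h2 : f = φ := by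
    refine Module.Basis.ext_multilinear (fun _ => 𝔅) fun r => ?_
    simp only [h𝔅]
    exact h1 r
  rw [h2]
  exact hφ

end kill

end Pool.Agent.N174.Cyc
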