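import Pool.Agent.TH125.Gal.Grp
import Pool.Agent.H204R3.SP.Descent

/-!
# Multilinear forms invariant under one operator
-/

open Finset Function TensorProduct

set_option linter.unusedSectionVars false

namespace Pool.Agent.N174.Cyc

open Pool.Agent.TH125.Gal

universe u v w x

section gen

variable {Ω : Type u} [Field Ω] {V : Type v} [AddCommGroup V] [Module Ω V] {S : Type} [Fintype S]
  [DecidableEq S]

/-- An invariant multilinear form vanishes on generalized eigenvectors, if the product of the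
eigenvalues is not one. -/
theorem gen_zero (A : Module.End Ω V) (φ : MultilinearMap Ω (fun _ : S => V) Ω)
    (hφ : ∀ v, φ (fun j => A (v j)) = φ v) (b : S → Ω) (hb : ∏ j, b j ≠ 1) (N : ℕ) :
    ∀ (k : S → ℕ), ∑ j, k j = N → ∀ v : S → V,
      (∀ j, ((A - algebraMap Ω (Module.End Ω V) (b j)) ^ k j) (v j) = 0) → φ v = 0 := by
  induction N using Nat.strong_induction_on with
  | _ N ih =>
    intro k hk v hv
    by_cases h0 : ∃ j, k j = 0
    · obtain ⟨j, hj⟩ := h0
      have h1 := hv j
      rw [hj, pow_zero, Module.End.one_apply] at h1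
      exact φ.map_coord_zero j h1
    push Not at h0
    have h1 : φ v = (∏ j, b j) * φ v := by
      conv_lhs => rw [← hφ v]
      have h2 : (fun j => A (v j)) = (fun j => b j • v j) +
          fun j => (A - algebraMap Ω (Module.End Ω V) (b j)) (v j) := by
        funext j
        rw [Pi.add_apply, LinearMap.sub_apply, Module.algebraMap_end_apply]
        abel
      rw [h2, MultilinearMap.map_add_univ, Finset.sum_eq_single (univ : Finset S)]
      · rw [Finset.piecewise_univ, MultilinearMap.map_smul_univ, smul_eq_mul]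
      · intro s _ hs
        obtain ⟨j0, hj0⟩ : ∃ j, j ∉ s := by
          by_contra hcon
          push Not at hcon
          exact hs (Finset.eq_univ_of_forall hcon)
        refine ih (∑ j, if j ∈ s then k j else k j - 1) ?_ (fun j => if j ∈ s then k j else k j - 1)
          rfl _ fun j => ?_
        · rw [← hk]
          refine Finset.sum_lt_sum (fun j _ => ?_) ⟨j0, Finset.mem_univ _, ?_⟩
          · split_ifs
            · exact le_rfl
            · exact Nat.sub_le _ _
          · rw [if_neg hj0]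
            have := h0 j0
            omega
        · beta_reduce
          by_cases hj : j ∈ s
          · rw [if_pos hj, Finset.piecewise_eq_of_mem _ _ _ hj, map_smul, hv j, smul_zero]
          · rw [if_neg hj, Finset.piecewise_eq_of_notMem _ _ _ hj]
            have h3 := hv j
            have h4 : k j = k j - 1 + 1 := by
              have := h0 j
              omega
            rw [h4, pow_succ, Module.End.mul_apply] at h3
            exact h3
      · intro h
        exact absurd (Finset.mem_univ _) h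
    have h2 : (1 - ∏ j, b j) * φ v = 0 := by linear_combination h1
    exact (mul_eq_zero.1 h2).resolve_left (sub_ne_zero.2 (Ne.symm hb))

/-- The same for forms invariant under a power. -/
theorem gen_zero_pow (A : Module.End Ω V) {M : ℕ} (φ : MultilinearMap Ω (fun _ : S => V) Ω)
    (hφ : ∀ v, φ (fun j => (A ^ M) (v j)) = φ v) (b : S → Ω) (hb : (∏ j, b j) ^ M ≠ 1) (v : S → V)
    (hv : ∀ j, v j ∈ A.maxGenEigenspace (b j)) : φ v = 0 := by
  have h1 : ∀ j, ∃ k : ℕ, ((A - algebraMap Ω (Module.End Ω V) (b j)) ^ k) (v j) = 0 := by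
    intro j
    obtain ⟨k, hk⟩ := Module.End.mem_maxGenEigenspace A (b j) (v j) |>.1 (hv j)
    refine ⟨k, ?_⟩
    rw [← hk]
    congr 2
  choose k hk using h1
  refine gen_zero (A ^ M) φ hφ (fun j => b j ^ M) (by rwa [Finset.prod_pow]) _ k rfl v fun j => ?_
  have h2 : Commute A (algebraMap Ω (Module.End Ω V) (b j)) :=
    (Algebra.commutes (b j) A).symm
  have h3 : A ^ M - algebraMap Ω (Module.End Ω V) (b j ^ M) =
      (∑ i ∈ Finset.range M, A ^ i * algebraMap Ω (Module.End Ω V) (b j) ^ (M - 1 - i)) *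
        (A - algebraMap Ω (Module.End Ω V) (b j)) := by
    rw [map_pow]
    exact (h2.geom_sum₂_mul M).symm
  have h4 : Commute (∑ i ∈ Finset.range M, A ^ i *
      algebraMap Ω (Module.End Ω V) (b j) ^ (M - 1 - i))
        (A - algebraMap Ω (Module.End Ω V) (b j)) := by
    refine Commute.sum_left _ _ _ fun i _ => ?_
    refine Commute.mul_left (Commute.pow_left ?_ _) (Commute.pow_left ?_ _)
    · exact (Commute.refl A).sub_right h2
    · exact h2.symm.sub_right (Commute.refl _)
  rw [h3, h4.mul_pow, Module.End.mul_apply, hk j, map_zero]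

/-- the operator with given values on the generalized eigenspaces -/
theorem exists_op [IsAlgClosed Ω] [FiniteDimensional Ω V] (A : Module.End Ω V) (lam : Ω → Ω) :
    ∃ Y : Module.End Ω V, ∀ a, ∀ v ∈ A.maxGenEigenspace a, Y v = lam a • v := by
  classical
  have hint : DirectSum.IsInternal fun a : Ω => A.maxGenEigenspace a :=
    DirectSum.isInternal_submodule_of_iSupIndep_of_iSup_eq_top A.independent_maxGenEigenspace
      A.iSup_maxGenEigenspace_eq_top
  let e := LinearEquiv.ofBijective (DirectSum.coeLinearMap fun a : Ω => A.maxGenEigenspace a) hint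
  refine ⟨(DirectSum.toModule Ω Ω V fun a => lam a • (A.maxGenEigenspace a).subtype) ∘ₗ
    e.symm.toLinearMap, fun a v hv => ?_⟩
  have h1 : e.symm v = DirectSum.lof Ω Ω (fun a : Ω => A.maxGenEigenspace a) a ⟨v, hv⟩ := by
    rw [LinearEquiv.symm_apply_eq]
    exact (DirectSum.coeLinearMap_lof (fun a : Ω => A.maxGenEigenspace a) a ⟨v, hv⟩).symm
  rw [LinearMap.comp_apply, LinearEquiv.coe_coe, h1, DirectSum.toModule_lof]
  rfl

/-- a basis of generalized eigenvectors -/
theorem exists_gen_basis [IsAlgClosed Ω] [FiniteDimensional Ω V] (A : Module.End Ω V) :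
    ∃ (ι : Type v) (_ : Finite ι) (𝔟 : Module.Basis ι Ω V) (a : ι → Ω),
      ∀ i, 𝔟 i ∈ A.maxGenEigenspace (a i) := by
  classical
  let s : Set V := ⋃ a : Ω, (A.maxGenEigenspace a : Set V)
  have hs : ⊤ ≤ Submodule.span Ω s := by
    rw [← A.iSup_maxGenEigenspace_eq_top, iSup_le_iff]
    exact fun a x hx => Submodule.subset_span (Set.mem_iUnion.2 ⟨a, hx⟩)
  let 𝔟 := Module.Basis.ofSpan hs
  have h1 : ∀ i, ∃ a : Ω, 𝔟 i ∈ A.maxGenEigenspace a := by
    intro i
    have h2 : 𝔟 i ∈ s := Module.Basis.ofSpan_subset hs ⟨i, rfl⟩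
    exact Set.mem_iUnion.1 h2
  choose a ha using h1
  exact ⟨_, Module.Finite.finite_basis 𝔟, 𝔟, a, ha⟩

/-- a function with the properties of an additive character of the multiplicative group -/
def IsLog (lam : Ω → Ω) : Prop :=
  ∀ (S : Type) [Fintype S] (b : S → Ω) (M : ℕ), 1 ≤ M → (∏ j, b j) ^ M = 1 → ∑ j, lam (b j) = 0

theorem op_kill [IsAlgClosed Ω] [FiniteDimensional Ω V] (A : Module.End Ω V) {lam : Ω → Ω}
    (hlam : IsLog lam) {Y : Module.End Ω V}
    (hY : ∀ a, ∀ v ∈ A.maxGenEigenspace a, Y v = lam a • v)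
    {M : ℕ} (hM : 1 ≤ M) (φ : MultilinearMap Ω (fun _ : S => V) Ω)
    (hφ : ∀ v, φ (fun j => (A ^ M) (v j)) = φ v) : Kill Y φ := by
  obtain ⟨ι, hι, 𝔟, a, ha⟩ := exists_gen_basis A
  let D : MultilinearMap Ω (fun _ : S => V) Ω :=
    ∑ j, φ.compLinearMap fun i => if i = j then Y else LinearMap.id
  have hD : ∀ v, D v = ∑ j, φ (update v j (Y (v j))) := by
    intro v
    rw [_root_.sum_apply]
    refine Finset.sum_congr rfl fun j _ => ?_
    rw [MultilinearMap.compLinearMap_apply]
    congr 1
    funext i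
    by_cases hi : i = j
    · subst hi
      rw [if_pos rfl, update_self]
    · rw [if_neg hi, update_of_ne hi]
      rfl
  have h1 : D = 0 := by
    refine Module.Basis.ext_multilinear (fun _ => 𝔟) fun r => ?_
    rw [hD, _root_.zero_apply]
    have h2 : ∀ j, φ (update (fun i => 𝔟 (r i)) j (Y (𝔟 (r j)))) =
        lam (a (r j)) * φ fun i => 𝔟 (r i) := by
      intro j
      rw [hY _ _ (ha (r j)), MultilinearMap.map_update_smul, update_eq_self, smul_eq_mul]
    rw [Finset.sum_congr rfl fun j _ => h2 j, ← Finset.sum_mul]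
    by_cases hp : (∏ j, a (r j)) ^ M = 1
    · rw [hlam S _ M hM hp, zero_mul]
    · rw [gen_zero_pow A φ hφ (fun j => a (r j)) hp _ fun j => ha (r j), mul_zero]
  intro v
  rw [← hD, h1, _root_.zero_apply]

/-- An additive functional on the multiplicative group that does not vanish on an element of
infinite order. -/
theorem exists_log [CharZero Ω] (x : Ω) (h0 : x ≠ 0) (hx : ∀ k : ℕ, 1 ≤ k → x ^ k ≠ 1) :
    ∃ lam : Ω → Ω, IsLog lam ∧ lam x ≠ 0 := by
  classical
  have hB : Module.Baer ℤ Ω := Module.Baer.of_divisible Ω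
  let y : Ωˣ := Units.mk0 x h0
  have hy : ∀ k : ℕ, 0 < k → y ^ k ≠ 1 := by
    intro k hk h
    apply hx k hk
    have h1 := congrArg (Units.val) h
    rw [Units.val_pow_eq_pow_val, Units.val_one] at h1
    exact h1
  let f : ℤ →ₗ[ℤ] Additive Ωˣ := LinearMap.toSpanSingleton ℤ (Additive Ωˣ) (Additive.ofMul y)
  have hf : Function.Injective f := by
    rw [injective_iff_map_eq_zero]
    intro n hn
    have h1 : y ^ n = 1 := by
      have h2 : f n = Additive.ofMul (y ^ n) := by
        rw [ofMul_zpow]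
        rfl
      rw [h2] at hn
      exact hn
    by_contra h0
    have h3 : y ^ n.natAbs = 1 := by
      rcases Int.natAbs_eq n with h | h
      · rw [h, zpow_natCast] at h1
        exact h1
      · rw [h, zpow_neg, zpow_natCast, inv_eq_one] at h1
        exact h1
    exact hy _ (Int.natAbs_pos.2 h0) h3
  obtain ⟨h, hh⟩ := Module.Baer.extension_property hB f hf (LinearMap.toSpanSingleton ℤ Ω (1 : Ω))
  have hne : h (Additive.ofMul y) ≠ 0 := by
    have h1 := congrArg (fun F : ℤ →ₗ[ℤ] Ω => F 1) hh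
    have h2 : f 1 = Additive.ofMul y := one_smul _ _
    simp only [LinearMap.comp_apply, h2, LinearMap.toSpanSingleton_apply, one_smul] at h1
    rw [h1]
    exact one_ne_zero
  refine ⟨fun a => if ha : a ≠ 0 then h (Additive.ofMul (Units.mk0 a ha)) else 0, ?_, ?_⟩
  · intro S _ b M hM hp
    have hb : ∀ j, b j ≠ 0 := by
      intro j hj
      rw [Finset.prod_eq_zero (Finset.mem_univ j) hj, zero_pow (by omega)] at hp
      exact zero_ne_one hp
    have h1 : ∀ j, (if ha : b j ≠ 0 then h (Additive.ofMul (Units.mk0 (b j) ha)) else 0) =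
        h (Additive.ofMul (Units.mk0 (b j) (hb j))) := fun j => dif_pos (hb j)
    rw [Finset.sum_congr rfl fun j _ => h1 j, ← map_sum]
    have h2 : (∏ j, Units.mk0 (b j) (hb j)) ^ M = 1 := by
      apply Units.ext
      rw [Units.val_pow_eq_pow_val, Units.coe_prod, Units.val_one]
      exact hp
    have h3 : (M : ℤ) • ∑ j, (Additive.ofMul (Units.mk0 (b j) (hb j)) : Additive Ωˣ) = 0 := by
      rw [← ofMul_prod, natCast_zsmul, ← ofMul_pow, h2]
      rfl
    have h4 := congrArg h h3
    rw [map_smul, map_zero] at h4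
    rcases smul_eq_zero.1 h4 with h5 | h5
    · exfalso
      omega
    · exact h5
  · beta_reduce
    rw [dif_pos h0]
    exact hne

end gen

section descent

variable {K : Type u} [Field K] {Ω : Type w} [Field Ω] [Algebra K Ω] {T : Type v} [AddCommGroup T]
  [Module K T] {S : Type} [Fintype S] [DecidableEq S]

/-- the components of an operator -/
noncomputable def cmp (θ : Ω →ₗ[K] K) (Y : Ω ⊗[K] T →ₗ[Ω] Ω ⊗[K] T) : T →ₗ[K] T :=
  (TensorProduct.lid K T).toLinearMap ∘ₗ (θ.rTensor T) ∘ₗ (Y.restrictScalars K) ∘ₗ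
    (TensorProduct.mk K Ω T 1)

theorem cmp_apply (θ : Ω →ₗ[K] K) (Y : Ω ⊗[K] T →ₗ[Ω] Ω ⊗[K] T) (x : T) :
    cmp θ Y x = TensorProduct.lid K T (θ.rTensor T (Y ((1 : Ω) ⊗ₜ[K] x))) := rfl

open Pool.Agent.H204R3.SP

variable {ν : Type} [Fintype ν] [DecidableEq ν] (𝔟 : Module.Basis ν K T)

theorem bcm_update (φ : MultilinearMap K (fun _ : S => T) K) (θ : Ω →ₗ[K] K) (v : S → T) (j : S)
    (y : Ω ⊗[K] T) : φ (update v j (TensorProduct.lid K T (θ.rTensor T y))) =
      θ (bcm (Ω := Ω) 𝔟 φ (update (fun l => (1 : Ω) ⊗ₜ[K] v l) j y)) := by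
  induction y using TensorProduct.induction_on with
  | zero =>
    rw [map_zero, map_zero, φ.map_coord_zero j (update_self _ _ _),
      (bcm (Ω := Ω) 𝔟 φ).map_coord_zero j (update_self _ _ _), map_zero]
  | tmul a x =>
    have h1 : a ⊗ₜ[K] x = a • ((1 : Ω) ⊗ₜ[K] x) := by
      rw [TensorProduct.smul_tmul', smul_eq_mul, mul_one]
    have h2 : update (fun l => (1 : Ω) ⊗ₜ[K] v l) j ((1 : Ω) ⊗ₜ[K] x) =
        fun l => (1 : Ω) ⊗ₜ[K] (update v j x l) := by
      funext l
      by_cases hl : l = j
      · subst hl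
        rw [update_self, update_self]
      · rw [update_of_ne hl, update_of_ne hl]
    rw [LinearMap.rTensor_tmul, TensorProduct.lid_tmul, MultilinearMap.map_update_smul, h1,
      MultilinearMap.map_update_smul, h2, bcm_one, smul_eq_mul, smul_eq_mul, mul_comm a,
      ← Algebra.smul_def, map_smul, smul_eq_mul, mul_comm]
  | add a b ha hb =>
    rw [map_add, map_add, MultilinearMap.map_update_add, MultilinearMap.map_update_add, map_add,
      ha, hb]

/-- base change of the invariance -/
theorem bcm_inv (φ : MultilinearMap K (fun _ : S => T) K) {A : T →ₗ[K] T}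
    (hφ : ∀ v, φ (fun j => A (v j)) = φ v) (v : S → Ω ⊗[K] T) :
    bcm (Ω := Ω) 𝔟 φ (fun j => A.baseChange Ω (v j)) = bcm (Ω := Ω) 𝔟 φ v := by
  have h1 : (bcm (Ω := Ω) 𝔟 φ).compLinearMap (fun _ => A.baseChange Ω) = bcm (Ω := Ω) 𝔟 φ := by
    refine Module.Basis.ext_multilinear (fun _ => 𝔟.baseChange Ω) fun I => ?_
    change (bcm (Ω := Ω) 𝔟 φ) (fun l => A.baseChange Ω (𝔟.baseChange Ω (I l))) = _
    rw [bcm_basis]
    have h2 : ∀ l, A.baseChange Ω (𝔟.baseChange Ω (I l)) = (1 : Ω) ⊗ₜ[K] A (𝔟 (I l)) := by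
      intro l
      rw [Module.Basis.baseChange_apply, LinearMap.baseChange_tmul]
    simp only [h2]
    rw [bcm_one, hφ]
  exact congrArg (fun F : MultilinearMap Ω (fun _ : S => Ω ⊗[K] T) Ω => F v) h1

theorem cmp_kill [FiniteDimensional K T] [IsAlgClosed Ω] (A : T →ₗ[K] T) {lam : Ω → Ω}
    (hlam : IsLog lam) {Y : Module.End Ω (Ω ⊗[K] T)}
    (hY : ∀ a, ∀ v ∈ Module.End.maxGenEigenspace (A.baseChange Ω) a, Y v = lam a • v)
    {M : ℕ} (hM : 1 ≤ M) (φ : MultilinearMap K (fun _ : S => T) K)
    (hφ : ∀ v, φ (fun j => (A ^ M) (v j)) = φ v) (θ : Ω →ₗ[K] K) : Kill (cmp θ Y) φ := by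
  classical
  intro v
  let 𝔟 := Module.finBasis K T
  have hA : (A ^ M).baseChange Ω = (A.baseChange Ω) ^ M := by
    induction M with
    | zero =>
      rw [pow_zero, pow_zero]
      exact LinearMap.baseChange_id
    | succ M ih =>
      rcases Nat.eq_zero_or_pos M with h0 | h0
      · subst h0
        rw [pow_one, pow_one]
      · have h1 : ∀ m : ℕ, (A ^ m).baseChange Ω = (A.baseChange Ω) ^ m := by
          intro m
          induction m with
          | zero =>
            rw [pow_zero, pow_zero]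
            exact LinearMap.baseChange_id
          | succ m ih =>
            rw [pow_succ, pow_succ, ← ih]
            exact LinearMap.baseChange_comp _ _
        exact h1 _
  have h1 : Kill Y (bcm (Ω := Ω) 𝔟 φ) := by
    refine op_kill (A.baseChange Ω) hlam hY hM _ fun v => ?_
    rw [← hA]
    exact bcm_inv 𝔟 φ hφ v
  have h2 : ∀ j, φ (update v j (cmp θ Y (v j))) =
      θ (bcm (Ω := Ω) 𝔟 φ (update (fun l => (1 : Ω) ⊗ₜ[K] v l) j (Y ((1 : Ω) ⊗ₜ[K] v j)))) :=
    fun j => bcm_update 𝔟 φ θ v j _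
  rw [Finset.sum_congr rfl fun j _ => h2 j, ← map_sum, h1 (fun l => (1 : Ω) ⊗ₜ[K] v l), map_zero]

end descent

end Pool.Agent.N174.Cyc
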