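import Pool.Agent.N174.Cyc.Irr
import Pool.Agent.N174.Cyc.Lin
import Pool.Agent.N174.Cyc.Few

/-!
# Elements of infinite order and the operators they give
-/

open Finset Function TensorProduct

set_option linter.unusedSectionVars false

namespace Pool.Agent.N174.Cyc

open Pool.Agent.TH125.Gal

universe u v w x

section list

variable {Ω : Type u}

/-- a multiset as a family -/
theorem exists_family (s : Multiset Ω) : ∃ f : Fin s.card → Ω, (∀ i, f i ∈ s) ∧
    Multiset.map f univ.val = s := by
  induction s using Quotient.inductionOn with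
  | _ l =>
    refine ⟨fun i => l.get i, fun i => ?_, ?_⟩
    · exact List.get_mem l i
    · change Multiset.map (fun i => l.get i) (Finset.univ : Finset (Fin l.length)).val = (l : Multiset Ω)
      rw [Fin.univ_val_map]
      exact congrArg _ (List.ofFn_get l)

end list

section trace

variable {K : Type u} [Field K] [CharZero K] {U : Type v} [AddCommGroup U] [Module K U]
  [FiniteDimensional K U]

theorem root_degree (A : Module.End K U) {a : AlgebraicClosure K}
    (ha : a ∈ (A.charpoly.map (algebraMap K (AlgebraicClosure K))).roots) :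
    (minpoly K a).natDegree ≤ Module.finrank K U := by
  have h0 : A.charpoly ≠ 0 := (LinearMap.charpoly_monic A).ne_zero
  have h1 : Polynomial.aeval a A.charpoly = 0 := by
    rw [Polynomial.mem_roots (Polynomial.map_ne_zero h0), Polynomial.IsRoot.def,
      Polynomial.eval_map_algebraMap] at ha
    exact ha
  rw [← LinearMap.charpoly_natDegree A]
  exact Polynomial.natDegree_le_of_dvd (minpoly.dvd K a h1) h0

theorem roots_card (A : Module.End K U) :
    (A.charpoly.map (algebraMap K (AlgebraicClosure K))).roots.card = Module.finrank K U := by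
  rw [← LinearMap.charpoly_natDegree A, ← Polynomial.natDegree_map (algebraMap K
    (AlgebraicClosure K))]
  exact (Polynomial.splits_iff_card_roots.1 (IsAlgClosed.splits _))

/-- Operators with torsion eigenvalues have finitely many traces. -/
theorem trace_finite (hK : FewRootsOfUnity K) : {c : K | ∃ A : Module.End K U,
    (∀ a ∈ (A.charpoly.map (algebraMap K (AlgebraicClosure K))).roots, ∃ m ≥ 1, a ^ m = 1) ∧
      LinearMap.trace K U A = c}.Finite := by
  have hfin : Finite {a : AlgebraicClosure K | (∃ m ≥ 1, a ^ m = 1) ∧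
      (minpoly K a).natDegree ≤ Module.finrank K U} := hK _
  have h1 : (Set.range fun f : Fin (Module.finrank K U) → {a : AlgebraicClosure K |
      (∃ m ≥ 1, a ^ m = 1) ∧ (minpoly K a).natDegree ≤ Module.finrank K U} =>
        ∑ i, (f i : AlgebraicClosure K)).Finite := Set.finite_range _
  refine Set.Finite.subset (h1.preimage
    ((algebraMap K (AlgebraicClosure K)).injective.injOn)) ?_
  rintro c ⟨A, hA, rfl⟩
  obtain ⟨f, hf, hs⟩ := exists_family (A.charpoly.map (algebraMap K (AlgebraicClosure K))).roots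
  have hcard := roots_card A
  refine ⟨fun i => ⟨f (Fin.cast hcard.symm i), hA _ (hf _), root_degree A (hf _)⟩, ?_⟩
  change ∑ i, f (Fin.cast hcard.symm i) = algebraMap K _ (LinearMap.trace K U A)
  have h2 := Module.End.trace_eq_sum_roots_charpoly_of_splits
    (f := LinearMap.baseChange (AlgebraicClosure K) A) (IsAlgClosed.splits _)
  rw [LinearMap.trace_baseChange, LinearMap.charpoly_baseChange] at h2
  rw [h2]
  conv_rhs => rw [← hs]
  exact Fintype.sum_equiv (finCongr hcard.symm) _ _ fun i => rfl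

end trace

section infinite

variable {K : Type u} [Field K] [CharZero K] {T : Type v} [AddCommGroup T] [Module K T]
  {G : Type x} [Group G] {ρ : G →* (T →ₗ[K] T)} {U : Submodule K T} {g : G} {d : T}
  {φ : T →ₗ[K] K} {ε : K} [FiniteDimensional K T]

/-- **A normal subgroup containing a complex reflection contains an element with an eigenvalue of
infinite order.** -/
theorem exists_inf (hK : FewRootsOfUnity K) (hst : ∀ g, ∀ u ∈ U, ρ g u ∈ U) (hU : SIon ρ U)
    (hr : Refl ρ U g d φ ε) (hε : ε ≠ 1) {N : Subgroup G} (hN : N.Normal) (hgN : g ∈ N)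
    (h2 : 2 ≤ Module.finrank K U) : ∃ n ∈ N,
      ∃ a ∈ ((LinearMap.restrict (ρ n) (hst n)).charpoly.map
        (algebraMap K (AlgebraicClosure K))).roots, ∀ m ≥ 1, a ^ m ≠ 1 := by
  by_contra hcon
  push Not at hcon
  apply coeff_infinite hst hU hr hε hN hgN h2
  have h1 := trace_finite (U := U) hK
  have hε' : ε - 1 ≠ 0 := sub_ne_zero.2 hε
  refine Set.Finite.subset (Set.Finite.image2 (fun a b => (ε - 1)⁻¹ * (a - b)) h1 h1) ?_
  rintro c ⟨n, hn, rfl⟩
  refine ⟨LinearMap.trace K U (LinearMap.restrict (ρ (g * n)) (hst _)), ⟨_, hcon _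
    (N.mul_mem hgN hn), rfl⟩, LinearMap.trace K U (LinearMap.restrict (ρ n) (hst _)),
      ⟨_, hcon _ hn, rfl⟩, ?_⟩
  have h3 : LinearMap.restrict (ρ (g * n)) (hst _) = LinearMap.restrict (ρ n) (hst _) +
      (ε - 1) • (φ ∘ₗ ρ n ∘ₗ U.subtype).smulRight (⟨d, hr.mem⟩ : U) := by
    apply LinearMap.ext
    intro u
    apply Subtype.ext
    change ρ (g * n) (u : T) = ρ n (u : T) + (ε - 1) • (φ (ρ n (u : T)) • d)
    rw [map_mul, Module.End.mul_apply, hr.act _ (hst _ _ u.2), smul_smul]
  beta_reduce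
  rw [h3, map_add, map_smul, LinearMap.trace_smulRight, add_sub_cancel_left, smul_eq_mul,
    ← mul_assoc, inv_mul_cancel₀ hε', one_mul]
  rfl

end infinite

section nonscalar

variable {K : Type u} [Field K] [CharZero K] {T : Type v} [AddCommGroup T] [Module K T]
  [FiniteDimensional K T] {Ω : Type w} [Field Ω] [Algebra K Ω]

theorem repr_lid {ν : Type} [Fintype ν] (𝔟 : Module.Basis ν K T)
    (θ : Ω →ₗ[K] K) (y : Ω ⊗[K] T) (j : ν) :
    𝔟.repr (TensorProduct.lid K T (θ.rTensor T y)) j =
      θ ((𝔟.baseChange Ω).repr y j) := by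
  induction y using TensorProduct.induction_on with
  | zero => simp
  | tmul a x =>
    rw [LinearMap.rTensor_tmul, TensorProduct.lid_tmul, map_smul, Finsupp.smul_apply,
      Module.Basis.baseChange_repr_tmul, smul_eq_mul, map_smul, smul_eq_mul, mul_comm]
  | add a b ha hb => simp only [map_add, Finsupp.add_apply, ha, hb]

/-- **An operator of the Lie algebra which is not a scalar.** -/
theorem exists_nonscalar [CharZero Ω] [IsAlgClosed Ω] (A : T →ₗ[K] T) (U : Submodule K T) (hAU : ∀ u ∈ U, A u ∈ U)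
    {a : Ω} (ha : a ∈ ((LinearMap.restrict A hAU).charpoly.map
        (algebraMap K Ω)).roots) (ha1 : ∀ m ≥ 1, a ^ m ≠ 1) {k : ℕ}
    (hk : 1 ≤ k) (hdet : LinearMap.det (LinearMap.restrict A hAU) ^ k = 1) :
    ∃ X : T →ₗ[K] T, (∀ (S : Type) [Fintype S] [DecidableEq S] (M : ℕ), 1 ≤ M →
      ∀ φ : MultilinearMap K (fun _ : S => T) K, (∀ v, φ (fun j => (A ^ M) (v j)) = φ v) →
        Kill X φ) ∧ ¬ ∃ c : K, ∀ u ∈ U, X u = c • u := by
  classical
  set AU : Module.End K U := LinearMap.restrict A hAU with hAUdef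
  have h0 : AU.charpoly ≠ 0 := (LinearMap.charpoly_monic AU).ne_zero
  have hdetΩ : (AU.charpoly.map (algebraMap K Ω)).roots.prod ^ k = 1 := by
    have h2 := Module.End.det_eq_prod_roots_charpoly_of_splits
      (f := LinearMap.baseChange Ω AU) (IsAlgClosed.splits _)
    rw [LinearMap.det_baseChange, LinearMap.charpoly_baseChange] at h2
    rw [← h2, ← map_pow, hdet, map_one]
  have ha0 : a ≠ 0 := by
    rintro rfl
    rw [Multiset.prod_eq_zero ha, zero_pow (by omega)] at hdetΩ
    exact zero_ne_one hdetΩ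
  obtain ⟨lam, hlam, hla⟩ := exists_log a ha0 ha1
  obtain ⟨Y, hY⟩ := exists_op (A.baseChange Ω) lam
  by_contra hcon
  push Not at hcon
  have hsc : ∀ θ : Ω →ₗ[K] K, ∃ c : K, ∀ u ∈ U, cmp θ Y u = c • u := fun θ =>
    hcon (cmp θ Y) fun S _ _ M hM φ hφ => cmp_kill A hlam hY hM φ hφ θ
  choose c hc using hsc
  -- an eigenvector in U
  have heig : ∀ b ∈ (AU.charpoly.map (algebraMap K Ω)).roots, ∃ w : Ω ⊗[K] U, w ≠ 0 ∧
      AU.baseChange Ω w = b • w := by
    intro b hb
    have h1 : Module.End.HasEigenvalue (AU.baseChange Ω) b := by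
      rw [Module.End.hasEigenvalue_iff_isRoot_charpoly, LinearMap.charpoly_baseChange]
      exact (Polynomial.mem_roots (Polynomial.map_ne_zero h0)).1 hb
    obtain ⟨w, hw⟩ := h1.exists_hasEigenvector
    exact ⟨w, hw.2, hw.apply_eq_smul⟩
  obtain ⟨u0, hu0, hu0'⟩ : ∃ u0 ∈ U, u0 ≠ 0 := by
    by_contra hall
    push Not at hall
    obtain ⟨w, hw, -⟩ := heig a ha
    apply hw
    have hsub : Subsingleton U := ⟨fun x y => Subtype.ext (by
      rw [hall x x.2, hall y y.2])⟩
    exact Subsingleton.elim _ _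
  let 𝔟 := Module.finBasis K T
  obtain ⟨j0, hj0⟩ : ∃ j, 𝔟.repr u0 j ≠ 0 := by
    by_contra hall
    push Not at hall
    apply hu0'
    rw [← 𝔟.repr.map_eq_zero_iff]
    exact Finsupp.ext hall
  set α := 𝔟.repr u0 j0 with hα
  let yc : T → Fin (Module.finrank K T) → Ω := fun u j =>
    (𝔟.baseChange Ω).repr (Y ((1 : Ω) ⊗ₜ[K] u)) j
  have hyc : ∀ θ : Ω →ₗ[K] K, ∀ u ∈ U, ∀ j, θ (yc u j) = c θ * 𝔟.repr u j := by
    intro θ u hu j
    have h1 := congrArg (fun z => 𝔟.repr z j) (hc θ u hu)
    beta_reduce at h1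
    rw [cmp_apply, repr_lid, map_smul, Finsupp.smul_apply, smul_eq_mul] at h1
    exact h1
  have hyc' : ∀ u ∈ U, ∀ j, α • yc u j = 𝔟.repr u j • yc u0 j0 := by
    intro u hu j
    rw [← sub_eq_zero]
    rw [← Module.forall_dual_apply_eq_zero_iff K]
    intro θ
    change θ (α • yc u j - 𝔟.repr u j • yc u0 j0) = 0
    rw [map_sub, map_smul, map_smul, hyc θ u hu, hyc θ u0 hu0, ← hα, smul_eq_mul, smul_eq_mul]
    ring
  set cb : Ω := α⁻¹ • yc u0 j0 with hcb
  have hYU : ∀ u ∈ U, Y ((1 : Ω) ⊗ₜ[K] u) = cb • ((1 : Ω) ⊗ₜ[K] u) := by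
    intro u hu
    apply (𝔟.baseChange Ω).repr.injective
    ext j
    have h1 : yc u j = cb * algebraMap K Ω (𝔟.repr u j) := by
      have h2 := congrArg (fun z => α⁻¹ • z) (hyc' u hu j)
      beta_reduce at h2
      rw [smul_smul, inv_mul_cancel₀ hj0, one_smul, smul_comm, ← hcb] at h2
      rw [h2, Algebra.smul_def, mul_comm]
    rw [map_smul, Finsupp.smul_apply, Module.Basis.baseChange_repr_tmul]
    change yc u j = _
    rw [h1, smul_eq_mul, Algebra.algebraMap_eq_smul_one]
  -- the inclusion
  let ι : Ω ⊗[K] U →ₗ[Ω] Ω ⊗[K] T := U.subtype.baseChange Ω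
  have hι : Function.Injective ι :=
    Module.Flat.lTensor_preserves_injective_linearMap (M := Ω) U.subtype U.injective_subtype
  have hYι : ∀ w, Y (ι w) = cb • ι w := by
    intro w
    induction w using TensorProduct.induction_on with
    | zero => rw [map_zero, map_zero, smul_zero]
    | tmul b u =>
      have h1 : ι (b ⊗ₜ[K] u) = b • ((1 : Ω) ⊗ₜ[K] (u : T)) := by
        change b ⊗ₜ[K] (u : T) = _
        rw [TensorProduct.smul_tmul', smul_eq_mul, mul_one]
      rw [h1, map_smul, hYU u u.2, smul_comm]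
    | add w w' hw hw' => rw [map_add, map_add, hw, hw', smul_add]
  have hAι : ∀ w, A.baseChange Ω (ι w) = ι (AU.baseChange Ω w) := by
    intro w
    induction w using TensorProduct.induction_on with
    | zero => rw [map_zero, map_zero, map_zero, map_zero]
    | tmul b u => rfl
    | add w w' hw hw' => rw [map_add, map_add, hw, hw', map_add, map_add]
  have hlb : ∀ b ∈ (AU.charpoly.map (algebraMap K Ω)).roots, lam b = cb := by
    intro b hb
    obtain ⟨w, hw0, hw⟩ := heig b hb
    have h1 : ι w ∈ Module.End.maxGenEigenspace (A.baseChange Ω) b := by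
      rw [Module.End.mem_maxGenEigenspace]
      refine ⟨1, ?_⟩
      rw [pow_one, LinearMap.sub_apply, hAι, hw, map_smul]
      simp
    have h2 := hY b _ h1
    rw [hYι] at h2
    by_contra hne
    apply hw0
    apply (map_eq_zero_iff ι hι).1
    have h3 : cb - lam b ≠ 0 := fun h => hne (sub_eq_zero.1 h).symm
    have h4 : ((cb - lam b)⁻¹ * lam b) • ι w + ι w = ((cb - lam b)⁻¹ * lam b) • ι w := by
      have h5 : ((cb - lam b)⁻¹ * lam b + 1) • ι w =
          ((cb - lam b)⁻¹ * lam b) • ι w + (1 : Ω) • ι w := add_smul _ _ _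
      have h6 : (cb - lam b)⁻¹ * lam b + 1 = (cb - lam b)⁻¹ * cb := by
        field_simp
        ring
      rw [one_smul, h6, mul_smul, h2, ← mul_smul] at h5
      exact h5.symm
    exact left_eq_add.1 h4.symm
  obtain ⟨f, hf, hs⟩ := exists_family (AU.charpoly.map (algebraMap K Ω)).roots
  have hsum := hlam _ f k hk (by
    have h1 : ∏ j, f j = (AU.charpoly.map (algebraMap K Ω)).roots.prod := by
      conv_rhs => rw [← hs]
      rfl
    rw [h1]
    exact hdetΩ)
  rw [Finset.sum_congr rfl fun j _ => hlb _ (hf j), Finset.sum_const, Finset.card_univ,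
    Fintype.card_fin, nsmul_eq_mul] at hsum
  rcases mul_eq_zero.1 hsum with h | h
  · have h1 : 0 < (AU.charpoly.map (algebraMap K Ω)).roots.card :=
      Multiset.card_pos_iff_exists_mem.2 ⟨a, ha⟩
    have h2 : (AU.charpoly.map (algebraMap K Ω)).roots.card = 0 := by exact_mod_cast h
    omega
  · exact hla (by rw [hlb a ha, h])

end nonscalar

end Pool.Agent.N174.Cyc
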