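import Pool.Agent.TH125.Gal.Grp
import Pool.Agent.TH125.Gal.Final

/-!
# Normal subgroups containing a complex reflection
-/

open Finset Function

set_option linter.unusedSectionVars false

namespace Pool.Agent.N174.Cyc

open Pool.Agent.TH125.Gal

universe u v w x

/-- A subgroup is of finite index if its cosets are separated by a map to a finite set. -/
theorem fi_of_map {G : Type x} [Group G] (H : Subgroup G) {T : Type w} [Finite T] (f : G → T)
    (h : ∀ g g', f g = f g' → g⁻¹ * g' ∈ H) : H.FiniteIndex := by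
  have h1 : Finite (G ⧸ H) := by
    have h2 : Finite (Set.range f) := inferInstance
    refine Finite.of_surjective (fun t : Set.range f => (QuotientGroup.mk t.2.choose : G ⧸ H)) ?_
    intro q
    obtain ⟨g, rfl⟩ := QuotientGroup.mk_surjective q
    have h3 : f g ∈ Set.range f := ⟨g, rfl⟩
    refine ⟨⟨f g, h3⟩, ?_⟩
    change (QuotientGroup.mk h3.choose : G ⧸ H) = QuotientGroup.mk g
    rw [QuotientGroup.eq]
    exact h _ _ h3.choose_spec
  exact Subgroup.finiteIndex_of_finite_quotient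

variable {K : Type u} [Field K] [CharZero K] {T : Type v} [AddCommGroup T] [Module K T]
  {G : Type x} [Group G]

/-- All subgroups of finite index act irreducibly on the subspace. -/
def SIon (ρ : G →* (T →ₗ[K] T)) (U : Submodule K T) : Prop :=
  ∀ Δ : Subgroup G, Δ.FiniteIndex → ∀ W : Submodule K T, W ≤ U →
    (∀ g ∈ Δ, ∀ x ∈ W, ρ g x ∈ W) → W = ⊥ ∨ W = U

/-- complex reflections on a subspace -/
structure Refl (ρ : G →* (T →ₗ[K] T)) (U : Submodule K T) (g : G) (d : T) (φ : T →ₗ[K] K)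
    (ε : K) : Prop where
  mem : d ∈ U
  val : φ d = 1
  act : ∀ u ∈ U, ρ g u = u + ((ε - 1) * φ u) • d

variable {ρ : G →* (T →ₗ[K] T)} {U : Submodule K T} {g : G} {d : T} {φ : T →ₗ[K] K} {ε : K}

theorem Refl.ne (h : Refl ρ U g d φ ε) : d ≠ 0 := by
  rintro rfl
  have := h.val
  rw [map_zero] at this
  exact zero_ne_one this

/-- the action of a conjugate -/
theorem Refl.conj (h : Refl ρ U g d φ ε) (hst : ∀ g, ∀ u ∈ U, ρ g u ∈ U) (γ : G) {u : T}
    (hu : u ∈ U) : ρ (γ * g * γ⁻¹) u = u + ((ε - 1) * φ (ρ γ⁻¹ u)) • ρ γ d := by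
  rw [map_mul, map_mul, Module.End.mul_apply, Module.End.mul_apply, h.act _ (hst _ _ hu), map_add,
    map_smul, rho_inv]

/-- A vector with its line stable under a subgroup of finite index spans. -/
theorem line_top (hU : SIon ρ U) {d : T} (hd : d ∈ U) (hd0 : d ≠ 0) {Δ : Subgroup G}
    (hΔ : Δ.FiniteIndex) (h : ∀ γ ∈ Δ, ∃ c : K, ρ γ d = c • d) : U = Submodule.span K {d} := by
  rcases hU Δ hΔ (Submodule.span K {d}) (by rwa [Submodule.span_singleton_le_iff_mem]) (by
    intro γ hγ x hx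
    obtain ⟨a, rfl⟩ := Submodule.mem_span_singleton.1 hx
    obtain ⟨c, hc⟩ := h γ hγ
    rw [map_smul, hc]
    exact Submodule.smul_mem _ _ (Submodule.smul_mem _ _ (Submodule.mem_span_singleton_self d)))
    with h1 | h1
  · exact absurd (Submodule.span_singleton_eq_bot.1 h1) hd0
  · exact h1.symm

theorem top_fi : (⊤ : Subgroup G).FiniteIndex := inferInstance

/-- **Clifford theory**: a normal subgroup containing a complex reflection is irreducible. -/
theorem norm_irr [FiniteDimensional K T] (hst : ∀ g, ∀ u ∈ U, ρ g u ∈ U) (hU : SIon ρ U)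
    (hr : Refl ρ U g d φ ε) (hε : ε ≠ 1) {N : Subgroup G} (hN : N.Normal) (hgN : g ∈ N)
    (W : Submodule K T) (hW : W ≤ U) (hNW : ∀ n ∈ N, ∀ x ∈ W, ρ n x ∈ W) : W = ⊥ ∨ W = U := by
  classical
  -- the stable subspaces
  let P : Submodule K T → Prop := fun W => W ≤ U ∧ (∀ n ∈ N, ∀ x ∈ W, ρ n x ∈ W) ∧ W ≠ ⊥
  have hε' : ε - 1 ≠ 0 := sub_ne_zero.2 hε
  have key : ∀ W, P W → ∀ γ : G, ρ γ d ∈ W ∨ ∀ w ∈ W, φ (ρ γ⁻¹ w) = 0 := by
    intro W hW γ
    by_cases h : ∀ w ∈ W, φ (ρ γ⁻¹ w) = 0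
    · exact Or.inr h
    · left
      push Not at h
      obtain ⟨w, hw, hφ⟩ := h
      have h1 := hW.2.1 _ (hN.conj_mem g hgN γ) w hw
      rw [hr.conj hst γ (hW.1 hw)] at h1
      have h2 : ((ε - 1) * φ (ρ γ⁻¹ w)) • ρ γ d ∈ W := by
        have h3 := W.sub_mem h1 hw
        rwa [add_sub_cancel_left] at h3
      exact (W.smul_mem_iff (mul_ne_zero hε' hφ)).1 h2
  have htr : ∀ W, P W → ∀ γ : G, P (W.map (ρ γ)) := by
    intro W hW γ
    refine ⟨?_, ?_, ?_⟩
    · rintro _ ⟨x, hx, rfl⟩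
      exact hst _ _ (hW.1 hx)
    · rintro n hn _ ⟨x, hx, rfl⟩
      refine ⟨ρ (γ⁻¹ * n * γ) x, hW.2.1 _ (by
        have := hN.conj_mem n hn γ⁻¹
        rwa [inv_inv] at this) x hx, ?_⟩
      rw [← Module.End.mul_apply, ← Module.End.mul_apply, ← map_mul, ← map_mul]
      congr 2
      group
    · intro h
      apply hW.2.2
      rw [eq_bot_iff]
      intro x hx
      have h1 : ρ γ x ∈ W.map (ρ γ) := ⟨x, hx, rfl⟩
      rw [h, Submodule.mem_bot] at h1
      rw [Submodule.mem_bot, ← rho_inv' ρ γ x, h1, map_zero]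
  by_cases hW0 : W = ⊥
  · exact Or.inl hW0
  right
  have hPW : P W := ⟨hW, hNW, hW0⟩
  -- a minimal one
  obtain ⟨M, hM, hmin⟩ : ∃ M, P M ∧ ∀ W, P W → Module.finrank K M ≤ Module.finrank K W := by
    have h1 : ∃ r, ∃ M, P M ∧ Module.finrank K M = r := ⟨_, W, hPW, rfl⟩
    obtain ⟨M, hM, hr⟩ := Nat.find_spec h1
    refine ⟨M, hM, fun W hW => ?_⟩
    rw [hr]
    exact Nat.find_min' h1 ⟨W, hW, rfl⟩
  -- the translate containing the root
  obtain ⟨γ₀, hγ₀⟩ : ∃ γ₀ : G, ρ γ₀ d ∈ M := by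
    by_contra hcon
    push Not at hcon
    have h1 : ∀ γ : G, ∀ w ∈ M, φ (ρ γ⁻¹ w) = 0 := fun γ =>
      (key M hM γ).resolve_left (hcon γ)
    let V : Submodule K T :=
      { carrier := {u | u ∈ U ∧ ∀ γ : G, φ (ρ γ u) = 0}
        zero_mem' := ⟨U.zero_mem, fun γ => by rw [map_zero, map_zero]⟩
        add_mem' := fun {a b} ha hb => ⟨U.add_mem ha.1 hb.1, fun γ => by
          rw [map_add, map_add, ha.2, hb.2, add_zero]⟩
        smul_mem' := fun c a ha => ⟨U.smul_mem c ha.1, fun γ => by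
          rw [map_smul, map_smul, ha.2, smul_zero]⟩ }
    rcases hU ⊤ top_fi V (fun x hx => hx.1) (fun γ _ x hx => ⟨hst _ _ hx.1, fun γ' => by
      rw [← Module.End.mul_apply, ← map_mul]
      exact hx.2 _⟩) with h | h
    · apply hM.2.2
      rw [eq_bot_iff, ← h]
      intro x hx
      exact ⟨hM.1 hx, fun γ => by
        have := h1 γ⁻¹ x hx
        rwa [inv_inv] at this⟩
    · have h2 : d ∈ V := by
        rw [h]
        exact hr.mem
      have h3 := h2.2 1
      rw [map_one, Module.End.one_apply, hr.val] at h3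
      exact one_ne_zero h3
  set M' := M.map (ρ γ₀⁻¹) with hM'
  have hPM' : P M' := htr M hM _
  have hdM' : d ∈ M' := ⟨ρ γ₀ d, hγ₀, rho_inv' ρ γ₀ d⟩
  have hfr : ∀ (W : Submodule K T) (γ : G), Module.finrank K (W.map (ρ γ)) ≤ Module.finrank K W :=
    fun W γ => Submodule.finrank_map_le _ _
  have hfM' : Module.finrank K M' = Module.finrank K M :=
    le_antisymm (hfr _ _) (hmin _ hPM')
  have hmin' : ∀ W, P W → W ≤ M' → W = M' := fun W hW hle =>
    Submodule.eq_of_le_of_finrank_le hle (by rw [hfM']; exact hmin _ hW)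
  -- translates meeting in a nonzero vector are equal
  have hinter : ∀ γ γ' : G, ∀ y : T, y ≠ 0 → y ∈ M'.map (ρ γ) → y ∈ M'.map (ρ γ') →
      M'.map (ρ γ) = M'.map (ρ γ') := by
    intro γ γ' y hy h1 h2
    have hP : P (M'.map (ρ γ) ⊓ M'.map (ρ γ')) := by
      refine ⟨fun x hx => (htr M' hPM' γ).1 hx.1, fun n hn x hx =>
        ⟨(htr M' hPM' γ).2.1 n hn x hx.1, (htr M' hPM' γ').2.1 n hn x hx.2⟩, fun h => hy ?_⟩
      have h3 : y ∈ M'.map (ρ γ) ⊓ M'.map (ρ γ') := ⟨h1, h2⟩
      rwa [h, Submodule.mem_bot] at h3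
    have h4 := hmin _ hP
    have h5 : M'.map (ρ γ) ⊓ M'.map (ρ γ') = M'.map (ρ γ) :=
      Submodule.eq_of_le_of_finrank_le inf_le_left (le_trans (hfr _ _) (by rw [hfM']; exact h4))
    have h6 : M'.map (ρ γ) ⊓ M'.map (ρ γ') = M'.map (ρ γ') :=
      Submodule.eq_of_le_of_finrank_le inf_le_right (le_trans (hfr _ _) (by rw [hfM']; exact h4))
    rw [← h5, h6]
  -- the stabilizer
  let H : Subgroup G :=
    { carrier := {γ | M'.map (ρ γ) = M'}
      one_mem' := by
        change M'.map (ρ 1) = M'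
        rw [map_one]
        exact Submodule.map_id M'
      mul_mem' := by
        intro a b ha hb
        change M'.map (ρ (a * b)) = M'
        rw [map_mul, Module.End.mul_eq_comp, Submodule.map_comp]
        rw [show M'.map (ρ b) = M' from hb, show M'.map (ρ a) = M' from ha]
      inv_mem' := by
        intro a ha
        change M'.map (ρ a⁻¹) = M'
        conv_lhs => rw [← show M'.map (ρ a) = M' from ha]
        rw [← Submodule.map_comp, ← Module.End.mul_eq_comp, ← map_mul, inv_mul_cancel, map_one]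
        exact Submodule.map_id M' }
  have hH : H.FiniteIndex := by
    let 𝒮 : Set T := Set.range fun γ : G => ρ γ d
    obtain ⟨b, hb𝒮, hspan, hli⟩ := exists_linearIndependent K 𝒮
    have hfin : Finite b := hli.finite
    have h1 : ∀ γ : G, ∃ y : b, φ (ρ γ⁻¹ (y : T)) ≠ 0 := by
      intro γ
      by_contra hcon
      push Not at hcon
      have h2 : ρ γ d ∈ Submodule.span K b := by
        rw [hspan]
        exact Submodule.subset_span ⟨γ, rfl⟩
      have h3 : ∀ y ∈ Submodule.span K b, φ (ρ γ⁻¹ y) = 0 := by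
        intro y hy
        induction hy using Submodule.span_induction with
        | mem y hy => exact hcon ⟨y, hy⟩
        | zero => rw [map_zero, map_zero]
        | add a b _ _ ha hb => rw [map_add, map_add, ha, hb, add_zero]
        | smul c a _ ha => rw [map_smul, map_smul, ha, smul_zero]
      have h4 := h3 _ h2
      rw [rho_inv', hr.val] at h4
      exact one_ne_zero h4
    choose F hF using h1
    have h2 : ∀ y : b, ∃ γ : G, ρ γ d = y := fun y => hb𝒮 y.2
    choose c hc using h2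
    have h3 : ∀ γ : G, M'.map (ρ (c (F γ))) = M'.map (ρ γ) := by
      intro γ
      refine hinter _ _ (ρ γ d) (fun h => hr.ne ?_) ?_ ⟨d, hdM', rfl⟩
      · rw [← rho_inv' ρ γ d, h, map_zero]
      · refine (key _ (htr M' hPM' (c (F γ))) γ).resolve_right fun h => hF γ ?_
        exact h _ ⟨d, hdM', hc (F γ)⟩
    refine fi_of_map H F fun γ γ' hγ => ?_
    change M'.map (ρ (γ⁻¹ * γ')) = M'
    rw [map_mul, Module.End.mul_eq_comp, Submodule.map_comp, ← h3 γ', ← hγ, h3 γ,
      ← Submodule.map_comp, ← Module.End.mul_eq_comp, ← map_mul, inv_mul_cancel, map_one]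
    exact Submodule.map_id M'
  have hM'U : M' = U := by
    rcases hU H hH M' hPM'.1 (fun γ hγ x hx => by
      have h1 : M'.map (ρ γ) = M' := hγ
      rw [← h1]
      exact ⟨x, hx, rfl⟩) with h | h
    · exact absurd h hPM'.2.2
    · exact h
  refine Submodule.eq_of_le_of_finrank_le hW ?_
  rw [← hM'U, hfM']
  exact hmin _ hPW

/-- **A normal subgroup containing a complex reflection with finitely many matrix coefficients.** -/
theorem coeff_infinite [FiniteDimensional K T] (hst : ∀ g, ∀ u ∈ U, ρ g u ∈ U) (hU : SIon ρ U)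
    (hr : Refl ρ U g d φ ε) (hε : ε ≠ 1) {N : Subgroup G} (hN : N.Normal) (hgN : g ∈ N)
    (h2 : 2 ≤ Module.finrank K U) : ¬ {c : K | ∃ n ∈ N, φ (ρ n d) = c}.Finite := by
  classical
  intro hfin
  have hε' : ε - 1 ≠ 0 := sub_ne_zero.2 hε
  -- spanning vectors
  have hspan : Submodule.span K {y | ∃ n ∈ N, y = ρ n d} = U := by
    rcases norm_irr hst hU hr hε hN hgN (Submodule.span K {y | ∃ n ∈ N, y = ρ n d}) (by
      rw [Submodule.span_le]
      rintro _ ⟨n, _, rfl⟩
      exact hst _ _ hr.mem) (by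
      intro n hn x hx
      induction hx using Submodule.span_induction with
      | mem x hx =>
        obtain ⟨m, hm, rfl⟩ := hx
        exact Submodule.subset_span ⟨n * m, N.mul_mem hn hm, by
          rw [map_mul, Module.End.mul_apply]⟩
      | zero => rw [map_zero]; exact Submodule.zero_mem _
      | add a b _ _ ha hb => rw [map_add]; exact Submodule.add_mem _ ha hb
      | smul c a _ ha => rw [map_smul]; exact Submodule.smul_mem _ _ ha) with h | h
    · exfalso
      apply hr.ne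
      have h1 : d ∈ Submodule.span K {y | ∃ n ∈ N, y = ρ n d} :=
        Submodule.subset_span ⟨1, N.one_mem, by rw [map_one]; rfl⟩
      rwa [h, Submodule.mem_bot] at h1
    · exact h
  have hker : ∀ u ∈ U, (∀ n ∈ N, φ (ρ n u) = 0) → u = 0 := by
    intro u hu h
    let V : Submodule K T :=
      { carrier := {u | u ∈ U ∧ ∀ n ∈ N, φ (ρ n u) = 0}
        zero_mem' := ⟨U.zero_mem, fun n _ => by rw [map_zero, map_zero]⟩
        add_mem' := fun {a b} ha hb => ⟨U.add_mem ha.1 hb.1, fun n hn => by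
          rw [map_add, map_add, ha.2 n hn, hb.2 n hn, add_zero]⟩
        smul_mem' := fun c a ha => ⟨U.smul_mem c ha.1, fun n hn => by
          rw [map_smul, map_smul, ha.2 n hn, smul_zero]⟩ }
    rcases norm_irr hst hU hr hε hN hgN V (fun x hx => hx.1) (fun n hn x hx =>
      ⟨hst _ _ hx.1, fun m hm => by
        rw [← Module.End.mul_apply, ← map_mul]
        exact hx.2 _ (N.mul_mem hm hn)⟩) with h1 | h1
    · have h2 : u ∈ V := ⟨hu, h⟩
      rwa [h1, Submodule.mem_bot] at h2
    · exfalso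
      have h2 : d ∈ V := by
        rw [h1]
        exact hr.mem
      have h3 := h2.2 1 N.one_mem
      rw [map_one, Module.End.one_apply, hr.val] at h3
      exact one_ne_zero h3
  -- finite families
  obtain ⟨b, hbS, hbspan, hbli⟩ := exists_linearIndependent K {y | ∃ n ∈ N, y = ρ n d}
  have hbfin : Finite b := hbli.finite
  obtain ⟨b', hbS', hbspan', hbli'⟩ := exists_linearIndependent K
    {ψ : T →ₗ[K] K | ∃ n ∈ N, ψ = φ ∘ₗ ρ n}
  have hbfin' : Finite b' := hbli'.finite
  choose m hm hmy using fun y : b => hbS y.2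
  choose l hl hly using fun ψ : b' => hbS' ψ.2
  -- the key
  have hdet : ∀ A B : T →ₗ[K] T, (∀ u ∈ U, A u ∈ U) → (∀ u ∈ U, B u ∈ U) →
      (∀ (y : b) (ψ : b'), (ψ : T →ₗ[K] K) (A y) = (ψ : T →ₗ[K] K) (B y)) →
      ∀ u ∈ U, A u = B u := by
    intro A B hA hB h u hu
    rw [← hspan, ← hbspan] at hu
    have hbU : ∀ y : b, (y : T) ∈ U := by
      intro y
      rw [hmy y]
      exact hst _ _ hr.mem
    induction hu using Submodule.span_induction with
    | mem y hy =>
      have h3 : A y - B y = 0 := by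
        refine hker _ (U.sub_mem (hA _ (hbU ⟨y, hy⟩)) (hB _ (hbU ⟨y, hy⟩))) fun n hn => ?_
        have h4 : φ ∘ₗ ρ n ∈ Submodule.span K b' := by
          rw [hbspan']
          exact Submodule.subset_span ⟨n, hn, rfl⟩
        have h5 : ∀ ψ ∈ Submodule.span K b', ψ (A y) = ψ (B y) := by
          intro ψ hψ
          induction hψ using Submodule.span_induction with
          | mem ψ hψ => exact h ⟨y, hy⟩ ⟨ψ, hψ⟩
          | zero => rfl
          | add a b _ _ ha hb => rw [LinearMap.add_apply, LinearMap.add_apply, ha, hb]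
          | smul c a _ ha => rw [LinearMap.smul_apply, LinearMap.smul_apply, ha]
        have h6 := h5 _ h4
        rw [map_sub, map_sub]
        exact sub_eq_zero.2 h6
      exact sub_eq_zero.1 h3
    | zero => rw [map_zero, map_zero]
    | add a b _ _ ha hb => rw [map_add, map_add, ha, hb]
    | smul c a _ ha => rw [map_smul, map_smul, ha]
  -- the map to a finite set
  have hFfin : Finite {c : K | ∃ n ∈ N, φ (ρ n d) = c} := hfin
  let f : G → b × b' → {c : K | ∃ n ∈ N, φ (ρ n d) = c} := fun γ p =>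
    ⟨(p.2 : T →ₗ[K] K) (ρ (γ * g * γ⁻¹) p.1), l p.2 * (γ * g * γ⁻¹) * m p.1,
      N.mul_mem (N.mul_mem (hl _) (hN.conj_mem g hgN γ)) (hm _), by
        rw [hly p.2, hmy p.1, LinearMap.comp_apply, map_mul, map_mul, Module.End.mul_apply,
          Module.End.mul_apply]⟩
  let H : Subgroup G :=
    { carrier := {γ | ∃ c : K, c ≠ 0 ∧ ρ γ d = c • d}
      one_mem' := ⟨1, one_ne_zero, by rw [map_one, one_smul]; rfl⟩
      mul_mem' := by
        rintro γ γ' ⟨c, hc, h⟩ ⟨c', hc', h'⟩
        exact ⟨c' * c, mul_ne_zero hc' hc, by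
          rw [map_mul, Module.End.mul_apply, h', map_smul, h, smul_smul]⟩
      inv_mem' := by
        rintro γ ⟨c, hc, h⟩
        refine ⟨c⁻¹, inv_ne_zero hc, ?_⟩
        have h3 := congrArg (ρ γ⁻¹) h
        rw [rho_inv', map_smul] at h3
        conv_rhs => rw [h3, smul_smul, inv_mul_cancel₀ hc, one_smul] }
  have hH : H.FiniteIndex := by
    have hfT : Finite (b × b' → {c : K | ∃ n ∈ N, φ (ρ n d) = c}) := inferInstance
    refine fi_of_map H f fun γ γ' hγ => ?_
    have h3 := hdet (ρ (γ * g * γ⁻¹)) (ρ (γ' * g * γ'⁻¹)) (hst _) (hst _) (fun y ψ =>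
      congrArg Subtype.val (congrFun hγ (y, ψ))) (ρ γ' d) (hst _ _ hr.mem)
    rw [hr.conj hst γ (hst _ _ hr.mem), hr.conj hst γ' (hst _ _ hr.mem), rho_inv', hr.val,
      mul_one] at h3
    have h4 := add_left_cancel h3
    have h5 : ρ γ' d = (φ (ρ γ⁻¹ (ρ γ' d))) • ρ γ d := by
      have h6 := congrArg (fun z => (ε - 1)⁻¹ • z) h4
      beta_reduce at h6
      rw [smul_smul, smul_smul, ← mul_assoc, inv_mul_cancel₀ hε', one_mul, one_smul] at h6
      exact h6.symm
    refine ⟨φ (ρ γ⁻¹ (ρ γ' d)), fun h0 => ?_, ?_⟩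
    · rw [h0, zero_smul] at h5
      apply hr.ne
      rw [← rho_inv' ρ γ' d, h5, map_zero]
    · have h6 := congrArg (ρ γ⁻¹) h5
      rw [map_smul, rho_inv'] at h6
      rw [map_mul, Module.End.mul_apply]
      exact h6
  have h3 := line_top hU hr.mem hr.ne hH fun γ hγ => by
    obtain ⟨c, -, hc⟩ := hγ
    exact ⟨c, hc⟩
  rw [h3, finrank_span_singleton hr.ne] at h2
  omega

end Pool.Agent.N174.Cyc
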