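import Pool.Agent.N174.Cyc.ADefs
import Pool.Agent.N174.Lef.ODefs

/-!
# Cyclic coverings and products with an arbitrary variety: definitions
-/

open CategoryTheory AlgebraicGeometry

universe u v w

namespace Pool.Agent.N174.Cyc

open Pool.Agent.TH125.Gal

section Alg

variable {K : Type v} [Field K] {A : Type v} [Ring A] [Algebra K A] {B : Type v} [Ring B]
  [Algebra K B] {M : Type v} [AddCommGroup M] [Module K M] {Γ : Type w} [Group Γ]

/-- Some `g` with `χ g = 1` acts trivially on `B` and `M`, and by the Picard-Lefschetz formula of a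
cyclic covering on the subspace `T` of `A`. -/
def CyclicNodeAct (χ : Γ →* Kˣ) (d : ℕ) (T : Submodule K A) (ρ : Γ →* (A ≃ₐ[K] A))
    (ρ' : Γ →* (B ≃ₐ[K] B)) (τ : Γ →* (M →ₗ[K] M)) (σ : A →ₐ[K] A) : Prop :=
  ∃ g : Γ, χ g = 1 ∧ TrivAct ρ' g ∧ (∀ m, τ g m = m) ∧ CyclicPL d T ρ σ g

/-- The properties of `CoveringAct`, of `EigenIrred` for the parts of the kernel of `p` and of
`CyclicNodeAct`. -/
structure CoveringOverAct (χ : Γ →* Kˣ) (d N n n' : ℕ) (gr : ℕ → Submodule K A) (tr : A →ₗ[K] K)
    (S : ℕ → Set A) (f : B →ₐ[K] A) (p : A →ₗ[K] B) (ρ : Γ →* (A ≃ₐ[K] A))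
    (ρ' : Γ →* (B ≃ₐ[K] B)) (τ : Γ →* (M →ₗ[K] M)) (σ : A →ₐ[K] A) : Prop where
  covering : CoveringAct χ d n n' gr tr S f p ρ ρ' σ
  irreducible : EigenIrred d N (LinearMap.ker p) ρ σ
  node : CyclicNodeAct χ d (LinearMap.ker p) ρ ρ' τ σ

end Alg

open Pool.Agent.H914 Pool.Agent.H914.VarClass Pool.Agent.H914.VarClass.Obj
  Pool.Agent.H914.WeilCohomology Pool.Agent.H281R3.HT Pool.Agent.W552

open Pool.Agent.N174.Lef.Open

variable {k : Type u} [Field k] {𝒱 : VarClass k} {ops : CycleOps 𝒱}
  {W : WeilCohomology.{u, v} ops} {Γ : Type w} [Group Γ]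

/-- The morphism `f : X ⟶ Y` has the formal properties of a cyclic covering of odd degree `d` with
the automorphism `σ` of `X`, all defined over the base field (`CoveringAct`): `dim X = dim Y`; the
action of `Γ` on the cohomology of `X` has the formal properties of a Galois action, `f^*` and
`f_*` are equivariant; `f_* 1 = d`, `f^* f_*` is the sum of the powers of `σ^*`, `σ^* f^* = f^*`, the `d`-th
power of `σ^*` is one, and `σ^*` is compatible with the trace and with the action of `Γ`; the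
coefficient field contains a primitive root of unity of order `d`; the vanishing cohomology
`E = ker f_*` is in the middle degree. Moreover the parts of `E` on which `σ^* = c`, for `c ^ d = 1`
and `c ≠ 1`, are irreducible under all subgroups of finite index of `Γ`, of dimension greater than
`2` and than `N`, and some `g` in `Γ` with `χ g = 1` acts trivially on the cohomology of `Y` and of
`U`, and by the Picard-Lefschetz formula of a cyclic covering on `E`. -/
def CoveringOver (χ : Γ →* W.Kˣ) (d N : ℕ) (X Y : GVar W Γ) (f : X.X ⟶ Y.X) (σ : X.X ⟶ X.X)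
    (U : OpenVar W Γ) : Prop :=
  CoveringOverAct χ d N X.X.dim Y.X.dim (W.gr X.X) (W.tr X.X) (cycles W X.X) (W.map f)
    (W.push f) X.act Y.act U.act (W.map σ)

/-- There are cyclic coverings `X = X_r ⟶ X_(r-1) ⟶ ⋯ ⟶ X_0 = Y`, `r ≥ 0`, as in
`CoveringOver`. -/
inductive CyclicTowerOver (χ : Γ →* W.Kˣ) (N : ℕ) (U : OpenVar W Γ) (Y : GVar W Γ) :
    GVar W Γ → Prop
  | base : CyclicTowerOver χ N U Y Y
  | step {X' X} (d : ℕ) (f : X.X ⟶ X'.X) (σ : X.X ⟶ X.X) : CyclicTowerOver χ N U Y X' →
      CoveringOver χ d N X X' f σ U → CyclicTowerOver χ N U Y X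

end Pool.Agent.N174.Cyc
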