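import Pool.Agent.N174.Cyc.Ret
import Pool.Agent.N174.Cyc.ODefs
import Pool.Agent.N174.Lef.OMain

/-!
# The Tate conjecture for cyclic coverings and products with an arbitrary variety
-/

open CategoryTheory AlgebraicGeometry Finset TensorProduct

set_option linter.unusedSectionVars false

universe u v w x

namespace Pool.Agent.N174.Cyc.Open

open Pool.Agent.H914 Pool.Agent.H914.VarClass Pool.Agent.H914.VarClass.Obj
  Pool.Agent.H914.WeilCohomology Pool.Agent.H281R3.HT Pool.Agent.W552 Pool.Agent.TH125.Gal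
  Pool.Agent.N174.Lef Pool.Agent.N174.Lef.Open

variable {k : Type u} [Field k] {𝒱 : VarClass k} {ops : CycleOps 𝒱}
  {W : WeilCohomology.{u, v} ops}

section alg

variable {X Y : 𝒱.Obj} {f : X ⟶ Y} {n : ℕ} {Γ : Type w} [Group Γ]
  {χ : Γ →* W.Kˣ} {ρ : Γ →* (W.H X ≃ₐ[W.K] W.H X)} {ρY : Γ →* (W.H Y ≃ₐ[W.K] W.H Y)}
  {s : W.H X →ₗ[W.K] W.H Y} {σ : X ⟶ X} {D' : ℕ} {ζ : W.K}

/-- The vanishing part of the diagonal is algebraic, if the retraction is. -/
theorem dQ_as0 (h : Data0 χ f ρ ρY s) (v : VB W f)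
    (hs : AOp W X Y s) : AS W (X.prod X) (dQ v) := by
  have hd : AS W (X.prod X) (W.push (diag X) 1) := AS.one.push _
  have h1 : AOp W X X (piC f s) := (aop_map f).comp hs
  have h2 : t2 (piE f s) (piE f s) (W.push (diag X) 1) =
      W.push (diag X) 1 - t2 (piC f s) (piC f s) (W.push (diag X) 1) := by
    rw [eq_sub_iff_add_eq, add_comm]
    exact (diag_split h).symm
  rw [dQ_eq h v, h2]
  have h3 : (-1 : W.K) ^ X.dim = (((-1 : ℚ) ^ X.dim : ℚ) : W.K) := by push_cast; rfl
  rw [h3]
  exact (AS.ratSub.sub hd ((aop_t2 h1 h1).apply hd)).smul _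

theorem as_span {V : 𝒱.Obj} {x : W.H V} (hx : AS W V x) : x ∈ algSpan W V :=
  AS.ind (p := fun x => x ∈ algSpan W V) (fun j x hx => alg_mem hx)
    (fun x y hx hy => Submodule.add_mem _ hx hy) hx

theorem dQA_span (h : Data0 χ f ρ ρY s) (hk : Dk f ρ D' ζ σ) (v : VB W f)
    (hs : AOp W X Y s) (i : Fin D') :
    dQA v (pr hk i) ∈ algSpan W (X.prod X) := by
  have hQ := as_span (dQ_as0 h v hs)
  rw [dQA_pr]
  refine Submodule.smul_mem _ _ (Submodule.sum_mem _ fun a _ => Submodule.smul_mem _ _ ?_)
  rw [dQA_eq v (A' := (W.map (itr σ (D' * a))).toLinearMap) (fun b hb => by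
      change W.map (itr σ (D' * a)) b ∈ vanishing W f
      rw [map_itr]
      exact van_pow hk _ hb) (fun a' b => by
      rw [sigE_pow, pow_adj hk, ← map_itr]
      rfl)]
  have h1 : t2 (W.map (itr σ (D' * a))).toLinearMap LinearMap.id (dQ v) =
      W.map (pmap (itr σ (D' * a)) (𝟙 X)) (dQ v) := by
    rw [map_pmap]
    congr 1
    have h6 : (W.map (𝟙 X)).toLinearMap = LinearMap.id := by
      apply LinearMap.ext
      intro a
      exact W.map_id X a
    rw [h6]
  rw [h1]
  exact algSpan_map _ hQ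

theorem mtchA_span (h : Data0 χ f ρ ρY s) (hk : Dk f ρ D' ζ σ) (v : VB W f)
    (hs : AOp W X Y s) {D m : ℕ}
    {q : Fin (n + 1) → Option (Fin D)} (ι : Fin m → Fin D') (e : Fin m × Fin 2 ≃ Free q) :
    mtchA (ops := ops) v (fun a => pr hk (ι a)) e ∈
      Submodule.span W.K (algClasses W (power ops X n) (X.dim * m)) := by
  refine algSpan_gr ?_ (mtchA_mem v h.middle _ e)
  rw [mtchA, List.ofFn_eq_map]
  generalize List.finRange m = L
  induction L with
  | nil => exact algSpan_one
  | cons l L ih =>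
    rw [List.map_cons, List.prod_cons]
    exact algSpan_mul (algSpan_map _ (dQA_span h hk v hs _)) ih

theorem low_opK (hs : IsTransfer W f s) (hmid : vanishing W f ≤ W.gr X X.dim) {D : ℕ}
    (q : Fin (n + 1) → Option (Fin D)) (x : Free q → vanishing W f) :
    Low (Fintype.card (Free q) * X.dim) (tens (ops := ops) (opK s q fun p => (x p : W.H X))) := by
  have h1 := tens_low (ops := ops) n (fun p => if q p = none then X.dim else 0)
    (opK s q fun p => (x p : W.H X)) (fun p => by
      by_cases h : q p = none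
      · rw [if_pos h, opK_none _ h]
        exact low_ct (hmid (x _).2)
      · obtain ⟨i, hi⟩ := Option.ne_none_iff_exists'.1 h
        rw [if_neg h, opK_some _ hi]
        exact low_sd hs i)
  rwa [Finset.sum_ite, Finset.sum_const_zero, add_zero, Finset.sum_const, smul_eq_mul,
    ← Fintype.card_subtype] at h1

end alg

variable {Γ : Type w} [Group Γ] {χ : Γ →* W.Kˣ}

theorem TO_stepC (hFR : FewRootsOfUnity W.K) {d : ℕ} {X Y : GVar W Γ} {n : ℕ} {f : X.X ⟶ Y.X}
    {σ : X.X ⟶ X.X} {U : OpenVar W Γ} (h : CoveringOver χ d (n + 1) X Y f σ U)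
    (hT : TO χ Y n U) : TO χ X n U := by
  set M := U.M with hMdef
  set τ := U.act with hτdef
  obtain ⟨g₀, hχ, h2, h3, hPL⟩ := h.node
  have hd := cc_data h.covering
  obtain ⟨D', ζ, rfl, hk⟩ := cc_dk h.covering
  have hI : EigenIrred (D' + 1) (n + 1) (vanishing W f) X.act (W.map σ) := h.irreducible
  set s := ret (W := W) (D' + 1) f with hs
  have ha : AOp W X.X Y.X s := by
    have h1 : ((D' + 1 : ℕ) : W.K)⁻¹ = ((((D' + 1 : ℕ) : ℚ)⁻¹ : ℚ) : W.K) := by push_cast; rfl
    rw [hs, ret, h1]
    exact (aop_push f).smul _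
  obtain ⟨v⟩ := exists_VB hd.transfer
  intro j c hcj ⟨Δ, hΔ, hc⟩
  have hc1 : ∀ g ∈ Δ, TensorProduct.map (pact X.act n g) (τ g) c =
      (((χ ^ j) g : W.Kˣ) : W.K) • c := by
    intro g hg
    refine (hc g hg).trans ?_
    simp
  have hsum : c = ∑ q : Fin (n + 1) → Option (Fin (2 * X.X.dim + 1)),
      (tens (piq f s q)).rTensor M c := by
    have h1 := congrArg (fun A => LinearMap.rTensorHom M A c)
      (sum_piq (ops := ops) (n := n) (f := f) s)
    beta_reduce at h1
    rw [map_sum, LinearMap.sum_apply] at h1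
    simp only [LinearMap.coe_rTensorHom, LinearMap.rTensor_id, LinearMap.id_apply] at h1
    exact h1.symm
  rw [hsum]
  refine Submodule.sum_mem _ fun q _ => ?_
  obtain ⟨L, m, e, ι, ε, z, hz, hzs, hF⟩ := core_c (D := 2 * X.X.dim + 1) hFR hd hk v (τ := τ)
    (μ := χ ^ j) hχ
    (by rw [MonoidHom.pow_apply, hχ, one_pow]) (act_eq_one h2) (LinearMap.ext h3) hPL.toPow hI hΔ hc1 q
  rw [hF]
  refine Submodule.sum_mem _ fun l _ => Submodule.smul_mem _ _ ?_
  have hm : Fintype.card (Free q) * X.X.dim = 2 * (X.X.dim * m l) := by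
    rw [card_free (e l)]
    ring
  -- the degree of the coefficients
  have hdeg : (2 * (X.X.dim * m l) ≤ 2 * j →
      z l ∈ tensDeg (W.gr (power ops Y.X n)) U.gr (2 * j - 2 * (X.X.dim * m l))) ∧
      (2 * j < 2 * (X.X.dim * m l) → z l = 0) := by
    have h6 : ∀ z ∈ Submodule.span W.K (Set.range fun x => hK f s q c x),
        (2 * (X.X.dim * m l) ≤ 2 * j →
        z ∈ tensDeg (W.gr (power ops Y.X n)) U.gr (2 * j - 2 * (X.X.dim * m l))) ∧
        (2 * j < 2 * (X.X.dim * m l) → z = 0) := by
      intro z hz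
      induction hz using Submodule.span_induction with
      | mem z hz =>
        obtain ⟨x, rfl⟩ := hz
        have h7 := low_opK (ops := ops) hd.transfer hd.middle q x
        rw [hm] at h7
        exact low_tensDeg h7 U.gr hcj
      | zero => exact ⟨fun _ => Submodule.zero_mem _, fun _ => rfl⟩
      | add a b _ _ ha hb =>
        exact ⟨fun h => Submodule.add_mem _ (ha.1 h) (hb.1 h), fun h => by
          rw [ha.2 h, hb.2 h, add_zero]⟩
      | smul r a _ ha =>
        exact ⟨fun h => Submodule.smul_mem _ _ (ha.1 h), fun h => by rw [ha.2 h, smul_zero]⟩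
    exact h6 _ (hzs l)
  by_cases hj : 2 * (X.X.dim * m l) ≤ 2 * j
  · have hle : X.X.dim * m l ≤ j := by omega
    have h8 := hdeg.1 hj
    rw [show 2 * j - 2 * (X.X.dim * m l) = 2 * (j - X.X.dim * m l) by omega] at h8
    have h9 := hT (j - X.X.dim * m l) _ h8 (by
      obtain ⟨Δ', hΔ', hz'⟩ := hz l
      refine ⟨Δ', hΔ', fun g hg => ?_⟩
      refine (hz' g hg).trans ?_
      congr 1
      rw [MonoidHom.pow_apply, Units.val_pow_eq_pow_val, ← pow_sub₀ _ (Units.ne_zero _) hle])
    have h12 := mtchA_span hd hk v ha (ι l) (e l)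
    have h14 : X.X.dim * m l + (j - X.X.dim * m l) = j := Nat.add_sub_cancel' hle
    have h13 : ∀ a ∈ Submodule.span W.K (algClasses W (power ops X.X n) (X.X.dim * m l)),
        (LinearMap.mulLeft W.K a).rTensor U.M ((W.map (powerMap ops f n)).toLinearMap.rTensor U.M
          (z l)) ∈ U.cyc (power ops X.X n) j := by
      intro a ha
      induction ha using Submodule.span_induction with
      | mem a ha =>
        have h15 := U.mul _ _ _ a ha _ (U.pull (powerMap ops f n) _ _ h9)
        rwa [h14] at h15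
      | zero =>
        rw [show LinearMap.mulLeft W.K (0 : W.H (power ops X.X n)) = 0 by
          apply LinearMap.ext
          intro b
          exact zero_mul b, LinearMap.rTensor_zero]
        exact Submodule.zero_mem _
      | add a b _ _ ha hb =>
        rw [show LinearMap.mulLeft W.K (a + b) = LinearMap.mulLeft W.K a +
            LinearMap.mulLeft W.K b by
          apply LinearMap.ext
          intro c
          exact add_mul a b c, LinearMap.rTensor_add]
        exact Submodule.add_mem _ ha hb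
      | smul r a _ ha =>
        rw [show LinearMap.mulLeft W.K (r • a) = r • LinearMap.mulLeft W.K a by
          apply LinearMap.ext
          intro c
          exact smul_mul_assoc r a c, LinearMap.rTensor_smul]
        exact Submodule.smul_mem _ _ ha
    have h16 := h13 _ h12
    rw [← LinearMap.comp_apply, ← LinearMap.rTensor_comp] at h16
    exact h16
  · rw [hdeg.2 (by omega), map_zero]
    exact Submodule.zero_mem _

theorem TO_towerC (hFR : FewRootsOfUnity W.K) {X Y : GVar W Γ} {n : ℕ} {U : OpenVar W Γ}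
    (h : CyclicTowerOver χ (n + 1) U Y X) (hT : TO χ Y n U) : TO χ X n U := by
  induction h with
  | base => exact hT
  | step d f σ _ hf ih => exact TO_stepC hFR hf ih

/-- **The Tate conjecture for cyclic coverings and products with an open variety.** -/
theorem tate_open_cyclic (hFR : FewRootsOfUnity W.K) {X Y V V' : GVar W Γ} {n : ℕ}
    {U : OpenVar W Γ} (h : CyclicTowerOver χ (n + 1) U Y X)
    (hX : IsPower X n V) (hY : IsPower Y n V') (hT : TateTimes χ V' U) : TateTimes χ V U :=
  (TO_iff hX).2 (TO_towerC hFR h ((TO_iff hY).1 hT))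

end Pool.Agent.N174.Cyc.Open
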