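import Pool.Agent.N174.Cyc.Fft
import Pool.Agent.N174.Lef.Step

/-!
# Contractions with twisted forms
-/

open CategoryTheory AlgebraicGeometry Finset Function TensorProduct

set_option linter.unusedSectionVars false

universe u v w x

namespace Pool.Agent.N174.Cyc

open Pool.Agent.H914 Pool.Agent.H914.VarClass Pool.Agent.H914.VarClass.Obj
  Pool.Agent.H914.WeilCohomology Pool.Agent.H281R3.HT Pool.Agent.W552 Pool.Agent.TH125.Gal
  Pool.Agent.N174.Lef

section pattern

variable {K : Type u} [Field K] {A : Type v} [Ring A] [Algebra K A] {JC JT : Type} {N : ℕ}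

/-- **Sums of monomials over the free positions of a pattern**, with different matrices. -/
theorem sum_pattern_var [Fintype JT] [DecidableEq JT] (dg : JC ⊕ JT → ℕ)
    {d : ℕ} (hd : ∀ j, dg (Sum.inr j) = d) {c : Fin N → Option JC} {m : ℕ}
    (e : Fin m × Fin 2 ≃ Free c) :
    ∃ ε : ℤ, ε * ε = 1 ∧ ∀ E : Fin N → JC ⊕ JT → A,
      (∀ p q, p ≠ q → ∀ i j, E p i * E q j = (-1 : K) ^ (dg i * dg j) • (E q j * E p i)) →
      ∀ Q : Fin m → JT → JT → K, ∑ r : Free c → JT,
        (∏ l, Q l (r (e (l, 0))) (r (e (l, 1)))) •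
        (List.ofFn fun p => E p (comb c r p)).prod =
      (ε : K) • ((List.ofFn fun l : Fin m => ∑ a : Fin 2 → JT, Q l (a 0) (a 1) •
        (E (e (l, 0)).1 (Sum.inr (a 0)) * E (e (l, 1)).1 (Sum.inr (a 1)))).prod *
        ((fixList c).map fun p => (c p).elim 1 fun i => E p (Sum.inl i)).prod) := by
  obtain ⟨ε, h1, h2⟩ := perm_sign (K := K) (A := A)
    (fun p => (c p).elim d fun i => dg (Sum.inl i)) (perm_lists e) (List.nodup_finRange N)
  refine ⟨ε, h1, fun E hE Q => ?_⟩
  have hdeg : ∀ (r : Free c → JT) p, dg (comb c r p) = (c p).elim d fun i => dg (Sum.inl i) := by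
    intro r p
    cases h : c p with
    | none => rw [comb_none r ⟨p, h⟩, hd]; rfl
    | some i => rw [comb_some r h]; rfl
  have h3 : ∀ r : Free c → JT, (List.ofFn fun p => E p (comb c r p)).prod =
      (ε : K) • ((List.ofFn fun l : Fin m =>
        E (e (l, 0)).1 (Sum.inr (r (e (l, 0)))) * E (e (l, 1)).1 (Sum.inr (r (e (l, 1))))).prod *
        ((fixList c).map fun p => (c p).elim 1 fun i => E p (Sum.inl i)).prod) := by
    intro r
    have h4 := h2 (fun p => E p (comb c r p)) fun p q hpq => by
      rw [hE p q hpq, hdeg, hdeg]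
    have h5 : ((pairList e).map fun p => E p (comb c r p)).prod = (List.ofFn fun l : Fin m =>
        E (e (l, 0)).1 (Sum.inr (r (e (l, 0)))) *
          E (e (l, 1)).1 (Sum.inr (r (e (l, 1))))).prod := by
      rw [pairList, List.map_flatMap, List.ofFn_eq_map]
      generalize List.finRange m = L
      induction L with
      | nil => rfl
      | cons l L ih =>
        rw [List.flatMap_cons, List.prod_append, ih, List.map_cons, List.prod_cons]
        congr 1
        simp only [List.map_cons, List.map_nil, List.prod_cons, List.prod_nil, mul_one]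
        rw [comb_none, comb_none]
    have h6 : ((fixList c).map fun p => E p (comb c r p)) =
        ((fixList c).map fun p => (c p).elim 1 fun i => E p (Sum.inl i)) := by
      refine List.map_congr_left fun p hp => ?_
      rw [mem_fixList] at hp
      cases h : c p with
      | none => exact absurd h hp
      | some i => rw [comb_some r h]; rfl
    rw [List.map_append, List.prod_append, h5, h6] at h4
    rw [List.ofFn_eq_map, h4, smul_smul]
    have h7 : (ε : K) * (ε : K) = 1 := by
      rw [← Int.cast_mul, h1, Int.cast_one]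
    rw [h7, one_smul]
  have h8 : ∑ r : Free c → JT, (∏ l, Q l (r (e (l, 0))) (r (e (l, 1)))) •
      (List.ofFn fun l : Fin m =>
        E (e (l, 0)).1 (Sum.inr (r (e (l, 0)))) * E (e (l, 1)).1 (Sum.inr (r (e (l, 1))))).prod =
      (List.ofFn fun l : Fin m => ∑ a : Fin 2 → JT, Q l (a 0) (a 1) •
        (E (e (l, 0)).1 (Sum.inr (a 0)) * E (e (l, 1)).1 (Sum.inr (a 1)))).prod := by
    rw [← sum_prod]
    refine Fintype.sum_equiv ((Equiv.arrowCongr e.symm (Equiv.refl JT)).trans
      (Equiv.curry _ _ _)) _ _ fun r => ?_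
    rfl
  rw [← h8, Finset.sum_mul, Finset.smul_sum]
  refine Finset.sum_congr rfl fun r _ => ?_
  rw [h3, smul_comm, smul_mul_assoc]

end pattern

variable {k : Type u} [Field k] {𝒱 : VarClass k} {ops : CycleOps 𝒱}
  {W : WeilCohomology.{u, v} ops} {X Y : 𝒱.Obj} {f : X ⟶ Y} {n D : ℕ}

variable (v : VB W f)

/-- the class given by the twisted Gram matrix of the dual classes -/
noncomputable def dQA (A : vanishing W f →ₗ[W.K] vanishing W f) : W.H (X.prod X) :=
  ∑ a : Fin 2 → Fin v.N, bil W X (A (v.u (a 0)) : W.H X) (v.u (a 1)) •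
    (W.map (fst X X) (v.t (a 0)) * W.map (snd X X) (v.t (a 1)))

/-- the product of the twisted classes of a matching -/
noncomputable def mtchA {q : Fin (n + 1) → Option (Fin D)} {m : ℕ}
    (A : Fin m → (vanishing W f →ₗ[W.K] vanishing W f)) (e : Fin m × Fin 2 ≃ Free q) :
    W.H (power ops X n) :=
  (List.ofFn fun l => W.map (Obj.lift (powerPrj ops X n (e (l, 0)).1)
    (powerPrj ops X n (e (l, 1)).1)) (dQA v (A l))).prod

/-- **Sums over the free positions.** -/
theorem dstar0A (hmid : vanishing W f ≤ W.gr X X.dim) {q : Fin (n + 1) → Option (Fin D)} {m : ℕ}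
    (e : Fin m × Fin 2 ≃ Free q) : ∃ ε : ℤ,
      ∀ (A : Fin m → (vanishing W f →ₗ[W.K] vanishing W f)) (y : Fin (n + 1) → W.H Y),
      (∀ p, q p = none → y p = 1) → (∀ p i, q p = some i → y p ∈ W.gr Y i) →
      ∑ r : Free q → Fin v.N,
        (∏ l, bil W X (A l (v.u (r (e (l, 0)))) : W.H X) (v.u (r (e (l, 1))))) •
          tens (opR v q r) (mono (powerPrj ops Y n) y) =
        (ε : W.K) • (mtchA v A e * W.map (powerMap ops f n) (mono (powerPrj ops Y n) y)) := by
  obtain ⟨ε, -, hε⟩ := sum_pattern_var (K := W.K) (A := W.H (power ops X n)) (JC := Fin D)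
    (JT := Fin v.N) (fun i => i.elim (fun i : Fin D => (i : ℕ)) fun _ => X.dim) (d := X.dim)
    (fun _ => rfl) e
  refine ⟨ε, fun A y hy1 hy2 => ?_⟩
  have h1 := hε (fun p i => i.elim
      (fun i : Fin D => W.map (powerPrj ops X n p) (proj (W.isInternal X) i (W.map f (y p))))
      fun j => W.map (powerPrj ops X n p) (v.t j : W.H X))
    (fun p p' _ i j => by
      refine W.comm ?_ ?_
      · rcases i with i | i
        · exact W.map_mem _ (proj_mem _ _ _)
        · exact W.map_mem _ (hmid (v.t i).2)
      · rcases j with i | i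
        · exact W.map_mem _ (proj_mem _ _ _)
        · exact W.map_mem _ (hmid (v.t i).2))
    (fun l i j => bil W X (A l (v.u i) : W.H X) (v.u j))
  have h2 : ∀ r : Free q → Fin v.N, tens (opR v q r) (mono (powerPrj ops Y n) y) =
      (List.ofFn fun p => (fun p (i : Fin D ⊕ Fin v.N) => i.elim
        (fun i : Fin D => W.map (powerPrj ops X n p) (proj (W.isInternal X) i (W.map f (y p))))
        fun j => W.map (powerPrj ops X n p) (v.t j : W.H X)) p (comb q r p)).prod := by
    intro r
    rw [tens_mono, mono]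
    congr 2
    funext p
    beta_reduce
    by_cases h : q p = none
    · rw [opR_none v r h, hy1 p h, map_one, one_mul, comb_none r ⟨p, h⟩]
      rfl
    · obtain ⟨i, hi⟩ := Option.ne_none_iff_exists'.1 h
      rw [opR_some v r h, comb_some r hi]
      change _ = W.map (powerPrj ops X n p) (proj (W.isInternal X) i (W.map f (y p)))
      rw [proj_same _ (W.map_mem f (hy2 p i hi))]
  simp only [h2]
  refine h1.trans ?_
  congr 2
  · rw [mtchA]
    congr 2
    funext l
    rw [dQA, map_sum]
    refine Finset.sum_congr rfl fun a _ => ?_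
    rw [map_smul, map_mul, ← W.map_comp, ← W.map_comp, Obj.lift_fst, Obj.lift_snd]
    rfl
  · rw [map_powerMap, mono, prod_fixList q]
    · congr 1
      refine List.map_congr_left fun p hp => ?_
      rw [mem_fixList] at hp
      obtain ⟨i, hi⟩ := Option.ne_none_iff_exists'.1 hp
      rw [hi]
      change W.map (powerPrj ops X n p) (proj (W.isInternal X) i (W.map f (y p))) = _
      rw [proj_same _ (W.map_mem f (hy2 p i hi))]
    · intro p hp
      rw [hy1 p hp, map_one, map_one]

/-- **Sums over the free positions**, second form. -/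
theorem dstarA {s : W.H X →ₗ[W.K] W.H Y} (hs : IsTransfer W f s)
    (hmid : vanishing W f ≤ W.gr X X.dim) {q : Fin (n + 1) → Option (Fin D)} {m : ℕ}
    (e : Fin m × Fin 2 ≃ Free q) : ∃ ε : ℤ,
      ∀ (A : Fin m → (vanishing W f →ₗ[W.K] vanishing W f)) (x : Free q → vanishing W f),
      ∑ r : Free q → Fin v.N,
        (∏ l, bil W X (A l (v.u (r (e (l, 0)))) : W.H X) (v.u (r (e (l, 1))))) •
          (tens (opR v q r) ∘ₗ tens (opK s q fun p => (x p : W.H X))) =
        (ε : W.K) • (LinearMap.mulLeft W.K (mtchA (ops := ops) v A e) ∘ₗ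
          (W.map (powerMap ops f n)).toLinearMap ∘ₗ tens (opK s q fun p => (x p : W.H X))) := by
  obtain ⟨ε, hε⟩ := dstar0A (ops := ops) v hmid e
  refine ⟨ε, fun A x => mono_ext fun a => ?_⟩
  -- the scalars
  let β : Fin (n + 1) → W.K := fun p => if h : q p = none then bil W X (x ⟨p, h⟩) (a p) else 1
  let y : Fin (n + 1) → W.H Y := fun p => if q p = none then 1 else
    opK s q (fun p => (x p : W.H X)) p (a p)
  have h1 : tens (opK s q fun p => (x p : W.H X)) (mono (powerPrj ops X n) a) =
      (∏ p, β p) • mono (powerPrj ops Y n) y := by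
    rw [tens_mono, ← monoML_apply, ← monoML_apply, ← MultilinearMap.map_smul_univ]
    congr 1
    funext p
    by_cases h : q p = none
    · simp only [β, y]
      rw [dif_pos h, if_pos h, opK_none _ h, ct_apply]
    · simp only [β, y]
      rw [dif_neg h, if_neg h, one_smul]
  have h2 := hε A y (fun p hp => if_pos hp) (fun p i hi => by
    simp only [y]
    rw [if_neg (by rw [hi]; exact Option.some_ne_none i), opK_some _ hi]
    exact hs.gr_mem _ _ (proj_mem _ _ _))
  rw [LinearMap.sum_apply]
  simp only [LinearMap.smul_apply, LinearMap.comp_apply, h1, map_smul]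
  simp only [smul_comm _ (∏ p, β p)]
  rw [← Finset.smul_sum, h2]
  rfl

/-- the class with the twisted classes of a matching as coefficient -/
noncomputable def mextA (v : VB W f) {q : Fin (n + 1) → Option (Fin D)} {m : ℕ}
    (A : Fin m → (vanishing W f →ₗ[W.K] vanishing W f)) (e : Fin m × Fin 2 ≃ Free q) :
    W.H (power ops Y n) →ₗ[W.K] W.H (power ops X n) :=
  LinearMap.mulLeft W.K (mtchA (ops := ops) v A e) ∘ₗ (W.map (powerMap ops f n)).toLinearMap

end Pool.Agent.N174.Cyc
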