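import Pool.Agent.N174.Cyc.Alg
import Pool.Agent.N174.Lef.PLef

/-!
# The retraction of a cyclic covering
-/

open CategoryTheory AlgebraicGeometry Finset

universe u v w

namespace Pool.Agent.N174.Cyc

open Pool.Agent.H914 Pool.Agent.H914.VarClass Pool.Agent.H914.VarClass.Obj
  Pool.Agent.H914.WeilCohomology Pool.Agent.H281R3.HT Pool.Agent.W552 Pool.Agent.TH125.Gal
  Pool.Agent.N174.Lef

variable {k : Type u} [Field k] {𝒱 : VarClass k} {ops : CycleOps 𝒱}
  {W : WeilCohomology.{u, v} ops} {Γ : Type w} [Group Γ] {χ : Γ →* W.Kˣ}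

section cover

variable {X Y : GVar W Γ} {f : X.X ⟶ Y.X} {d : ℕ} {σ : X.X ⟶ X.X}

/-- the properties of a cyclic covering -/
abbrev CC (χ : Γ →* W.Kˣ) (d : ℕ) (X Y : GVar W Γ) (f : X.X ⟶ Y.X) (σ : X.X ⟶ X.X) : Prop :=
  CoveringAct χ d X.X.dim Y.X.dim (W.gr X.X) (W.tr X.X) (algClasses W X.X) (W.map f) (W.push f)
    X.act Y.act (W.map σ)

/-- the push-forward preserves the degrees -/
theorem push_gr (h : CC χ d X Y f σ) {i : ℕ} {a : W.H X.X} (ha : a ∈ W.gr X.X i) :
    W.push f a ∈ W.gr Y.X i := by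
  have h1 := W.push_mem f ha
  rwa [h.dim_eq, sub_self, mul_zero, add_zero, grZ_natCast] at h1

theorem push_pull' (h : CC χ d X Y f σ) (b : W.H Y.X) :
    W.push f (W.map f b) = (d : W.K) • b := by
  have h1 := W.push_mul f 1 b
  rw [one_mul, h.cover.push_one, smul_mul_assoc, one_mul] at h1
  exact h1

theorem cover_ne (h : CC χ d X Y f σ) : (d : W.K) ≠ 0 := by
  have := h.odd.pos
  exact Nat.cast_ne_zero.2 (by omega)

/-- the retraction -/
noncomputable def ret (d : ℕ) (f : X.X ⟶ Y.X) : W.H X.X →ₗ[W.K] W.H Y.X :=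
  ((d : W.K)⁻¹) • W.push f

theorem ret_apply (a : W.H X.X) : ret (W := W) d f a = ((d : W.K)⁻¹) • W.push f a := rfl

theorem cc_data (h : CC χ d X Y f σ) :
    Data0 χ f X.act Y.act (ret d f) := by
  refine ⟨h.galois.gr_mem, h.galois.tr_act, h.equivariant, ⟨fun i a ha => ?_, fun a => ?_,
    fun a ha => ?_⟩, ⟨⊤, inferInstance, fun g _ a => ?_⟩, h.middle⟩
  · exact Submodule.smul_mem _ _ (push_gr h ha)
  · change W.push f (a - W.map f (ret d f a)) = 0
    rw [map_sub, push_pull' h, ret_apply, smul_smul, mul_inv_cancel₀ (cover_ne h), one_smul,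
      sub_self]
  · rw [ret_apply, show W.push f a = 0 from ha, smul_zero]
  · rw [ret_apply, ret_apply, map_smul, h.push_act]

theorem cc_dk (h : CC χ d X Y f σ) :
    ∃ (D' : ℕ) (ζ : W.K), d = D' + 1 ∧ Dk f X.act D' ζ σ := by
  obtain ⟨ζ, hζ⟩ := h.root
  obtain ⟨m, rfl⟩ := h.odd
  refine ⟨2 * m, ζ, rfl, even_two_mul m, hζ, h.cover.comp, fun a => ?_, h.deck.trace,
    h.deck.commute, fun a ha => ?_⟩
  · rw [pow_iter]
    exact h.deck.order a
  · simp only [pow_iter]
    rw [← h.cover.pull_push, show W.push f a = 0 from ha, map_zero]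

end cover

end Pool.Agent.N174.Cyc
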