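import Pool.Agent.N174.Cyc.Avg
import Pool.Agent.W522.U.S3

/-!
# The Lie algebra of a decomposed representation with complex reflections
-/

open Finset Function

set_option linter.unusedSectionVars false

namespace Pool.Agent.N174.Cyc

open Pool.Agent.TH125.Gal

universe u v w x

section defs

variable {K : Type u} [Field K] {T : Type v} [AddCommGroup T] [Module K T]
  {G : Type x} [Group G] {I : Type} [Fintype I] [DecidableEq I]

/-- an equivariant decomposition with a duality -/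
structure Dec (B : T →ₗ[K] T →ₗ[K] K) (ρ : G →* (T →ₗ[K] T)) (p : I → (T →ₗ[K] T))
    (bar : I → I) : Prop where
  sum : ∀ x, ∑ i, p i x = x
  orth : ∀ i j x, p i (p j x) = if i = j then p i x else 0
  bar_bar : ∀ i, bar (bar i) = i
  bar_ne : ∀ i, bar i ≠ i
  adj : ∀ i x y, B (p i x) y = B x (p (bar i) y)
  comm : ∀ g i x, ρ g (p i x) = p i (ρ g x)

/-- the component -/
def cp (p : I → (T →ₗ[K] T)) (i : I) : Submodule K T := LinearMap.range (p i)

variable {B : T →ₗ[K] T →ₗ[K] K} {ρ : G →* (T →ₗ[K] T)} {p : I → (T →ₗ[K] T)} {bar : I → I}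

theorem Dec.idem (h : Dec B ρ p bar) (i : I) (x : T) : p i (p i x) = p i x := by
  rw [h.orth, if_pos rfl]

theorem Dec.mem (h : Dec B ρ p bar) {i : I} {x : T} : x ∈ cp p i ↔ p i x = x := by
  constructor
  · rintro ⟨y, rfl⟩
    exact h.idem i y
  · intro hx
    exact ⟨x, hx⟩

theorem Dec.ne_zero (h : Dec B ρ p bar) {i j : I} {x : T} (hx : x ∈ cp p j) (hij : i ≠ j) :
    p i x = 0 := by
  rw [← h.mem.1 hx, h.orth, if_neg hij]

theorem Dec.stable (h : Dec B ρ p bar) (i : I) (g : G) {x : T} (hx : x ∈ cp p i) :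
    ρ g x ∈ cp p i := by
  rw [h.mem] at hx ⊢
  rw [← h.comm, hx]

theorem Dec.pair (h : Dec B ρ p bar) {i : I} {x : T} (hx : x ∈ cp p i) (y : T) :
    B x y = B x (p (bar i) y) := by
  conv_lhs => rw [← h.mem.1 hx, h.adj]

variable {E : Type w} [AddCommGroup E] [Module K E] {σ : G →* (E →ₗ[K] E)} (S : Type) [Fintype S]
  [DecidableEq S]

/-- The skew operators, commuting with the projections, that kill all equivariant maps. -/
def LC (B : T →ₗ[K] T →ₗ[K] K) (ρ : G →* (T →ₗ[K] T)) (σ : G →* (E →ₗ[K] E))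
    (p : I → (T →ₗ[K] T)) : Submodule K (T →ₗ[K] T) where
  carrier := {X | X ∈ LL S B ρ σ ∧ ∀ i x, X (p i x) = p i (X x)}
  zero_mem' := ⟨Submodule.zero_mem _, fun i x => by simp⟩
  add_mem' := fun hX hY => ⟨Submodule.add_mem _ hX.1 hY.1, fun i x => by
    rw [LinearMap.add_apply, LinearMap.add_apply, hX.2, hY.2, map_add]⟩
  smul_mem' := fun c X hX => ⟨Submodule.smul_mem _ _ hX.1, fun i x => by
    rw [LinearMap.smul_apply, LinearMap.smul_apply, hX.2, map_smul]⟩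

variable {S}

theorem LC_bracket {X Y : T →ₗ[K] T} (hX : X ∈ LC S B ρ σ p) (hY : Y ∈ LC S B ρ σ p) :
    X ∘ₗ Y - Y ∘ₗ X ∈ LC S B ρ σ p :=
  ⟨LL_bracket hX.1 hY.1, fun i x => by
    rw [LinearMap.sub_apply, LinearMap.sub_apply, LinearMap.comp_apply, LinearMap.comp_apply,
      LinearMap.comp_apply, LinearMap.comp_apply, hY.2, hX.2, hX.2, hY.2, map_sub]⟩

theorem LC_conj (h : Dec B ρ p bar) {μ : G → K} (hB : ∀ g x y, B (ρ g x) (ρ g y) = μ g * B x y)
    {X : T →ₗ[K] T} (hX : X ∈ LC S B ρ σ p) (γ : G) : ρ γ ∘ₗ X ∘ₗ ρ γ⁻¹ ∈ LC S B ρ σ p :=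
  ⟨LL_conj hB hX.1 γ, fun i x => by
    rw [LinearMap.comp_apply, LinearMap.comp_apply, LinearMap.comp_apply, LinearMap.comp_apply,
      h.comm, hX.2, h.comm]⟩

theorem LC_stable (h : Dec B ρ p bar) {X : T →ₗ[K] T} (hX : X ∈ LC S B ρ σ p) (i : I) {x : T}
    (hx : x ∈ cp p i) : X x ∈ cp p i := by
  rw [h.mem] at hx ⊢
  rw [← hX.2, hx]

end defs

section elements

variable {K : Type u} [Field K] [CharZero K] {T : Type v} [AddCommGroup T] [Module K T]
  [FiniteDimensional K T]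
  {G : Type x} [Group G] {I : Type} [Fintype I] [DecidableEq I]
  {B : T →ₗ[K] T →ₗ[K] K} {ρ : G →* (T →ₗ[K] T)} {p : I → (T →ₗ[K] T)} {bar : I → I}
  {E : Type w} [AddCommGroup E] [Module K E] {σ : G →* (E →ₗ[K] E)} {S : Type} [Fintype S]
  [DecidableEq S] {μ : G →* K}

open Pool.Agent.H204R3.SP in
/-- Operators killing all forms invariant under powers of one element. -/
theorem mem_LC (h : Dec B ρ p bar) (hnd : ∀ x, (∀ y, B x y = 0) → x = 0)
    (hB : ∀ g x y, B (ρ g x) (ρ g y) = μ g * B x y) {n : G} (hμ : μ n = 1) (hσ : σ n = 1)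
    {X : T →ₗ[K] T} (hX : ∀ (S : Type) [Fintype S] [DecidableEq S] (M : ℕ), 1 ≤ M →
      ∀ φ : MultilinearMap K (fun _ : S => T) K, (∀ v, φ (fun j => ((ρ n) ^ M) (v j)) = φ v) →
        Kill X φ) : X ∈ LC S B ρ σ p := by
  classical
  have hB1 : ∀ x y, B (ρ n x) (ρ n y) = B x y := fun x y => by rw [hB, hμ, one_mul]
  have hbil : ∀ A : T →ₗ[K] T, (∀ x, ρ n (A x) = A (ρ n x)) →
      ∀ x y, B (A (X x)) y + B (A x) (X y) = 0 := by
    intro A hA x y
    have h1 := hX (Fin 2) 1 le_rfl (bil2 (B ∘ₗ A)) (fun v => by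
      rw [bil2_apply, bil2_apply, pow_one]
      change B (A (ρ n (v 0))) (ρ n (v 1)) = B (A (v 0)) (v 1)
      rw [← hA, hB1]) (fun k => if k = 0 then x else y)
    rw [Fin.sum_univ_two, bil2_apply, bil2_apply, update_self, update_self,
      update_of_ne (by decide), update_of_ne (by decide)] at h1
    exact h1
  have hskew : Skew B X := fun x y => hbil LinearMap.id (fun x => rfl) x y
  refine ⟨⟨hskew, fun φ hφ v => ?_⟩, fun i x => ?_⟩
  · obtain ⟨Δ, hΔ, hφ⟩ := hφ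
    obtain ⟨M, hM, -, hMΔ⟩ := Subgroup.exists_pow_mem_of_index_ne_zero hΔ.index_ne_zero n
    rw [← Module.forall_dual_apply_eq_zero_iff K]
    intro w
    rw [map_sum]
    exact hX S M hM (w.compMultilinearMap φ) (fun v => by
      have h1 := hφ _ hMΔ v
      rw [map_pow, map_pow, hσ, one_pow] at h1
      change w (φ fun j => (ρ n ^ M) (v j)) = w (φ v)
      rw [h1]
      rfl) v
  · have h1 : ∀ y, B (X (p i x) - p i (X x)) y = 0 := by
      intro y
      have h2 := hbil (p i) (fun x => h.comm n i x) x y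
      have h3 := hskew (p i x) y
      rw [map_sub, LinearMap.sub_apply]
      linear_combination h3 - h2
    exact sub_eq_zero.1 (hnd _ h1)

/-- a complex reflection which separates the component `i` from the others -/
def HasRefl (ρ : G →* (T →ₗ[K] T)) (p : I → (T →ₗ[K] T)) (bar : I → I) (μ : G →* K)
    (σ : G →* (E →ₗ[K] E)) (i : I) : Prop :=
  ∃ (g : G) (d : I → T) (φ : I → (T →ₗ[K] K)) (ε : I → K) (k : ℕ), μ g = 1 ∧ σ g = 1 ∧ 1 ≤ k ∧
    (∀ j, Refl ρ (cp p j) g (d j) (φ j) (ε j)) ∧ (∀ j, ε j ^ k = 1) ∧ ε i ≠ 1 ∧ ε i * ε i ≠ 1 ∧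
    ∀ j, j ≠ i → j ≠ bar i → ε j ≠ ε i ∧ ε j ≠ (ε i)⁻¹

/-- the determinant on a component -/
noncomputable def detOn (ρ : G →* (T →ₗ[K] T)) (U : Submodule K T)
    (hst : ∀ g, ∀ u ∈ U, ρ g u ∈ U) : G →* K where
  toFun g := LinearMap.det (LinearMap.restrict (ρ g) (hst g))
  map_one' := by
    have h1 : LinearMap.restrict (ρ 1) (hst 1) = LinearMap.id := by
      apply LinearMap.ext
      intro u
      apply Subtype.ext
      change ρ 1 (u : T) = u
      rw [map_one]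
      rfl
    rw [h1, LinearMap.det_id]
  map_mul' g g' := by
    rw [← LinearMap.det_comp]
    congr 1
    apply LinearMap.ext
    intro u
    apply Subtype.ext
    change ρ (g * g') (u : T) = ρ g (ρ g' (u : T))
    rw [map_mul]
    rfl

theorem det_refl {U : Submodule K T} (hst : ∀ g, ∀ u ∈ U, ρ g u ∈ U) {g : G} {d : T}
    {φ : T →ₗ[K] K} {ε : K} (hr : Refl ρ U g d φ ε) {k : ℕ} (hk : ε ^ k = 1) :
    detOn ρ U hst g ^ k = 1 := by
  rw [← map_pow]
  have h1 : LinearMap.restrict (ρ (g ^ k)) (hst _) = LinearMap.id := by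
    apply LinearMap.ext
    intro u
    apply Subtype.ext
    change ρ (g ^ k) (u : T) = u
    rw [refl_pow hr k _ u.2, hk, sub_self, zero_mul, zero_smul, add_zero]
  change LinearMap.det (LinearMap.restrict (ρ (g ^ k)) (hst _)) = 1
  rw [h1, LinearMap.det_id]

/-- **A nonscalar operator.** -/
theorem exists_LC (hK : FewRootsOfUnity K) (h : Dec B ρ p bar)
    (hnd : ∀ x, (∀ y, B x y = 0) → x = 0)
    (hB : ∀ g x y, B (ρ g x) (ρ g y) = μ g * B x y) {i : I} (hU : SIon ρ (cp p i))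
    (h2 : 2 ≤ Module.finrank K (cp p i)) {g : G} {d : T} {φ : T →ₗ[K] K} {ε : K} {k : ℕ}
    (hμ : μ g = 1) (hσ : σ g = 1) (hr : Refl ρ (cp p i) g d φ ε) (hε : ε ≠ 1) (hk : 1 ≤ k)
    (hεk : ε ^ k = 1) : ∃ X ∈ LC S B ρ σ p, ¬ ∃ c : K, ∀ u ∈ cp p i, X u = c • u := by
  classical
  have hst : ∀ g, ∀ u ∈ cp p i, ρ g u ∈ cp p i := fun g u hu => h.stable i g hu
  let N : Subgroup G := μ.ker ⊓ σ.ker ⊓ (powMonoidHom k |>.comp (detOn ρ (cp p i) hst)).ker
  have hN : N.Normal := inferInstance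
  have hgN : g ∈ N := by
    refine ⟨⟨hμ, hσ⟩, ?_⟩
    exact det_refl hst hr hεk
  obtain ⟨n, hn, a, ha, ha1⟩ := exists_inf hK hst hU hr hε hN hgN h2
  obtain ⟨X, hX, hX'⟩ := exists_nonscalar (ρ n) (cp p i) (hst n) ha ha1 hk (by
    have h3 := hn.2
    exact h3)
  exact ⟨X, mem_LC h hnd hB hn.1.1 hn.1.2 hX, hX'⟩

/-- **An operator of rank one on one component.** -/
theorem rank_one (hK : FewRootsOfUnity K) (h : Dec B ρ p bar)
    (hnd : ∀ x, (∀ y, B x y = 0) → x = 0)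
    (hB : ∀ g x y, B (ρ g x) (ρ g y) = μ g * B x y) {i : I} (hU : SIon ρ (cp p i))
    (h2 : 2 ≤ Module.finrank K (cp p i)) (hr : HasRefl ρ p bar μ σ i) :
    ∃ (u : T) (ψ : T →ₗ[K] K) (X : T →ₗ[K] T), u ∈ cp p i ∧ u ≠ 0 ∧ (∃ x ∈ cp p i, ψ x ≠ 0) ∧
      ψ u = 0 ∧ X ∈ LC S B ρ σ p ∧ (∀ x ∈ cp p i, X x = ψ x • u) ∧
      ∀ j, j ≠ i → j ≠ bar i → ∀ x ∈ cp p j, X x = 0 := by
  classical
  obtain ⟨g, d, φ, ε, k, hμ, hσ, hk, href, hεk, hi1, hi2, hij⟩ := hr
  obtain ⟨Y0, hY0, hns⟩ := exists_LC (S := S) (E := E) hK h hnd hB hU h2 hμ hσ (href i) hi1 hk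
    (hεk i)
  have hst : ∀ g, ∀ u ∈ cp p i, ρ g u ∈ cp p i := fun g u hu => h.stable i g hu
  have hri := href i
  have hε0 := refl_ne hri
  obtain ⟨Y, hY, hYd⟩ : ∃ Y ∈ LC S B ρ σ p, Y (d i) - φ i (Y (d i)) • d i ≠ 0 := by
    by_contra hcon
    push Not at hcon
    exact hns (scalar_of_vector hst hU (LC S B ρ σ p) (fun g Y hY => LC_conj h hB hY g) hri.mem
      hri.ne (fun Y hY => ⟨φ i (Y (d i)), sub_eq_zero.1 (hcon Y hY)⟩) Y0 hY0)
  have hμk : ((ε i)⁻¹) ^ k = 1 := by rw [inv_pow, hεk, inv_one]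
  have hμ1 : (ε i)⁻¹ ≠ 1 := fun h => hi1 (inv_eq_one.1 h)
  have hμ0 : (ε i)⁻¹ ≠ 0 := inv_ne_zero hε0
  have hμ2 : ε i ≠ (ε i)⁻¹ := by
    intro h3
    apply hi2
    nth_rewrite 2 [h3]
    exact mul_inv_cancel₀ hε0
  have hkK : (k : K) ≠ 0 := Nat.cast_ne_zero.2 (by omega)
  have hYst : ∀ j, ∀ u ∈ cp p j, Y u ∈ cp p j := fun j u hu => LC_stable h hY j hu
  refine ⟨Y (d i) - φ i (Y (d i)) • d i, (k : K) • φ i, avg ρ g k (ε i)⁻¹ Y, ?_, hYd,
    ⟨d i, hri.mem, ?_⟩, ?_, ?_, ?_, ?_⟩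
  · exact (cp p i).sub_mem (hYst i _ hri.mem) ((cp p i).smul_mem _ hri.mem)
  · rw [LinearMap.smul_apply, hri.val, smul_eq_mul, mul_one]
    exact hkK
  · rw [LinearMap.smul_apply, map_sub, map_smul, hri.val, smul_eq_mul, smul_eq_mul, mul_one,
      sub_self, mul_zero]
  · exact Submodule.sum_mem _ fun t _ => Submodule.smul_mem _ _ (LC_conj h hB hY _)
  · intro x hx
    rw [avg_on hri (hεk i) hμk hμ1 hμ0 (hYst i) hx, if_pos rfl, if_neg hμ2, zero_mul, zero_smul,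
      add_zero]
    rfl
  · intro j hj1 hj2 x hx
    obtain ⟨h3, h4⟩ := hij j hj1 hj2
    rw [avg_on (href j) (hεk j) hμk hμ1 hμ0 (hYst j) hx, if_neg (fun h5 => h3 (inv_inj.1 h5)),
      if_neg h4, zero_mul, zero_mul, zero_smul, zero_smul, add_zero]

end elements

end Pool.Agent.N174.Cyc
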